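import Mathlib

set_option autoImplicit false

namespace Pool.B595.Bih

open Relation

/-- connected reflexive graph -/
structure Gr (V : Type) where
  adj : V → V → Prop
  refl : ∀ x, adj x x
  symm : ∀ x y, adj x y → adj y x
  conn : ∀ x y, ReflTransGen adj x y

/-- connected inside the set `S` -/
def CIn {V : Type} (G : Gr V) (S : Set V) : V → V → Prop :=
  ReflTransGen (fun a b => a ∈ S ∧ b ∈ S ∧ G.adj a b)

/-- monotone epimorphism of graphs -/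
structure Mn {W V : Type} (K : Gr W) (G : Gr V) (f : W → V) : Prop where
  hom : ∀ x y, K.adj x y → G.adj (f x) (f y)
  edge : ∀ x y, G.adj x y → ∃ x' y', K.adj x' y' ∧ f x' = x ∧ f y' = y
  con : ∀ x y, f x = f y → CIn K (f ⁻¹' {f x}) x y

/-- threads of an inverse sequence -/
def Thr {V : ℕ → Type} (p : ∀ n, V (n + 1) → V n) : Type :=
  {x : ∀ n, V n // ∀ n, p n (x (n + 1)) = x n}

/-- generic tower of graphs -/
structure Tw where
  V : ℕ → Type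
  fin : ∀ n, Finite (V n)
  ne : ∀ n, Nonempty (V n)
  G : ∀ n, Gr (V n)
  p : ∀ n, V (n + 1) → V n
  mor : ∀ n, Mn (G (n + 1)) (G n) (p n)
  con : ∀ n x y z, (G (n + 1)).adj x y → (G (n + 1)).adj y z → (G n).adj (p n x) (p n z)
  tri : ∀ n x y z, (G n).adj x y → (G n).adj y z → (G n).adj x z → x = y ∨ y = z ∨ x = z
  ext : ∀ (n N : ℕ) (W : Type), Finite W → ∀ (K : Gr W) (f : W → V n), Mn K (G n) f →
    ∃ m, N < m ∧ n < m ∧ ∃ g : V m → W, Mn (G m) K g ∧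
      ∀ x : Thr p, f (g (x.1 m)) = x.1 n

/-- iterated projection to level zero -/
def Tw.P (T : Tw) : ∀ n, T.V n → T.V 0
  | 0 => fun v => v
  | (n + 1) => fun v => T.P n (T.p n v)

/-- monodromy group data -/
structure Mono where
  Γ : Type
  grp : Group Γ
  Q : ℕ → Type
  grpQ : ∀ n, Group (Q n)
  finQ : ∀ n, Finite (Q n)
  r : ∀ n, Γ →* Q n
  s : ∀ n, Q (n + 1) →* Q n
  comp : ∀ n γ, s n (r (n + 1) γ) = r n γ
  sep : ∀ γ, (∀ n, r n γ = 1) → γ = 1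
  Q0 : Subsingleton (Q 0)
  a : Γ
  t : Γ
  e : Γ → ℤ
  e_mul : ∀ x y, e (x * y) = e x + e y
  e_a : e a = 0
  e_t : e t = 1
  conj : ∀ γ, 0 ≤ e γ → ∀ N : ℕ, γ * a ^ N * γ⁻¹ = a ^ (N * 2 ^ (e γ).toNat)
  rig : ∀ (x y : Γ) (k : ℕ), x ≠ 1 → e x = 0 → y * x * y⁻¹ = x ^ (2 ^ k) → e y = k
  a_ker : ∀ n, r n (a ^ (3 ^ n)) = 1
  a_inf : ∀ N : ℕ, 0 < N → a ^ N ≠ 1
  t_ker : ∀ n, ∃ j : ℕ, 0 < j ∧ r n (t ^ j) = 1
  gen : ∀ n (x : Q n), ∃ γ ∈ Subgroup.closure {a, t}, r n γ = x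
  g : ∀ n, Q n
  g_comp : ∀ n, s n (g (n + 1)) = g n
  g_t : ∀ n, ∃ k : ℕ, r n (t ^ k) = g n
  fin : ∀ C : ℤ, ∃ n, ∀ (M : Γ) (k : ℤ), r n (t ^ k) = g n → g n * r n M = 1 → e M ≠ C + k

attribute [instance] Mono.grp Mono.grpQ

/-- tower with a cocycle on level zero with monodromy containing `a` and `t` -/
structure Dat where
  T : Tw
  M : Mono
  c : T.V 0 → T.V 0 → M.Γ
  c1 : ∀ x, c x x = 1
  c2 : ∀ x y, c x y * c y x = 1
  o : T.V 0
  la : List (T.V 0)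
  lt : List (T.V 0)
  cla : (o :: la).IsChain (T.G 0).adj
  clt : (o :: lt).IsChain (T.G 0).adj
  ela : (o :: la).getLast? = some o
  elt : (o :: lt).getLast? = some o
  pla : (List.zipWith c (o :: la) la).prod = M.a
  plt : (List.zipWith c (o :: lt) lt).prod = M.t

/-- levels of the bundle -/
def Dat.VX (D : Dat) (n : ℕ) : Type := D.T.V n × D.M.Q n

def Dat.pX (D : Dat) (n : ℕ) : D.VX (n + 1) → D.VX n :=
  fun z => (D.T.p n z.1, D.M.s n z.2)

/-- adjacency in the covering graph -/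
def Dat.adjX (D : Dat) (n : ℕ) : D.VX n → D.VX n → Prop :=
  fun z w => (D.T.G n).adj z.1 w.1 ∧ w.2 = z.2 * D.M.r n (D.c (D.T.P n z.1) (D.T.P n w.1))

/-- threads of the bundle -/
abbrev Dat.Th (D : Dat) : Type := Thr D.pX

/-- adjacency of threads at level `n` -/
def Dat.A (D : Dat) (n : ℕ) (z w : D.Th) : Prop := D.adjX n (z.1 n) (w.1 n)

/-- the cocycle on threads -/
def Dat.cc (D : Dat) (z w : D.Th) : D.M.Γ := D.c (z.1 0).1 (w.1 0).1

/-- underlying thread of the tower -/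
def Dat.base (D : Dat) (z : D.Th) : Thr D.T.p :=
  ⟨fun n => (z.1 n).1, fun n => congrArg Prod.fst (z.2 n)⟩

/-- the thread over `u` with group part that of `z` times `γ` -/
def Dat.tw (D : Dat) (u : Thr D.T.p) (z : D.Th) (γ : D.M.Γ) : D.Th :=
  ⟨fun n => (u.1 n, (z.1 n).2 * D.M.r n γ), fun n => by
    have h := congrArg Prod.snd (z.2 n)
    have h1 : D.M.s n (z.1 (n + 1)).2 = (z.1 n).2 := h
    refine Prod.ext (u.2 n) ?_
    show D.M.s n ((z.1 (n + 1)).2 * D.M.r (n + 1) γ) = (z.1 n).2 * D.M.r n γ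
    rw [map_mul, D.M.comp, h1]⟩

/-- chains of threads with two monodromies -/
inductive Jn {Z Γ : Type} [Group Γ] (R : Z → Z → Prop) (c c' : Z → Z → Γ) : Z → Z → Γ → Γ → Prop
  | nil (z : Z) : Jn R c c' z z 1 1
  | cons (z w v : Z) (γ γ' : Γ) : R z w → Jn R c c' w v γ γ' →
      Jn R c c' z v (c z w * γ) (c' z w * γ')

structure IsLim {V : ℕ → Type} (adj : ∀ n, V n → V n → Prop) (p : ∀ n, V (n + 1) → V n)
    {X : Type} [MetricSpace X] (q : Thr p → X) : Prop where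
  surj : Function.Surjective q
  near : ∀ n, ∃ ε > 0, ∀ x y : Thr p, dist (q x) (q y) < ε → adj n (x.1 n) (y.1 n)
  small : ∀ ε > 0, ∃ n, ∀ x y : Thr p, adj n (x.1 n) (y.1 n) → dist (q x) (q y) < ε

end Pool.B595.Bih
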