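import Pool.Agent.B595.Bih.Defs

set_option autoImplicit false


namespace Pool.B595.Bih

open Relation

/-! TARGET: prove this (auxiliary lemmas allowed before it) -/

theorem mn_mono {V : Type} {G : Gr V} {S S' : Set V} (hS : S ⊆ S') {x y : V}
    (h : CIn G S x y) : CIn G S' x y := by
  induction h with
  | refl => exact ReflTransGen.refl
  | tail _ hs ih => exact ih.tail ⟨hS hs.1, hS hs.2.1, hs.2.2⟩

theorem Mn.id {V : Type} (G : Gr V) : Mn G G (fun v => v) where
  hom := fun _ _ h => h
  edge := fun x y h => ⟨x, y, h, rfl, rfl⟩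
  con := by
    intro x y h
    have h' : x = y := h
    subst h'
    exact ReflTransGen.refl

theorem Mn.cin_lift {W V : Type} {K : Gr W} {G : Gr V} {f : W → V} (hf : Mn K G f)
    (S : Set V) (x y : W) (hx : f x ∈ S) (h : CIn G S (f x) (f y)) : CIn K (f ⁻¹' S) x y := by
  have key : ∀ v, CIn G S (f x) v → ∀ y, f y = v → CIn K (f ⁻¹' S) x y := by
    intro v hv
    induction hv with
    | refl =>
      intro y hy
      refine mn_mono (Set.preimage_mono (Set.singleton_subset_iff.2 hx)) (hf.con x y hy.symm)
    | @tail v' v _ hstep ih =>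
      intro y hy
      obtain ⟨hv', hv, hadj⟩ := hstep
      obtain ⟨a, b, hab, ha, hb⟩ := hf.edge v' v hadj
      have h1 := ih a ha
      have h2 : CIn K (f ⁻¹' S) b y := by
        refine mn_mono (Set.preimage_mono (Set.singleton_subset_iff.2 ?_))
          (hf.con b y (hb.trans hy.symm))
        rw [hb]
        exact hv
      refine (ReflTransGen.tail h1 ⟨?_, ?_, hab⟩).trans h2
      · show f a ∈ S
        rw [ha]
        exact hv'
      · show f b ∈ S
        rw [hb]
        exact hv
  exact key _ h y rfl

theorem Mn.comp {U W V : Type} {L : Gr U} {K : Gr W} {G : Gr V} {g : U → W} {f : W → V}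
    (hf : Mn K G f) (hg : Mn L K g) : Mn L G (f ∘ g) where
  hom := fun x y h => hf.hom _ _ (hg.hom x y h)
  edge := by
    intro x y h
    obtain ⟨x', y', h', hx, hy⟩ := hf.edge x y h
    obtain ⟨x'', y'', h'', hx', hy'⟩ := hg.edge x' y' h'
    exact ⟨x'', y'', h'', by rw [Function.comp, hx', hx], by rw [Function.comp, hy', hy]⟩
  con := by
    intro x y h
    exact hg.cin_lift (f ⁻¹' {f (g x)}) x y rfl (hf.con (g x) (g y) h)

theorem transport {V W : Type} (G : Gr V) (e : V ≃ W) : ∃ K : Gr W, Mn G K e ∧ Mn K G e.symm ∧
    ∀ x y, K.adj x y ↔ G.adj (e.symm x) (e.symm y) := by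
  refine ⟨{ adj := fun x y => G.adj (e.symm x) (e.symm y)
            refl := fun x => G.refl _
            symm := fun x y h => G.symm _ _ h
            conn := fun x y => ?_ }, ?_, ?_, fun x y => Iff.rfl⟩
  · have key : ∀ a b : V, ReflTransGen G.adj a b →
        ReflTransGen (fun x y => G.adj (e.symm x) (e.symm y)) (e a) (e b) := by
      intro a b h
      induction h with
      | refl => exact ReflTransGen.refl
      | tail _ hs ih =>
        refine ih.tail ?_
        rwa [e.symm_apply_apply, e.symm_apply_apply]
    have h := key _ _ (G.conn (e.symm x) (e.symm y))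
    rwa [e.apply_symm_apply, e.apply_symm_apply] at h
  · refine ⟨fun x y h => ?_, fun x y h => ⟨e.symm x, e.symm y, h, e.apply_symm_apply _,
      e.apply_symm_apply _⟩, fun x y h => ?_⟩
    · show G.adj (e.symm (e x)) (e.symm (e y))
      rwa [e.symm_apply_apply, e.symm_apply_apply]
    · have := e.injective h
      subst this
      exact ReflTransGen.refl
  · refine ⟨fun x y h => h, fun x y h => ⟨e x, e y, ?_, e.symm_apply_apply _,
      e.symm_apply_apply _⟩, fun x y h => ?_⟩
    · show G.adj (e.symm (e x)) (e.symm (e y))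
      rwa [e.symm_apply_apply, e.symm_apply_apply]
    · have := e.symm.injective h
      subst this
      exact ReflTransGen.refl

end Pool.B595.Bih
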