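import Pool.Agent.B595.Bih.Defs
import Pool.Agent.B595.Bih.JMn

set_option autoImplicit false


namespace Pool.B595.Bih

open Relation

/-! The following statements are already proved elsewhere: use them freely, do not prove them. -/



/-! TARGET: prove this (auxiliary lemmas allowed before it) -/

theorem exists_thread {V : ℕ → Type} (p : ∀ n, V (n + 1) → V n)
    (surj : ∀ n, Function.Surjective (p n)) (n : ℕ) (v : V n) : ∃ x : Thr p, x.1 n = v := by
  induction n generalizing V p with
  | zero =>
    refine ⟨⟨fun k => Nat.rec v (fun k xk => (surj k xk).choose) k, ?_⟩, rfl⟩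
    intro k
    exact (surj k _).choose_spec
  | succ n ih =>
    obtain ⟨x, hx⟩ := ih (V := fun k => V (k + 1)) (fun k => p (k + 1)) (fun k => surj (k + 1)) v
    refine ⟨⟨fun k => match k with
      | 0 => p 0 (x.1 0)
      | k + 1 => x.1 k, ?_⟩, hx⟩
    intro k
    cases k with
    | zero => rfl
    | succ k => exact x.2 k

theorem proj (T : Tw) (m n : ℕ) (h : m ≤ n) : ∃ P : T.V n → T.V m,
    Mn (T.G n) (T.G m) P ∧ ∀ x : Thr T.p, P (x.1 n) = x.1 m := by
  induction n, h using Nat.le_induction with
  | base => exact ⟨fun v => v, Mn.id _, fun x => rfl⟩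
  | succ n hmn ih =>
    obtain ⟨P, hP, hx⟩ := ih
    refine ⟨P ∘ T.p n, Mn.comp hP (T.mor n), ?_⟩
    intro x
    show P (T.p n (x.1 (n + 1))) = x.1 m
    rw [x.2 n, hx]

theorem P_thread (T : Tw) (x : Thr T.p) (n : ℕ) : T.P n (x.1 n) = x.1 0 := by
  induction n with
  | zero => rfl
  | succ n ih =>
    show T.P n (T.p n (x.1 (n + 1))) = x.1 0
    rw [x.2 n, ih]

theorem P_adj (T : Tw) (n : ℕ) (v w : T.V n) (h : (T.G n).adj v w) :
    (T.G 0).adj (T.P n v) (T.P n w) := by
  induction n with
  | zero => exact h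
  | succ n ih => exact ih _ _ ((T.mor n).hom _ _ h)

end Pool.B595.Bih
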