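import Pool.Agent.B595.Bih.Defs
import Pool.Agent.B595.Bih.JMthr

set_option autoImplicit false


namespace Pool.B595.Bih

open Relation

/-! The following statements are already proved elsewhere: use them freely, do not prove them. -/



/-! TARGET: prove this (auxiliary lemmas allowed before it) -/

theorem bund_tri (D : Dat) (x y z : D.T.V 0) (h1 : (D.T.G 0).adj x y) (h2 : (D.T.G 0).adj y z)
    (h3 : (D.T.G 0).adj x z) : D.c x y * D.c y z = D.c x z := by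
  rcases D.T.tri 0 x y z h1 h2 h3 with rfl | rfl | rfl
  · rw [D.c1, one_mul]
  · rw [D.c1, mul_one]
  · rw [D.c2, D.c1]

theorem adjX_refl (D : Dat) (n : ℕ) (z : D.VX n) : D.adjX n z z := by
  refine ⟨(D.T.G n).refl _, ?_⟩
  rw [D.c1, map_one, mul_one]

theorem adjX_symm (D : Dat) (n : ℕ) (z w : D.VX n) (h : D.adjX n z w) : D.adjX n w z := by
  refine ⟨(D.T.G n).symm _ _ h.1, ?_⟩
  rw [h.2, mul_assoc, ← map_mul, D.c2, map_one, mul_one]

theorem adjX_con (D : Dat) (n : ℕ) (x y z : D.VX (n + 1)) (h1 : D.adjX (n + 1) x y)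
    (h2 : D.adjX (n + 1) y z) : D.adjX n (D.pX n x) (D.pX n z) := by
  have hc := D.T.con n x.1 y.1 z.1 h1.1 h2.1
  refine ⟨hc, ?_⟩
  have e1 : (D.T.G 0).adj (D.T.P (n + 1) x.1) (D.T.P (n + 1) y.1) := P_adj D.T _ _ _ h1.1
  have e2 : (D.T.G 0).adj (D.T.P (n + 1) y.1) (D.T.P (n + 1) z.1) := P_adj D.T _ _ _ h2.1
  have e3 : (D.T.G 0).adj (D.T.P (n + 1) x.1) (D.T.P (n + 1) z.1) := P_adj D.T n _ _ hc
  have h3 := bund_tri D _ _ _ e1 e2 e3
  show D.M.s n z.2 = D.M.s n x.2 * D.M.r n (D.c (D.T.P (n + 1) x.1) (D.T.P (n + 1) z.1))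
  rw [h2.2, h1.2, mul_assoc, ← map_mul, h3, map_mul, D.M.comp]

theorem adjX_tri (D : Dat) (n : ℕ) (x y z : D.VX n) (h1 : D.adjX n x y) (h2 : D.adjX n y z)
    (h3 : D.adjX n x z) : x = y ∨ y = z ∨ x = z := by
  have key : ∀ x y : D.VX n, D.adjX n x y → x.1 = y.1 → x = y := by
    intro x y h e
    refine Prod.ext e ?_
    rw [h.2, e, D.c1, map_one, mul_one]
  rcases D.T.tri n x.1 y.1 z.1 h1.1 h2.1 h3.1 with h | h | h
  · exact Or.inl (key _ _ h1 h)
  · exact Or.inr (Or.inl (key _ _ h2 h))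
  · exact Or.inr (Or.inr (key _ _ h3 h))

theorem finX (D : Dat) (n : ℕ) : Finite (D.VX n) := by
  have h1 := D.T.fin n
  have h2 := D.M.finQ n
  unfold Dat.VX
  infer_instance

theorem A_mono (D : Dat) (m n : ℕ) (h : m ≤ n) (z w : D.Th) (hA : D.A n z w) : D.A m z w := by
  induction n, h using Nat.le_induction with
  | base => exact hA
  | succ n _ ih =>
    apply ih
    have h1 := adjX_con D n _ _ _ (adjX_refl D (n + 1) (z.1 (n + 1))) hA
    rw [z.2 n, w.2 n] at h1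
    exact h1

theorem thr_level (D : Dat) (m n : ℕ) (h : m ≤ n) (z w : D.Th) (γ : D.M.Γ)
    (hA : (w.1 n).2 = (z.1 n).2 * D.M.r n γ) : (w.1 m).2 = (z.1 m).2 * D.M.r m γ := by
  induction n, h using Nat.le_induction with
  | base => exact hA
  | succ n _ ih =>
    apply ih
    have hz : D.M.s n (z.1 (n + 1)).2 = (z.1 n).2 := congrArg Prod.snd (z.2 n)
    have hw : D.M.s n (w.1 (n + 1)).2 = (w.1 n).2 := congrArg Prod.snd (w.2 n)
    rw [← hw, hA, map_mul, hz, D.M.comp]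

theorem A_iff (D : Dat) (n : ℕ) (z w : D.Th) :
    D.A n z w ↔ (D.T.G n).adj (z.1 n).1 (w.1 n).1 ∧
      (w.1 n).2 = (z.1 n).2 * D.M.r n (D.cc z w) := by
  have hz : D.T.P n (z.1 n).1 = (z.1 0).1 := P_thread D.T (D.base z) n
  have hw : D.T.P n (w.1 n).1 = (w.1 0).1 := P_thread D.T (D.base w) n
  unfold Dat.A Dat.adjX Dat.cc
  rw [hz, hw]

theorem square (D : Dat) (z z' y y' : D.Th) (h1 : D.A 1 z z') (h2 : D.A 1 y y')
    (h3 : D.A 1 z y) (h4 : D.A 1 z' y') :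
    D.cc z z' * D.cc z' y' = D.cc z y * D.cc y y' := by
  have f1 := (A_mono D 0 1 (Nat.zero_le _) _ _ h1).1
  have f2 := (A_mono D 0 1 (Nat.zero_le _) _ _ h2).1
  have f3 := (A_mono D 0 1 (Nat.zero_le _) _ _ h3).1
  have f4 := (A_mono D 0 1 (Nat.zero_le _) _ _ h4).1
  have f5 : (D.T.G 0).adj (z.1 0).1 (y'.1 0).1 := by
    have h5 := (adjX_con D 0 _ _ _ h3 h2).1
    rw [z.2 0, y'.2 0] at h5
    exact h5
  show D.c _ _ * D.c _ _ = D.c _ _ * D.c _ _
  rw [bund_tri D _ _ _ f1 f4 f5, bund_tri D _ _ _ f3 f2 f5]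

end Pool.B595.Bih
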