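import Pool.Agent.B595.Bih.Defs
import Pool.Agent.B595.Bih.JBund

set_option autoImplicit false


namespace Pool.B595.Bih

open Relation

/-! The following statements are already proved elsewhere: use them freely, do not prove them. -/


/-! TARGET: prove this (auxiliary lemmas allowed before it) -/

theorem Jn.trans {Z Γ : Type} [Group Γ] {R : Z → Z → Prop} {c c' : Z → Z → Γ} {x y z : Z}
    {γ γ' δ δ' : Γ} (h1 : Jn R c c' x y γ γ') (h2 : Jn R c c' y z δ δ') :
    Jn R c c' x z (γ * δ) (γ' * δ') := by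
  induction h1 with
  | nil z => simpa using h2
  | cons z w v γ γ' hzw _ ih =>
    rw [mul_assoc, mul_assoc]
    exact Jn.cons z w _ _ _ hzw (ih h2)

theorem Jn.mono {Z Γ : Type} [Group Γ] {R R' : Z → Z → Prop} {c c' : Z → Z → Γ} {x y : Z}
    {γ γ' : Γ} (h : ∀ x y, R x y → R' x y) (h1 : Jn R c c' x y γ γ') :
    Jn R' c c' x y γ γ' := by
  induction h1 with
  | nil z => exact Jn.nil z
  | cons z w v γ γ' hzw _ ih => exact Jn.cons z w v γ γ' (h _ _ hzw) ih

theorem Jn.symm {Z Γ : Type} [Group Γ] {R : Z → Z → Prop} {c c' : Z → Z → Γ}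
    (hR : ∀ x y, R x y → R y x) (hc : ∀ x y, c x y * c y x = 1)
    (hc' : ∀ x y, c' x y * c' y x = 1) {x y : Z} {γ γ' : Γ} (h : Jn R c c' x y γ γ') :
    Jn R c c' y x γ⁻¹ γ'⁻¹ := by
  induction h with
  | nil z => simpa using Jn.nil (R := R) (c := c) (c' := c') z
  | cons z w v γ γ' hzw _ ih =>
    have h1 := ih.trans (Jn.cons w z z 1 1 (hR _ _ hzw) (Jn.nil z))
    have e1 : c w z = (c z w)⁻¹ := eq_inv_of_mul_eq_one_right (hc z w)
    have e2 : c' w z = (c' z w)⁻¹ := eq_inv_of_mul_eq_one_right (hc' z w)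
    rw [mul_one, mul_one, e1, e2] at h1
    rw [mul_inv_rev, mul_inv_rev]
    exact h1

theorem mon_level (D : Dat) (j : ℕ) (hh : D.Th → D.Th) (R : D.Th → D.Th → Prop)
    (hR : ∀ z w, R z w → D.A j (hh z) (hh w)) (c : D.Th → D.Th → D.M.Γ) (z w : D.Th)
    (γ γ' : D.M.Γ) (h : Jn R c (fun a b => D.cc (hh a) (hh b)) z w γ γ') :
    ((hh w).1 j).2 = ((hh z).1 j).2 * D.M.r j γ' := by
  induction h with
  | nil z => rw [map_one, mul_one]
  | cons z w v γ γ' hzw _ ih =>
    have hA := ((A_iff D j (hh z) (hh w)).1 (hR z w hzw)).2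
    rw [ih, hA, map_mul, mul_assoc]

end Pool.B595.Bih
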