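import Pool.Agent.B595.Bih.Defs
import Pool.Agent.B595.Bih.JMthr

set_option autoImplicit false


namespace Pool.B595.Bih

open Relation

/-! The following statements are already proved elsewhere: use them freely, do not prove them. -/



/-! TARGET: prove this (auxiliary lemmas allowed before it) -/

theorem exists_adj_threads (T : Tw) (n : ℕ) (v w : T.V n) (h : (T.G n).adj v w) :
    ∃ x y : Thr T.p, x.1 n = v ∧ y.1 n = w ∧ ∀ m, (T.G m).adj (x.1 m) (y.1 m) := by
  let V' : ℕ → Type := fun m => {q : T.V m × T.V m // (T.G m).adj q.1 q.2}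
  let p' : ∀ m, V' (m + 1) → V' m := fun m q =>
    ⟨(T.p m q.1.1, T.p m q.1.2), (T.mor m).hom _ _ q.2⟩
  have hs : ∀ m, Function.Surjective (p' m) := by
    rintro m ⟨⟨a, b⟩, hab⟩
    obtain ⟨a', b', hab', ha, hb⟩ := (T.mor m).edge a b hab
    exact ⟨⟨(a', b'), hab'⟩, Subtype.ext (Prod.ext ha hb)⟩
  obtain ⟨z, hz⟩ := exists_thread p' hs n ⟨(v, w), h⟩
  refine ⟨⟨fun m => (z.1 m).1.1, fun m => ?_⟩, ⟨fun m => (z.1 m).1.2, fun m => ?_⟩, ?_, ?_, ?_⟩
  · exact congrArg (fun q : V' m => q.1.1) (z.2 m)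
  · exact congrArg (fun q : V' m => q.1.2) (z.2 m)
  · exact congrArg (fun q : V' n => q.1.1) hz
  · exact congrArg (fun q : V' n => q.1.2) hz
  · intro m
    exact (z.1 m).2

end Pool.B595.Bih
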