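import Pool.Agent.B595.Bih.Defs
import Pool.Agent.B595.Bih.JMn
import Pool.Agent.B595.Bih.JMthr
import Pool.Agent.B595.Bih.JMadj
import Pool.Agent.B595.Bih.JBund
import Pool.Agent.B595.Bih.JJn

set_option autoImplicit false


namespace Pool.B595.Bih

open Relation

/-! The following statements are already proved elsewhere: use them freely, do not prove them. -/








/-! TARGET: prove this (auxiliary lemmas allowed before it) -/

theorem lift0_surj (T : Tw) (n : ℕ) : Function.Surjective (T.p n) := by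
  intro v
  obtain ⟨x', _, _, h, _⟩ := (T.mor n).edge v v ((T.G n).refl v)
  exact ⟨x', h⟩

theorem lift0_step (D : Dat) (J : ℕ) (z : D.Th) (x x' : Thr D.T.p) (γ : D.M.Γ)
    (h : (D.T.G J).adj (x.1 J) (x'.1 J)) :
    D.A J (D.tw x z γ) (D.tw x' z (γ * D.c (x.1 0) (x'.1 0))) := by
  rw [A_iff]
  refine ⟨h, ?_⟩
  show (z.1 J).2 * D.M.r J (γ * D.c (x.1 0) (x'.1 0)) =
    ((z.1 J).2 * D.M.r J γ) * D.M.r J (D.c (x.1 0) (x'.1 0))
  rw [map_mul, mul_assoc]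

theorem lift0_edge (D : Dat) (J : ℕ) (c' : D.Th → D.Th → D.M.Γ) (z : D.Th) (x x' : Thr D.T.p)
    (γ : D.M.Γ) (h : (D.T.G J).adj (x.1 J) (x'.1 J)) :
    ∃ γ', Jn (D.A J) D.cc c' (D.tw x z γ) (D.tw x' z (γ * D.c (x.1 0) (x'.1 0)))
      (D.c (x.1 0) (x'.1 0)) γ' := by
  have h1 := Jn.cons (R := D.A J) (c := D.cc) (c' := c') _ _ _ 1 1 (lift0_step D J z x x' γ h) (Jn.nil _)
  rw [mul_one (D.cc _ _)] at h1
  exact ⟨_, h1⟩

theorem lift0_edge1 (D : Dat) (J : ℕ) (c' : D.Th → D.Th → D.M.Γ) (z : D.Th) (x x' : Thr D.T.p)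
    (γ : D.M.Γ) (h : (D.T.G J).adj (x.1 J) (x'.1 J)) (h0 : x.1 0 = x'.1 0) :
    ∃ γ', Jn (D.A J) D.cc c' (D.tw x z γ) (D.tw x' z γ) 1 γ' := by
  have h1 := lift0_edge D J c' z x x' γ h
  rw [h0, D.c1, mul_one] at h1
  exact h1

theorem lift0_path (D : Dat) (J : ℕ) (c' : D.Th → D.Th → D.M.Γ) (z : D.Th) (f : D.T.V J → D.T.V 0)
    (hf : ∀ x : Thr D.T.p, f (x.1 J) = x.1 0) (v : D.T.V 0) (γ : D.M.Γ) (x : Thr D.T.p)
    (hx : x.1 0 = v) (b : D.T.V J) (h : CIn (D.T.G J) (f ⁻¹' {v}) (x.1 J) b) :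
    ∀ x' : Thr D.T.p, x'.1 J = b → ∃ γ', Jn (D.A J) D.cc c' (D.tw x z γ) (D.tw x' z γ) 1 γ' := by
  induction h with
  | refl =>
    intro x' hx'
    refine lift0_edge1 D J c' z x x' γ ?_ ?_
    · rw [hx']
      exact (D.T.G J).refl _
    · rw [← hf, ← hf, hx']
  | tail hab hbc ih =>
    intro x' hx'
    obtain ⟨hb, hc, hadj⟩ := hbc
    obtain ⟨y, hy⟩ := exists_thread D.T.p (lift0_surj D.T) J _
    obtain ⟨γ1, h1⟩ := ih y hy
    have hy0 : y.1 0 = v := by rw [← hf, hy]; exact hb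
    have hx0 : x'.1 0 = v := by rw [← hf, hx']; exact hc
    obtain ⟨γ2, h2⟩ := lift0_edge1 D J c' z y x' γ (by rw [hy, hx']; exact hadj) (by rw [hy0, hx0])
    have h3 := Jn.trans h1 h2
    rw [mul_one (1 : D.M.Γ)] at h3
    exact ⟨_, h3⟩

theorem lift0_tw (D : Dat) (z : D.Th) : D.tw (D.base z) z 1 = z := by
  apply Subtype.ext
  funext n
  refine Prod.ext rfl ?_
  show (z.1 n).2 * D.M.r n 1 = (z.1 n).2
  rw [map_one, mul_one]

theorem lift0 (D : Dat) (J : ℕ) (c' : D.Th → D.Th → D.M.Γ) (z : D.Th) (u : Thr D.T.p)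
    (h : (D.T.G 0).adj (z.1 0).1 (u.1 0)) :
    ∃ γ', Jn (D.A J) D.cc c' z (D.tw u z (D.c (z.1 0).1 (u.1 0)))
      (D.c (z.1 0).1 (u.1 0)) γ' := by
  obtain ⟨f, hf, hfx⟩ := proj D.T 0 J (Nat.zero_le _)
  set v := (z.1 0).1 with hv
  set w := u.1 0 with hw
  obtain ⟨e, e', hee, he, he'⟩ := hf.edge v w h
  obtain ⟨xe, hxe⟩ := exists_thread D.T.p (lift0_surj D.T) J e
  obtain ⟨xe', hxe'⟩ := exists_thread D.T.p (lift0_surj D.T) J e'
  have hxe0 : xe.1 0 = v := by rw [← hfx, hxe, he]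
  have hxe0' : xe'.1 0 = w := by rw [← hfx, hxe', he']
  have hb0 : (D.base z).1 0 = v := rfl
  have hfz : f ((D.base z).1 J) = v := by rw [hfx]; rfl
  have hfu : f (u.1 J) = w := hfx u
  have c1 : CIn (D.T.G J) (f ⁻¹' {v}) ((D.base z).1 J) e := by
    have := hf.con ((D.base z).1 J) e (by rw [hfz, he])
    rwa [hfz] at this
  have c2 : CIn (D.T.G J) (f ⁻¹' {w}) (xe'.1 J) (u.1 J) := by
    have := hf.con (xe'.1 J) (u.1 J) (by rw [hfu, hxe', he'])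
    rwa [hfx, hxe0'] at this
  obtain ⟨γ1, h1⟩ := lift0_path D J c' z f hfx v 1 (D.base z) hb0 e c1 xe hxe
  obtain ⟨γ2, h2⟩ := lift0_edge D J c' z xe xe' 1 (by rw [hxe, hxe']; exact hee)
  obtain ⟨γ3, h3⟩ := lift0_path D J c' z f hfx w (D.c v w) xe' hxe0' (u.1 J) c2 u rfl
  rw [lift0_tw] at h1
  rw [hxe0, hxe0', one_mul] at h2
  have h4 := Jn.trans (Jn.trans h1 h2) h3
  rw [one_mul (D.c v w), mul_one (D.c v w)] at h4
  exact ⟨_, h4⟩

end Pool.B595.Bih
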