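import Pool.Agent.B595.Bih.Defs
import Pool.Agent.B595.Bih.JLift0
import Pool.Agent.B595.Bih.JJn

set_option autoImplicit false


namespace Pool.B595.Bih

open Relation

/-! The following statements are already proved elsewhere: use them freely, do not prove them. -/




theorem m3_tw_tw (D : Dat) (u x : Thr D.T.p) (z : D.Th) (γ δ : D.M.Γ) :
    D.tw u (D.tw x z γ) δ = D.tw u z (γ * δ) := by
  apply Subtype.ext
  funext n
  refine Prod.ext rfl ?_
  show (z.1 n).2 * D.M.r n γ * D.M.r n δ = (z.1 n).2 * D.M.r n (γ * δ)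
  rw [map_mul, mul_assoc]

theorem m3_surj (T : Tw) (n : ℕ) (v : T.V n) : ∃ w : T.V (n + 1), T.p n w = v := by
  obtain ⟨x', y', -, hx, -⟩ := (T.mor n).edge v v ((T.G n).refl v)
  exact ⟨x', hx⟩

theorem m3_exists_thread (T : Tw) (v : T.V 0) : ∃ u : Thr T.p, u.1 0 = v := by
  let x : ∀ n, T.V n := fun n => Nat.rec v (fun n w => Classical.choose (m3_surj T n w)) n
  refine ⟨⟨x, fun n => ?_⟩, rfl⟩
  exact Classical.choose_spec (m3_surj T n (x n))

theorem m3_symm {Z Γ : Type} [Group Γ] {R : Z → Z → Prop} {c : Z → Z → Γ}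
    (hR : ∀ x y, R x y → R y x) (hc : ∀ x y, c x y * c y x = 1) {x y : Z} {γ δ : Γ}
    (h : Jn R c c x y γ δ) : Jn R c c y x γ⁻¹ δ⁻¹ := by
  induction h with
  | nil z => simpa using Jn.nil (R := R) (c := c) (c' := c) z
  | cons z w v γ γ' hzw _ ih =>
    have h1 : Jn R c c w z (c w z * 1) (c w z * 1) := Jn.cons w z z 1 1 (hR _ _ hzw) (Jn.nil z)
    have h2 := ih.trans h1
    have h3 : c w z = (c z w)⁻¹ := by
      rw [eq_inv_iff_mul_eq_one]; exact hc w z
    rw [mul_one, h3] at h2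
    rw [mul_inv_rev, mul_inv_rev]
    exact h2

theorem m3_list {Z Γ : Type} [Group Γ] {R : Z → Z → Prop} {c : Z → Z → Γ} (l : List Z) (w : Z) :
    ∀ v : Z, (v :: l).IsChain R → (v :: l).getLast? = some w →
      Jn R c c v w (List.zipWith c (v :: l) l).prod (List.zipWith c (v :: l) l).prod := by
  induction l with
  | nil =>
    intro v _ h
    have : v = w := by simpa using h
    subst this
    simpa using Jn.nil (R := R) (c := c) (c' := c) v
  | cons v' l ih =>
    intro v h1 h2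
    rw [List.isChain_cons_cons] at h1
    have h3 : (v' :: l).getLast? = some w := by
      rw [← h2, List.getLast?_cons_cons]
    have h4 := ih v' h1.2 h3
    have h5 := Jn.cons v v' w _ _ h1.1 h4
    simpa using h5

theorem m3_lift (D : Dat) (m : ℕ) (c' : D.Th → D.Th → D.M.Γ) {v w : D.T.V 0} {γ δ : D.M.Γ}
    (h : Jn (D.T.G 0).adj D.c D.c v w γ δ) :
    ∀ (z : D.Th) (u : Thr D.T.p), (z.1 0).1 = v → u.1 0 = w →
      ∃ γ', Jn (D.A m) D.cc c' z (D.tw u z γ) γ γ' := by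
  induction h with
  | nil v =>
    intro z u hz hu
    have h1 := lift0 D m c' z u (by rw [hz, hu]; exact (D.T.G 0).refl v)
    rw [hz, hu, D.c1] at h1
    exact h1
  | cons v v' w γ γ' hvv' _ ih =>
    intro z u hz hu
    obtain ⟨x, hx⟩ := m3_exists_thread D.T v'
    obtain ⟨δ1, h1⟩ := lift0 D m c' z x (by rw [hz, hx]; exact hvv')
    rw [hz, hx] at h1
    obtain ⟨δ2, h2⟩ := ih (D.tw x z (D.c v v')) u hx hu
    rw [m3_tw_tw] at h2
    exact ⟨_, h1.trans h2⟩

theorem m3_walk (D : Dat) (γ : D.M.Γ) (hγ : γ ∈ Subgroup.closure {D.M.a, D.M.t}) :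
    ∃ δ, Jn (D.T.G 0).adj D.c D.c D.o D.o γ δ := by
  induction hγ using Subgroup.closure_induction with
  | mem x hx =>
    simp only [Set.mem_insert_iff, Set.mem_singleton_iff] at hx
    rcases hx with hx | hx
    · have h := m3_list (c := D.c) D.la D.o D.o D.cla D.ela
      rw [D.pla] at h
      rw [hx]; exact ⟨D.M.a, h⟩
    · have h := m3_list (c := D.c) D.lt D.o D.o D.clt D.elt
      rw [D.plt] at h
      rw [hx]; exact ⟨D.M.t, h⟩
  | one => exact ⟨1, Jn.nil _⟩
  | mul x y _ _ hx hy =>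
    obtain ⟨δ1, h1⟩ := hx
    obtain ⟨δ2, h2⟩ := hy
    exact ⟨_, h1.trans h2⟩
  | inv x _ hx =>
    obtain ⟨δ1, h1⟩ := hx
    exact ⟨_, m3_symm (D.T.G 0).symm D.c2 h1⟩

/-! TARGET: prove this (auxiliary lemmas allowed before it) -/

theorem M3 (D : Dat) (m : ℕ) (c' : D.Th → D.Th → D.M.Γ) (z : D.Th) (hz : (z.1 0).1 = D.o)
    (γ : D.M.Γ) (hγ : γ ∈ Subgroup.closure {D.M.a, D.M.t}) :
    ∃ γ', Jn (D.A m) D.cc c' z (D.tw (D.base z) z γ) γ γ' := by
  obtain ⟨δ, h⟩ := m3_walk D γ hγ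
  exact m3_lift D m c' h z (D.base z) hz hz

end Pool.B595.Bih
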