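import Pool.Agent.B595.Bih.Defs
import Pool.Agent.B595.Bih.JLift0
import Pool.Agent.B595.Bih.JM3
import Pool.Agent.B595.Bih.JMthr
import Pool.Agent.B595.Bih.JJn
import Pool.Agent.B595.Bih.JBund

set_option autoImplicit false


namespace Pool.B595.Bih

open Relation

/-! The following statements are already proved elsewhere: use them freely, do not prove them. -/






/-! TARGET: prove this (auxiliary lemmas allowed before it) -/

theorem chconn_of_Jn {Z Γ : Type} [Group Γ] {R : Z → Z → Prop} {c c' : Z → Z → Γ} {x y : Z}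
    {γ γ' : Γ} (h : Jn R c c' x y γ γ') : ReflTransGen R x y := by
  induction h with
  | nil z => exact ReflTransGen.refl
  | cons z w v γ γ' h1 _ ih => exact ReflTransGen.head h1 ih

theorem chconn_adjX_symm (D : Dat) (n : ℕ) {z w : D.VX n} (h : D.adjX n z w) : D.adjX n w z := by
  refine ⟨(D.T.G n).symm _ _ h.1, ?_⟩
  rw [h.2, mul_assoc, ← map_mul, D.c2, map_one, mul_one]

theorem chconn_adjX_refl (D : Dat) (n : ℕ) (z : D.VX n) : D.adjX n z z := by
  refine ⟨(D.T.G n).refl _, ?_⟩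
  rw [D.c1, map_one, mul_one]

theorem chconn_symm (D : Dat) (n : ℕ) {z w : D.Th} (h : ReflTransGen (D.A n) z w) :
    ReflTransGen (D.A n) w z := by
  induction h with
  | refl => exact ReflTransGen.refl
  | tail _ h2 ih => exact ReflTransGen.head (chconn_adjX_symm D n h2) ih

theorem chconn_surj (D : Dat) (n : ℕ) : Function.Surjective (D.T.p n) := by
  intro x
  obtain ⟨x', _, _, h, _⟩ := (D.T.mor n).edge x x ((D.T.G n).refl x)
  exact ⟨x', h⟩

theorem chconn_walk (D : Dat) (n : ℕ) (u : Thr D.T.p) {v : D.T.V 0}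
    (h : ReflTransGen (D.T.G 0).adj v (u.1 0)) :
    ∀ z : D.Th, (z.1 0).1 = v → ∃ z' : D.Th, ReflTransGen (D.A n) z z' ∧ D.base z' = u := by
  induction h using ReflTransGen.head_induction_on with
  | refl =>
    intro z hz
    obtain ⟨γ', hJ⟩ := lift0 D n D.cc z u (by rw [hz]; exact (D.T.G 0).refl _)
    exact ⟨_, chconn_of_Jn hJ, rfl⟩
  | @head a b h1 _ ih =>
    intro z hz
    obtain ⟨u', hu'⟩ := exists_thread D.T.p (chconn_surj D) 0 b
    obtain ⟨γ', hJ⟩ := lift0 D n D.cc z u' (by rw [hz, hu']; exact h1)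
    obtain ⟨z', hz', hb⟩ := ih (D.tw u' z (D.c (z.1 0).1 (u'.1 0))) hu'
    exact ⟨z', (chconn_of_Jn hJ).trans hz', hb⟩

theorem chain_conn (D : Dat) (n : ℕ) (z w : D.Th) : ReflTransGen (D.A n) z w := by
  obtain ⟨u, hu⟩ := exists_thread D.T.p (chconn_surj D) 0 D.o
  obtain ⟨z1, hz1, hbz⟩ := chconn_walk D n u ((D.T.G 0).conn _ _) z rfl
  obtain ⟨w1, hw1, hbw⟩ := chconn_walk D n u ((D.T.G 0).conn _ _) w rfl
  have hzn : ∀ m, (z1.1 m).1 = u.1 m := fun m => by rw [← hbz]; rfl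
  have hwn : ∀ m, (w1.1 m).1 = u.1 m := fun m => by rw [← hbw]; rfl
  obtain ⟨γ, hγ, hr⟩ := D.M.gen n ((z1.1 n).2⁻¹ * (w1.1 n).2)
  obtain ⟨γ', hJ⟩ := M3 D n D.cc z1 (by rw [hzn, hu]) γ hγ
  have h2 : D.A n (D.tw (D.base z1) z1 γ) w1 := by
    have e : (D.tw (D.base z1) z1 γ).1 n = w1.1 n := by
      refine Prod.ext ?_ ?_
      · show (z1.1 n).1 = (w1.1 n).1
        rw [hzn, hwn]
      · show (z1.1 n).2 * D.M.r n γ = (w1.1 n).2
        rw [hr, mul_inv_cancel_left]
    show D.adjX n _ _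
    rw [e]
    exact chconn_adjX_refl D n _
  exact hz1.trans ((chconn_of_Jn hJ).trans (ReflTransGen.head h2 (chconn_symm D n hw1)))

end Pool.B595.Bih
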