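import Pool.Agent.B595.Bih.Defs

set_option autoImplicit false


namespace Pool.B595.Bih

open Relation

/-! TARGET: prove this (auxiliary lemmas allowed before it) -/

theorem twogen_pow (n : ℕ) : ∃ e : ℤ, e % 3 ≠ 0 ∧ (2 : ℤ) ^ (2 * 3 ^ n) = 1 + 3 ^ (n + 1) * e := by
  induction n with
  | zero => exact ⟨1, by norm_num, by norm_num⟩
  | succ n ih =>
    obtain ⟨e, he, h⟩ := ih
    refine ⟨e + 3 * (3 ^ n * e ^ 2 + 3 ^ (2 * n) * e ^ 3), by omega, ?_⟩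
    have h1 : (2 : ℤ) ^ (2 * 3 ^ (n + 1)) = ((2 : ℤ) ^ (2 * 3 ^ n)) ^ 3 := by
      rw [← pow_mul]; congr 1; ring
    rw [h1, h]
    ring

theorem twogen_step (n : ℕ) (e x u q : ℤ) (he : e % 3 ≠ 0) (hx : x % 3 ≠ 0)
    (h : x - u = 3 ^ (n + 1) * q) :
    ∃ j : ℕ, (3 : ℤ) ^ (n + 2) ∣ x * (1 + 3 ^ (n + 1) * e) ^ j - u := by
  have hy : (e * x) % 3 ≠ 0 := by
    rw [Int.mul_emod]
    have h1 : e % 3 = 1 ∨ e % 3 = 2 := by omega
    have h2 : x % 3 = 1 ∨ x % 3 = 2 := by omega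
    rcases h1 with h1 | h1 <;> rcases h2 with h2 | h2 <;> rw [h1, h2] <;> norm_num
  have hcase : (3 : ℤ) ∣ q ∨ (3 : ℤ) ∣ q + e * x ∨ (3 : ℤ) ∣ q + 2 * (e * x) + 3 * (3 ^ n * e ^ 2 * x) := by
    generalize (3 ^ n * e ^ 2 * x) = w
    generalize e * x = y at *
    have hy1 : y % 3 = 1 ∨ y % 3 = 2 := by omega
    have hq1 : q % 3 = 0 ∨ q % 3 = 1 ∨ q % 3 = 2 := by omega
    rcases hy1 with hy1 | hy1 <;> rcases hq1 with hq1 | hq1 | hq1
    · left; omega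
    · right; right; omega
    · right; left; omega
    · left; omega
    · right; left; omega
    · right; right; omega
  rcases hcase with h1 | h1 | h1
  · obtain ⟨r, hr⟩ := h1
    refine ⟨0, r, ?_⟩
    rw [pow_zero, mul_one, h, hr]; ring
  · obtain ⟨r, hr⟩ := h1
    refine ⟨1, r, ?_⟩
    rw [pow_one]
    have : x * (1 + 3 ^ (n + 1) * e) - u = (x - u) + 3 ^ (n + 1) * (e * x) := by ring
    rw [this, h, ← mul_add, hr]; ring
  · obtain ⟨r, hr⟩ := h1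
    refine ⟨2, r, ?_⟩
    have : x * (1 + 3 ^ (n + 1) * e) ^ 2 - u = (x - u) + 3 ^ (n + 1) * (2 * (e * x) + 3 * (3 ^ n * e ^ 2 * x)) := by ring
    rw [this, h, ← mul_add]
    have h2 : q + (2 * (e * x) + 3 * (3 ^ n * e ^ 2 * x)) = 3 * r := by rw [← hr]; ring
    rw [h2]; ring

theorem twogen_two_pow_mod (k : ℕ) : (2 : ℤ) ^ k % 3 ≠ 0 := by
  induction k with
  | zero => norm_num
  | succ k ih => rw [pow_succ]; omega

theorem twogen_main (n : ℕ) (u : ℤ) (hu : u % 3 ≠ 0) : ∃ k : ℕ, (3 : ℤ) ^ (n + 1) ∣ 2 ^ k - u := by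
  induction n with
  | zero =>
    have h1 : u % 3 = 1 ∨ u % 3 = 2 := by omega
    rcases h1 with h1 | h1
    · exact ⟨0, by norm_num; omega⟩
    · exact ⟨1, by norm_num; omega⟩
  | succ n ih =>
    obtain ⟨k, q, hq⟩ := ih
    obtain ⟨e, he, hA⟩ := twogen_pow n
    obtain ⟨j, hj⟩ := twogen_step n e (2 ^ k) u q he (twogen_two_pow_mod k) hq
    refine ⟨k + 2 * 3 ^ n * j, ?_⟩
    have h5 : (2 : ℤ) ^ (k + 2 * 3 ^ n * j) = 2 ^ k * (1 + 3 ^ (n + 1) * e) ^ j := by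
      rw [pow_add, pow_mul, hA]
    rw [h5]
    exact hj

theorem two_generates (n : ℕ) (u : (ZMod (3 ^ n))ˣ) : ∃ k : ℕ, (u : ZMod (3 ^ n)) = 2 ^ k := by
  rcases n with _ | m
  · refine ⟨0, ?_⟩
    have : Subsingleton (ZMod (3 ^ 0)) := by
      rw [pow_zero]; infer_instance
    exact Subsingleton.elim _ _
  · haveI : NeZero (3 ^ (m + 1)) := ⟨by positivity⟩
    have hcop := ZMod.val_coe_unit_coprime u
    set v := (u : ZMod (3 ^ (m + 1))).val with hv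
    have hv3 : (v : ℤ) % 3 ≠ 0 := by
      intro h0
      have h1 : 3 ∣ v := by omega
      have h2 : Nat.Coprime v 3 := Nat.Coprime.coprime_dvd_right (dvd_pow_self 3 (Nat.succ_ne_zero m)) hcop
      have h3 := Nat.dvd_gcd h1 (dvd_refl 3)
      rw [h2] at h3
      omega
    obtain ⟨k, hk⟩ := twogen_main m (v : ℤ) hv3
    refine ⟨k, ?_⟩
    have h1 : (((2 ^ k - (v : ℤ)) : ℤ) : ZMod (3 ^ (m + 1))) = 0 := by
      rw [ZMod.intCast_zmod_eq_zero_iff_dvd]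
      push_cast
      exact hk
    push_cast at h1
    have h2 : ((v : ℕ) : ZMod (3 ^ (m + 1))) = (u : ZMod (3 ^ (m + 1))) := ZMod.natCast_zmod_val _
    rw [h2] at h1
    exact (sub_eq_zero.mp h1).symm

end Pool.B595.Bih
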