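import Pool.Agent.B595.Bih.Defs
import Pool.Agent.B595.Bih.JTwogen

set_option autoImplicit false


namespace Pool.B595.Bih

open Relation

/-! The following statements are already proved elsewhere: use them freely, do not prove them. -/


/-! TARGET: prove this (auxiliary lemmas allowed before it) -/


/-- semidirect product of the 3-adic integers by the integers acting by powers of a unit -/
@[ext] structure MonoG (R : Type) where
  b : R
  k : ℤ

@[ext] structure MonoQ (R : Type) [Monoid R] where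
  b : R
  v : Rˣ

@[instance_reducible] def monoG_group {R : Type} [CommRing R] (u : Rˣ) : Group (MonoG R) where
  mul x y := ⟨x.b + ((u ^ x.k : Rˣ) : R) * y.b, x.k + y.k⟩
  one := ⟨0, 0⟩
  inv x := ⟨-(((u ^ (-x.k) : Rˣ) : R) * x.b), -x.k⟩
  mul_assoc x y z := by
    show (⟨(x.b + ((u ^ x.k : Rˣ) : R) * y.b) + ((u ^ (x.k + y.k) : Rˣ) : R) * z.b, (x.k + y.k) + z.k⟩ : MonoG R)
      = ⟨x.b + ((u ^ x.k : Rˣ) : R) * (y.b + ((u ^ y.k : Rˣ) : R) * z.b), x.k + (y.k + z.k)⟩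
    rw [zpow_add, Units.val_mul, add_assoc]
    congr 1
    · ring
    · ring
  one_mul x := by
    show (⟨0 + ((u ^ (0:ℤ) : Rˣ) : R) * x.b, 0 + x.k⟩ : MonoG R) = x
    simp
  mul_one x := by
    show (⟨x.b + ((u ^ x.k : Rˣ) : R) * 0, x.k + 0⟩ : MonoG R) = x
    simp
  inv_mul_cancel x := by
    show (⟨-(((u ^ (-x.k) : Rˣ) : R) * x.b) + ((u ^ (-x.k) : Rˣ) : R) * x.b, -x.k + x.k⟩ : MonoG R) = ⟨0, 0⟩
    simp

instance monoQ_group {R : Type} [CommRing R] : Group (MonoQ R) where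
  mul x y := ⟨x.b + (x.v : R) * y.b, x.v * y.v⟩
  one := ⟨0, 1⟩
  inv x := ⟨-(((x.v⁻¹ : Rˣ) : R) * x.b), x.v⁻¹⟩
  mul_assoc x y z := by
    show (⟨(x.b + (x.v : R) * y.b) + ((x.v * y.v : Rˣ) : R) * z.b, (x.v * y.v) * z.v⟩ : MonoQ R)
      = ⟨x.b + (x.v : R) * (y.b + (y.v : R) * z.b), x.v * (y.v * z.v)⟩
    rw [Units.val_mul]
    congr 1
    · ring
    · rw [mul_assoc]
  one_mul x := by
    show (⟨0 + ((1 : Rˣ) : R) * x.b, 1 * x.v⟩ : MonoQ R) = x
    simp
  mul_one x := by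
    show (⟨x.b + (x.v : R) * 0, x.v * 1⟩ : MonoQ R) = x
    simp
  inv_mul_cancel x := by
    show (⟨-(((x.v⁻¹ : Rˣ) : R) * x.b) + ((x.v⁻¹ : Rˣ) : R) * x.b, x.v⁻¹ * x.v⟩ : MonoQ R) = ⟨0, 1⟩
    simp

theorem monoQ_mul {R : Type} [CommRing R] (x y : MonoQ R) : x * y = ⟨x.b + (x.v : R) * y.b, x.v * y.v⟩ := rfl
theorem monoQ_one {R : Type} [CommRing R] : (1 : MonoQ R) = ⟨0, 1⟩ := rfl

theorem mono_two_isUnit : IsUnit (2 : ℤ_[3]) := by
  rw [PadicInt.isUnit_iff]
  have h := (PadicInt.norm_int_lt_one_iff_dvd (p := 3) 2)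
  have h1 : ¬ ‖((2 : ℤ) : ℤ_[3])‖ < 1 := by
    rw [h]; norm_num
  have h2 := PadicInt.norm_le_one ((2 : ℤ) : ℤ_[3])
  have : ‖((2 : ℤ) : ℤ_[3])‖ = 1 := le_antisymm h2 (not_lt.mp h1)
  simpa using this

noncomputable def mono_u : ℤ_[3]ˣ := mono_two_isUnit.unit

theorem mono_u_val : (mono_u : ℤ_[3]) = 2 := rfl

abbrev MonoGp : Type := MonoG ℤ_[3]

noncomputable instance monoGp_group : Group MonoGp := monoG_group mono_u

theorem monoG_mul (x y : MonoGp) : x * y = ⟨x.b + ((mono_u ^ x.k : ℤ_[3]ˣ) : ℤ_[3]) * y.b, x.k + y.k⟩ := rfl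
theorem monoG_one : (1 : MonoGp) = ⟨0, 0⟩ := rfl
theorem monoG_inv (x : MonoGp) : x⁻¹ = ⟨-(((mono_u ^ (-x.k) : ℤ_[3]ˣ) : ℤ_[3]) * x.b), -x.k⟩ := rfl

noncomputable def mono_r (n : ℕ) : MonoGp →* MonoQ (ZMod (3 ^ n)) where
  toFun x := ⟨PadicInt.toZModPow n x.b, (Units.map (PadicInt.toZModPow n).toMonoidHom mono_u) ^ x.k⟩
  map_one' := by
    rw [monoG_one, monoQ_one]
    simp
  map_mul' x y := by
    rw [monoG_mul, monoQ_mul]
    ext1
    · simp only [map_add, map_mul]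
      congr 2
      rw [← map_zpow]
      rfl
    · simp only [zpow_add]

theorem mono_u_zpow_eq_one {k : ℤ} (h : mono_u ^ k = 1) : k = 0 := by
  have key : ∀ m : ℕ, mono_u ^ m = 1 → m = 0 := by
    intro m hm
    have h1 : (mono_u : ℤ_[3]) ^ m = 1 := by
      rw [← Units.val_pow_eq_pow_val, hm, Units.val_one]
    rw [mono_u_val] at h1
    have h2 : ((2 ^ m : ℕ) : ℤ_[3]) = ((1 : ℕ) : ℤ_[3]) := by push_cast; exact h1
    have h3 : 2 ^ m = 1 := Nat.cast_injective h2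
    exact (Nat.pow_eq_one.mp h3).resolve_left (by norm_num)
  rcases Int.natAbs_eq k with hk | hk
  · rw [hk, zpow_natCast] at h
    have := key _ h
    omega
  · rw [hk, zpow_neg, zpow_natCast, inv_eq_one] at h
    have := key _ h
    omega

theorem mono_u_zpow_inj {k l : ℤ} (h : mono_u ^ k = mono_u ^ l) : k = l := by
  have : mono_u ^ (k - l) = 1 := by rw [zpow_sub, h, mul_inv_cancel]
  have := mono_u_zpow_eq_one this
  omega

noncomputable def mono_s (n : ℕ) : MonoQ (ZMod (3 ^ (n + 1))) →* MonoQ (ZMod (3 ^ n)) where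
  toFun x := ⟨ZMod.castHom (pow_dvd_pow 3 (Nat.le_succ n)) (ZMod (3 ^ n)) x.b,
    Units.map (ZMod.castHom (pow_dvd_pow 3 (Nat.le_succ n)) (ZMod (3 ^ n))).toMonoidHom x.v⟩
  map_one' := by
    rw [monoQ_one, monoQ_one]
    simp
  map_mul' x y := by
    rw [monoQ_mul, monoQ_mul]
    ext1
    · simp only [map_add, map_mul]
      rfl
    · simp only [map_mul]

theorem mono_comp (n : ℕ) (γ : MonoGp) : mono_s n (mono_r (n + 1) γ) = mono_r n γ := by
  have h := PadicInt.zmod_cast_comp_toZModPow (p := 3) n (n + 1) (Nat.le_succ n)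
  have h' : ∀ z : ℤ_[3], ZMod.castHom (pow_dvd_pow 3 (Nat.le_succ n)) (ZMod (3 ^ n)) (PadicInt.toZModPow (n+1) z) = PadicInt.toZModPow n z := by
    intro z
    exact RingHom.congr_fun h z
  show (⟨_, _⟩ : MonoQ (ZMod (3 ^ n))) = ⟨_, _⟩
  congr 1
  · exact h' _
  · show (Units.map (ZMod.castHom (pow_dvd_pow 3 (Nat.le_succ n)) (ZMod (3 ^ n))).toMonoidHom)
      ((Units.map (PadicInt.toZModPow (n+1)).toMonoidHom mono_u) ^ γ.k) = _
    rw [map_zpow]
    congr 1
    ext1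
    exact h' _

theorem mono_a_pow (N : ℕ) : (⟨1, 0⟩ : MonoGp) ^ N = ⟨(N : ℤ_[3]), 0⟩ := by
  induction N with
  | zero => simp [monoG_one]
  | succ N ih =>
    rw [pow_succ, ih, monoG_mul]
    simp

theorem mono_b_pow (c : ℤ_[3]) (N : ℕ) : (⟨c, 0⟩ : MonoGp) ^ N = ⟨(N : ℤ_[3]) * c, 0⟩ := by
  induction N with
  | zero => simp [monoG_one]
  | succ N ih =>
    rw [pow_succ, ih, monoG_mul]
    simp
    ring

theorem mono_t_pow (N : ℕ) : (⟨0, 1⟩ : MonoGp) ^ N = ⟨0, N⟩ := by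
  induction N with
  | zero => simp [monoG_one]
  | succ N ih =>
    rw [pow_succ, ih, monoG_mul]
    simp

theorem mono_t_zpow (N : ℤ) : (⟨0, 1⟩ : MonoGp) ^ N = ⟨0, N⟩ := by
  rcases Int.natAbs_eq N with hk | hk
  · rw [hk, zpow_natCast, mono_t_pow]
  · rw [hk, zpow_neg, zpow_natCast, mono_t_pow, monoG_inv]
    simp

theorem mono_conj (x : MonoGp) (c : ℤ_[3]) :
    x * ⟨c, 0⟩ * x⁻¹ = ⟨((mono_u ^ x.k : ℤ_[3]ˣ) : ℤ_[3]) * c, 0⟩ := by
  rw [mul_inv_eq_iff_eq_mul, monoG_mul, monoG_mul]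
  ext1
  · simp
    ring
  · simp

theorem mono_seven (n : ℕ) : IsUnit ((7 : ℕ) : ZMod (3 ^ n)) := by
  rw [ZMod.isUnit_iff_coprime]
  exact Nat.Coprime.pow_right n (by norm_num)

noncomputable def mono_g (n : ℕ) : MonoQ (ZMod (3 ^ n)) := ⟨0, (mono_seven n).unit⟩

theorem mono_g_comp (n : ℕ) : mono_s n (mono_g (n + 1)) = mono_g n := by
  show (⟨_, _⟩ : MonoQ (ZMod (3 ^ n))) = ⟨_, _⟩
  congr 1
  · simp [mono_g]
  · ext1
    show ZMod.castHom (pow_dvd_pow 3 (Nat.le_succ n)) (ZMod (3 ^ n)) ((7 : ℕ) : ZMod (3 ^ (n+1))) = ((7 : ℕ) : ZMod (3 ^ n))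
    rw [map_natCast]

theorem mono_ru_val (n : ℕ) : ((Units.map (PadicInt.toZModPow n).toMonoidHom mono_u : (ZMod (3 ^ n))ˣ) : ZMod (3 ^ n)) = 2 := by
  show PadicInt.toZModPow n (mono_u : ℤ_[3]) = 2
  rw [mono_u_val, map_ofNat]

theorem mono_gt (n : ℕ) : ∃ k : ℕ, mono_r n ((⟨0, 1⟩ : MonoGp) ^ k) = mono_g n := by
  obtain ⟨k, hk⟩ := two_generates n (mono_seven n).unit
  refine ⟨k, ?_⟩
  rw [mono_t_pow]
  show (⟨_, _⟩ : MonoQ (ZMod (3 ^ n))) = ⟨_, _⟩
  congr 1
  · simp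
  · ext1
    rw [hk, zpow_natCast, Units.val_pow_eq_pow_val, mono_ru_val]

theorem mono_gen (n : ℕ) (x : MonoQ (ZMod (3 ^ n))) :
    ∃ γ ∈ Subgroup.closure {(⟨1, 0⟩ : MonoGp), ⟨0, 1⟩}, mono_r n γ = x := by
  obtain ⟨k, hk⟩ := two_generates n x.v
  have : NeZero (3 ^ n) := ⟨by positivity⟩
  refine ⟨(⟨1, 0⟩ : MonoGp) ^ (x.b.val) * (⟨0, 1⟩ : MonoGp) ^ k, ?_, ?_⟩
  · apply Subgroup.mul_mem
    · apply Subgroup.pow_mem
      apply Subgroup.subset_closure
      simp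
    · apply Subgroup.pow_mem
      apply Subgroup.subset_closure
      simp
  · rw [mono_t_pow, mono_a_pow, monoG_mul]
    show (⟨_, _⟩ : MonoQ (ZMod (3 ^ n))) = ⟨_, _⟩
    congr 1
    · simp
    · ext1
      rw [hk]
      simp only [zero_add, zpow_natCast, Units.val_pow_eq_pow_val, mono_ru_val]

theorem mono_fin (C : ℤ) : ∃ n, ∀ (M : MonoGp) (k : ℤ),
    mono_r n ((⟨0, 1⟩ : MonoGp) ^ k) = mono_g n → mono_g n * mono_r n M = 1 → M.k ≠ C + k := by
  -- key : in units, 49 * 2^C ≠ 1 for large n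
  have key : ∃ n : ℕ, (mono_seven n).unit * (mono_seven n).unit *
      (Units.map (PadicInt.toZModPow n).toMonoidHom mono_u) ^ C ≠ 1 := by
    rcases Int.natAbs_eq C with hC | hC
    · -- C ≥ 0
      obtain ⟨n, hn⟩ := pow_unbounded_of_one_lt (49 * 2 ^ C.natAbs) (by norm_num : (1:ℕ) < 3)
      refine ⟨n, ?_⟩
      intro h
      have h1 := congrArg (Units.val) h
      rw [hC, zpow_natCast] at h1
      simp only [Units.val_mul, Units.val_pow_eq_pow_val, mono_ru_val, IsUnit.unit_spec, Units.val_one] at h1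
      have h2 : ((7 * 7 * 2 ^ C.natAbs : ℕ) : ZMod (3 ^ n)) = ((1 : ℕ) : ZMod (3 ^ n)) := by
        push_cast
        push_cast at h1
        norm_num at h1 ⊢
        exact h1
      rw [ZMod.natCast_eq_natCast_iff'] at h2
      have hpos : 1 ≤ 2 ^ C.natAbs := Nat.one_le_two_pow
      rw [Nat.mod_eq_of_lt (by omega), Nat.mod_eq_of_lt (by omega)] at h2
      omega
    · obtain ⟨n, hn⟩ := pow_unbounded_of_one_lt (49 + 2 ^ C.natAbs) (by norm_num : (1:ℕ) < 3)
      refine ⟨n, ?_⟩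
      intro h
      have h0 : (mono_seven n).unit * (mono_seven n).unit =
          (Units.map (PadicInt.toZModPow n).toMonoidHom mono_u) ^ C.natAbs := by
        rw [hC, zpow_neg, mul_inv_eq_one, zpow_natCast] at h
        exact h
      have h1 := congrArg (Units.val) h0
      simp only [Units.val_mul, Units.val_pow_eq_pow_val, mono_ru_val, IsUnit.unit_spec] at h1
      have h2 : ((7 * 7 : ℕ) : ZMod (3 ^ n)) = ((2 ^ C.natAbs : ℕ) : ZMod (3 ^ n)) := by
        push_cast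
        push_cast at h1
        norm_num at h1 ⊢
        exact h1
      rw [ZMod.natCast_eq_natCast_iff'] at h2
      have hpos : 1 ≤ 2 ^ C.natAbs := Nat.one_le_two_pow
      rw [Nat.mod_eq_of_lt (by omega), Nat.mod_eq_of_lt (by omega)] at h2
      rcases Nat.eq_zero_or_pos C.natAbs with h3 | h3
      · rw [h3] at h2; norm_num at h2
      · have : 2 ∣ 2 ^ C.natAbs := dvd_pow_self 2 (by omega)
        omega
  obtain ⟨n, hn⟩ := key
  refine ⟨n, ?_⟩
  intro M k h1 h2 h3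
  apply hn
  rw [mono_t_zpow] at h1
  have h4 : (Units.map (PadicInt.toZModPow n).toMonoidHom mono_u) ^ k = (mono_seven n).unit := by
    exact congrArg MonoQ.v h1
  have h5 : (mono_seven n).unit * (Units.map (PadicInt.toZModPow n).toMonoidHom mono_u) ^ M.k = 1 := by
    exact congrArg MonoQ.v h2
  rw [h3, zpow_add, h4] at h5
  rw [← h5, mul_assoc, mul_comm ((mono_seven n).unit) (_ ^ C)]

theorem mono_sep (γ : MonoGp) (h : ∀ n, mono_r n γ = 1) : γ = 1 := by
  have hb : ∀ n, PadicInt.toZModPow n γ.b = 0 := fun n => congrArg MonoQ.b (h n)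
  have hv : ∀ n, (Units.map (PadicInt.toZModPow n).toMonoidHom mono_u) ^ γ.k = 1 := fun n => congrArg MonoQ.v (h n)
  have h1 : γ.b = 0 := by
    rw [← PadicInt.ext_of_toZModPow]
    intro n
    rw [hb, map_zero]
  have h2 : mono_u ^ γ.k = 1 := by
    ext1
    rw [← PadicInt.ext_of_toZModPow]
    intro n
    have := congrArg Units.val (hv n)
    rw [← map_zpow] at this
    rw [Units.val_one, map_one]
    exact this
  have h3 := mono_u_zpow_eq_one h2
  ext1
  · exact h1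
  · exact h3

theorem mono_finite (R : Type) [Monoid R] [Finite R] : Finite (MonoQ R) := by
  apply Finite.of_injective (fun x : MonoQ R => (x.b, x.v))
  intro x y h
  simp only [Prod.mk.injEq] at h
  exact MonoQ.ext h.1 h.2

theorem mono_exists : Nonempty Mono := by
  refine ⟨{
    Γ := MonoGp
    grp := monoGp_group
    Q := fun n => MonoQ (ZMod (3 ^ n))
    grpQ := fun n => monoQ_group
    finQ := fun n => ?_
    r := mono_r
    s := mono_s
    comp := mono_comp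
    sep := mono_sep
    Q0 := ?_
    a := ⟨1, 0⟩
    t := ⟨0, 1⟩
    e := fun x => x.k
    e_mul := fun x y => rfl
    e_a := rfl
    e_t := rfl
    conj := ?_
    rig := ?_
    a_ker := ?_
    a_inf := ?_
    t_ker := ?_
    gen := mono_gen
    g := mono_g
    g_comp := mono_g_comp
    g_t := mono_gt
    fin := mono_fin }⟩
  · have : NeZero (3 ^ n) := ⟨by positivity⟩
    exact mono_finite _
  · constructor
    intro x y
    have : Subsingleton (ZMod (3 ^ 0)) := by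
      rw [pow_zero]; infer_instance
    ext1
    · exact Subsingleton.elim _ _
    · ext1
      exact Subsingleton.elim _ _
  · intro γ hγ N
    have hk : 0 ≤ γ.k := hγ
    rw [mono_a_pow, mono_conj, mono_a_pow]
    ext1
    · show ((mono_u ^ γ.k : ℤ_[3]ˣ) : ℤ_[3]) * (N : ℤ_[3]) = ((N * 2 ^ (γ.k).toNat : ℕ) : ℤ_[3])
      obtain ⟨m, hm⟩ := Int.eq_ofNat_of_zero_le hk
      rw [hm]
      rw [zpow_natCast, Units.val_pow_eq_pow_val, mono_u_val]
      push_cast
      simp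
      ring
    · rfl
  · intro x y k hx hex hxy
    have hx0 : x = ⟨x.b, 0⟩ := by
      ext1
      · rfl
      · exact hex
    have hxb : x.b ≠ 0 := by
      intro h0
      apply hx
      rw [hx0, h0]
      rfl
    rw [hx0, mono_conj, mono_b_pow] at hxy
    have h1 : ((mono_u ^ y.k : ℤ_[3]ˣ) : ℤ_[3]) * x.b = ((2 ^ k : ℕ) : ℤ_[3]) * x.b := congrArg MonoG.b hxy
    have h2 := mul_right_cancel₀ hxb h1
    have h3 : mono_u ^ y.k = mono_u ^ (k : ℤ) := by
      ext1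
      rw [h2, zpow_natCast, Units.val_pow_eq_pow_val, mono_u_val]
      push_cast
      rfl
    exact mono_u_zpow_inj h3
  · intro n
    rw [mono_a_pow]
    show (⟨_, _⟩ : MonoQ (ZMod (3 ^ n))) = ⟨0, 1⟩
    congr 1
    · show PadicInt.toZModPow n ((3 ^ n : ℕ) : ℤ_[3]) = 0
      rw [map_natCast, ZMod.natCast_self]
    · show (Units.map (PadicInt.toZModPow n).toMonoidHom mono_u) ^ (0 : ℤ) = 1
      rw [zpow_zero]
  · intro N hN h
    rw [mono_a_pow] at h
    have h1 : (N : ℤ_[3]) = 0 := congrArg MonoG.b h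
    have h2 : N = 0 := by exact_mod_cast h1
    omega
  · intro n
    have : NeZero (3 ^ n) := ⟨by positivity⟩
    have hfin : IsOfFinOrder (Units.map (PadicInt.toZModPow n).toMonoidHom mono_u) := isOfFinOrder_of_finite _
    rw [isOfFinOrder_iff_pow_eq_one] at hfin
    obtain ⟨j, hj, hj1⟩ := hfin
    refine ⟨j, hj, ?_⟩
    rw [mono_t_pow]
    show (⟨_, _⟩ : MonoQ (ZMod (3 ^ n))) = ⟨0, 1⟩
    ext1
    · exact map_zero (PadicInt.toZModPow n)
    · show (Units.map (PadicInt.toZModPow n).toMonoidHom mono_u) ^ (j : ℤ) = 1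
      rw [zpow_natCast]
      exact hj1

end Pool.B595.Bih
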