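import Pool.Agent.B595.Bih.Defs
import Pool.Agent.B595.Bih.JMn

set_option autoImplicit false


namespace Pool.B595.Bih

open Relation

/-! The following statements are already proved elsewhere: use them freely, do not prove them. -/


/-! TARGET: prove this (auxiliary lemmas allowed before it) -/

/-- adjacency of the fibre product -/
def mpull_adj {A B C : Type} (GB : Gr B) (GC : Gr C) (f : B → A) (g : C → A)
    (x y : {d : B × C // f d.1 = g d.2}) : Prop :=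
  GB.adj x.1.1 y.1.1 ∧ GC.adj x.1.2 y.1.2

theorem mpull_fib1 {A B C : Type} {GB : Gr B} {GC : Gr C} {f : B → A} {g : C → A}
    (b : B) (c c' : C) (h : f b = g c) (h' : f b = g c') (hC : CIn GC (g ⁻¹' {f b}) c c') :
    ReflTransGen (fun x y : {d : B × C // f d.1 = g d.2} => x.1.1 = b ∧ y.1.1 = b ∧
      mpull_adj GB GC f g x y) ⟨(b, c), h⟩ ⟨(b, c'), h'⟩ := by
  unfold CIn at hC
  induction hC with
  | refl => exact ReflTransGen.refl
  | @tail c1 c2 h1 h2 ih =>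
    have e1 : f b = g c1 := h2.1.symm
    exact (ih e1).tail ⟨rfl, rfl, GB.refl b, h2.2.2⟩

theorem mpull_fib2 {A B C : Type} {GB : Gr B} {GC : Gr C} {f : B → A} {g : C → A}
    (c : C) (b b' : B) (h : f b = g c) (h' : f b' = g c) (hC : CIn GB (f ⁻¹' {g c}) b b') :
    ReflTransGen (fun x y : {d : B × C // f d.1 = g d.2} => x.1.2 = c ∧ y.1.2 = c ∧
      mpull_adj GB GC f g x y) ⟨(b, c), h⟩ ⟨(b', c), h'⟩ := by
  unfold CIn at hC
  induction hC with
  | refl => exact ReflTransGen.refl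
  | @tail b1 b2 h1 h2 ih =>
    have e1 : f b1 = g c := h2.1
    exact (ih e1).tail ⟨rfl, rfl, h2.2.2, GC.refl c⟩

theorem mpull_conn {A B C : Type} {GA : Gr A} {GB : Gr B} {GC : Gr C}
    {f : B → A} {g : C → A} (hf : Mn GB GA f) (hg : Mn GC GA g) (b b' : B)
    (hb : ReflTransGen GB.adj b b') : ∀ (c c' : C) (h : f b = g c) (h' : f b' = g c'),
    ReflTransGen (mpull_adj GB GC f g) ⟨(b, c), h⟩ ⟨(b', c'), h'⟩ := by
  have key : ∀ (b : B) (c c' : C) (h : f b = g c) (h' : f b = g c'),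
      ReflTransGen (mpull_adj GB GC f g) ⟨(b, c), h⟩ ⟨(b, c'), h'⟩ := by
    intro b c c' h h'
    have h1 := hg.con c c' (h.symm.trans h')
    rw [← h] at h1
    exact ReflTransGen.mono (fun _ _ h => h.2.2) _ _ (mpull_fib1 (GB := GB) b c c' h h' h1)
  induction hb with
  | refl => exact fun c c' h h' => key b c c' h h'
  | @tail b1 b2 h1 h2 ih =>
    intro c c' h h'
    obtain ⟨c1, c2, h3, h4, h5⟩ := hg.edge _ _ (hf.hom _ _ h2)
    have s1 := ih c c1 h h4.symm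
    have s2 : mpull_adj GB GC f g ⟨(b1, c1), h4.symm⟩ ⟨(b2, c2), h5.symm⟩ := ⟨h2, h3⟩
    exact (s1.tail s2).trans (key b2 c2 c' h5.symm h')

theorem pullback {A B C : Type} {GA : Gr A} {GB : Gr B} {GC : Gr C}
    {f : B → A} {g : C → A} (hf : Mn GB GA f) (hg : Mn GC GA g) :
    ∃ D : Gr {d : B × C // f d.1 = g d.2},
      Mn D GB (fun d => d.1.1) ∧ Mn D GC (fun d => d.1.2) := by
  refine ⟨⟨mpull_adj GB GC f g, fun x => ⟨GB.refl _, GC.refl _⟩,
    fun x y h => ⟨GB.symm _ _ h.1, GC.symm _ _ h.2⟩, ?_⟩, ⟨?_, ?_, ?_⟩, ⟨?_, ?_, ?_⟩⟩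
  · rintro ⟨⟨b, c⟩, h⟩ ⟨⟨b', c'⟩, h'⟩
    exact mpull_conn hf hg b b' (GB.conn b b') c c' h h'
  · exact fun x y h => h.1
  · intro b b' h
    obtain ⟨c1, c2, h3, h4, h5⟩ := hg.edge _ _ (hf.hom _ _ h)
    exact ⟨⟨(b, c1), h4.symm⟩, ⟨(b', c2), h5.symm⟩, ⟨h, h3⟩, rfl, rfl⟩
  · rintro ⟨⟨b, c⟩, h⟩ ⟨⟨b', c'⟩, h'⟩ hb
    have hb' : b = b' := hb
    subst hb'
    have h1 := hg.con c c' (Eq.trans (Eq.symm h) h')
    have h0 : f b = g c := h
    rw [← h0] at h1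
    exact ReflTransGen.mono (fun _ _ h => h) _ _ (mpull_fib1 (GB := GB) b c c' h h' h1)
  · exact fun x y h => h.2
  · intro c c' h
    obtain ⟨b1, b2, h3, h4, h5⟩ := hf.edge _ _ (hg.hom _ _ h)
    exact ⟨⟨(b1, c), h4⟩, ⟨(b2, c'), h5⟩, ⟨h3, h⟩, rfl, rfl⟩
  · rintro ⟨⟨b, c⟩, h⟩ ⟨⟨b', c'⟩, h'⟩ hc
    have hc' : c = c' := hc
    subst hc'
    have h1 := hf.con b b' (Eq.trans h (Eq.symm h'))
    have h0 : f b = g c := h
    rw [h0] at h1
    exact ReflTransGen.mono (fun _ _ h => h) _ _ (mpull_fib2 (GC := GC) c b b' h h' h1)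

end Pool.B595.Bih
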