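import Pool.Agent.B595.Bih.Defs
import Pool.Agent.B595.Bih.JMn
import Pool.Agent.B595.Bih.JMpull

set_option autoImplicit false


namespace Pool.B595.Bih

open Relation

/-! The following statements are already proved elsewhere: use them freely, do not prove them. -/




/-! TARGET: prove this (auxiliary lemmas allowed before it) -/

theorem mdom_finite_Gr (V : Type) [Finite V] : Finite (Gr V) := by
  have : Finite (V → V → Prop) := inferInstance
  apply Finite.of_injective (fun G : Gr V => G.adj)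
  rintro ⟨a1, _, _, _⟩ ⟨a2, _, _, _⟩ h
  simp only at h
  subst h
  rfl

theorem mdom_finset {V : Type} [Finite V] [Nonempty V] (G : Gr V)
    (s : Finset (Σ j : ℕ, Gr (Fin j) × (Fin j → V))) :
    ∃ (W : Type) (_ : Finite W) (_ : Nonempty W) (K : Gr W) (d : W → V), Mn K G d ∧
      ∀ x ∈ s, Mn x.2.1 G x.2.2 → ∃ g : W → Fin x.1, Mn K x.2.1 g ∧ ∀ w, x.2.2 (g w) = d w := by
  classical
  induction s using Finset.induction_on with
  | empty => exact ⟨V, inferInstance, inferInstance, G, _, Mn.id G, by simp⟩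
  | insert x s _ ih =>
    obtain ⟨W, hW, hWn, K, d, hd, h⟩ := ih
    by_cases hx : Mn x.2.1 G x.2.2
    · obtain ⟨D, h1, h2⟩ := pullback hx hd
      have hn : Nonempty {p : Fin x.1 × W // x.2.2 p.1 = d p.2} := by
        obtain ⟨w⟩ := hWn
        obtain ⟨y, _, _, _, _⟩ := h2.edge w w (K.refl w)
        exact ⟨y⟩
      refine ⟨{p : Fin x.1 × W // x.2.2 p.1 = d p.2}, inferInstance, hn, D, d ∘ fun p => p.1.2,
        hd.comp h2, ?_⟩
      intro y hy hy'
      rw [Finset.mem_insert] at hy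
      rcases hy with rfl | hy
      · exact ⟨fun p => p.1.1, h1, fun p => p.2⟩
      · obtain ⟨g, hg, hgd⟩ := h y hy hy'
        exact ⟨g ∘ fun p => p.1.2, hg.comp h2, fun p => hgd _⟩
    · refine ⟨W, hW, hWn, K, d, hd, ?_⟩
      intro y hy hy'
      rw [Finset.mem_insert] at hy
      rcases hy with rfl | hy
      · exact absurd hy' hx
      · exact h y hy hy'

theorem dom {V : Type} [Finite V] [Nonempty V] (G : Gr V) (k : ℕ) :
    ∃ (W : Type) (_ : Finite W) (_ : Nonempty W) (K : Gr W) (d : W → V), Mn K G d ∧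
      ∀ j ≤ k, ∀ (B : Gr (Fin j)) (f : Fin j → V), Mn B G f →
        ∃ g : W → Fin j, Mn K B g ∧ ∀ x, f (g x) = d x := by
  classical
  have hfin : Finite (Σ j : Fin (k + 1), Gr (Fin j) × (Fin j → V)) := by
    have : ∀ j : Fin (k + 1), Finite (Gr (Fin j) × (Fin j → V)) := fun j => by
      have := mdom_finite_Gr (Fin j)
      infer_instance
    infer_instance
  have hft := Fintype.ofFinite (Σ j : Fin (k + 1), Gr (Fin j) × (Fin j → V))
  let emb : (Σ j : Fin (k + 1), Gr (Fin j) × (Fin j → V)) → (Σ j : ℕ, Gr (Fin j) × (Fin j → V)) :=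
    fun x => ⟨(x.1 : ℕ), x.2⟩
  obtain ⟨W, hW, hWn, K, d, hd, h⟩ := mdom_finset G
    ((Finset.univ : Finset (Σ j : Fin (k + 1), Gr (Fin j) × (Fin j → V))).image emb)
  refine ⟨W, hW, hWn, K, d, hd, fun j hj B f hf => ?_⟩
  exact h ⟨j, B, f⟩ (Finset.mem_image.2 ⟨⟨⟨j, by omega⟩, B, f⟩, Finset.mem_univ _, rfl⟩) hf

end Pool.B595.Bih
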