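import Pool.Agent.B595.Bih.Defs

set_option autoImplicit false


namespace Pool.B595.Bih

open Relation

/-! TARGET: prove this (auxiliary lemmas allowed before it) -/

/-- adjacency of the subdivision -/
def msub_Adj {V : Type} (G : Gr V) (p q : {p : V × V // G.adj p.1 p.2}) : Prop :=
  (p.1.1 = q.1.1 ∧ (p.1.2 = p.1.1 ∨ q.1.2 = q.1.1 ∨ p.1.2 = q.1.2)) ∨
    (q.1.1 = p.1.2 ∧ q.1.2 = p.1.1)

theorem msub_Adj_symm {V : Type} (G : Gr V) {p q : {p : V × V // G.adj p.1 p.2}}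
    (h : msub_Adj G p q) : msub_Adj G q p := by
  rcases h with ⟨h1, h2 | h2 | h2⟩ | ⟨h1, h2⟩
  · exact Or.inl ⟨h1.symm, Or.inr (Or.inl h2)⟩
  · exact Or.inl ⟨h1.symm, Or.inl h2⟩
  · exact Or.inl ⟨h1.symm, Or.inr (Or.inr h2.symm)⟩
  · exact Or.inr ⟨h2.symm, h1.symm⟩

theorem msub_Adj_hom {V : Type} (G : Gr V) {p q : {p : V × V // G.adj p.1 p.2}}
    (h : msub_Adj G p q) : G.adj p.1.1 q.1.1 := by
  rcases h with ⟨h1, -⟩ | ⟨h1, -⟩
  · rw [h1]; exact G.refl _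
  · rw [h1]; exact p.2

theorem msub_Adj_cen {V : Type} (G : Gr V) (p : {p : V × V // G.adj p.1 p.2}) :
    msub_Adj G p ⟨(p.1.1, p.1.1), G.refl _⟩ := Or.inl ⟨rfl, Or.inr (Or.inl rfl)⟩

theorem msub_conn {V : Type} (G : Gr V) {x y : V} (h : ReflTransGen G.adj x y) :
    ReflTransGen (msub_Adj G) ⟨(x, x), G.refl _⟩ ⟨(y, y), G.refl _⟩ := by
  induction h with
  | refl => exact ReflTransGen.refl
  | @tail b c _ hbc ih =>
    refine ih.trans ?_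
    refine ReflTransGen.head (b := ⟨(b, c), hbc⟩) (Or.inl ⟨rfl, Or.inl rfl⟩) ?_
    refine ReflTransGen.head (b := ⟨(c, b), G.symm _ _ hbc⟩) (Or.inr ⟨rfl, rfl⟩) ?_
    exact ReflTransGen.single (Or.inl ⟨rfl, Or.inr (Or.inl rfl)⟩)

/-- the subdivision -/
def msub_K {V : Type} (G : Gr V) : Gr {p : V × V // G.adj p.1 p.2} where
  adj := msub_Adj G
  refl := fun p => Or.inl ⟨rfl, Or.inr (Or.inr rfl)⟩
  symm := fun p q h => msub_Adj_symm G h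
  conn := by
    intro p q
    refine ReflTransGen.head (msub_Adj_cen G p) ?_
    exact (msub_conn G (G.conn p.1.1 q.1.1)).tail (msub_Adj_symm G (msub_Adj_cen G q))

theorem sub {V : Type} (G : Gr V) : ∃ K : Gr {p : V × V // G.adj p.1 p.2},
    Mn K G (fun p => p.1.1) ∧
    (∀ a b c, K.adj a b → K.adj b c → G.adj a.1.1 c.1.1) ∧
    (∀ a b c, K.adj a b → K.adj b c → K.adj a c → a = b ∨ b = c ∨ a = c) := by
  refine ⟨msub_K G, ⟨fun p q h => msub_Adj_hom G h, ?_, ?_⟩, ?_, ?_⟩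
  · intro x y h
    exact ⟨⟨(x, y), h⟩, ⟨(y, x), G.symm _ _ h⟩, Or.inr ⟨rfl, rfl⟩, rfl, rfl⟩
  · intro p q hpq
    have k1 : (msub_K G).adj p ⟨(p.1.1, p.1.1), G.refl _⟩ := msub_Adj_cen G p
    have k2 : (msub_K G).adj ⟨(p.1.1, p.1.1), G.refl _⟩ q := Or.inl ⟨hpq, Or.inl rfl⟩
    have k0 : q.1.1 = p.1.1 := hpq.symm
    refine ReflTransGen.head (b := ⟨(p.1.1, p.1.1), G.refl _⟩) ⟨rfl, rfl, k1⟩ ?_
    exact ReflTransGen.single ⟨rfl, k0, k2⟩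
  · intro a b c hab hbc
    rcases hab with ⟨h1, h2⟩ | ⟨h1, h2⟩
    · rw [h1]
      exact msub_Adj_hom G hbc
    · rcases hbc with ⟨h3, h4⟩ | ⟨h3, h4⟩
      · rw [← h3, h1]; exact a.2
      · rw [h3, h2]; exact G.refl _
  · rintro ⟨⟨a1, a2⟩, ha⟩ ⟨⟨b1, b2⟩, hb⟩ ⟨⟨c1, c2⟩, hc⟩ hab hbc hac
    simp only [msub_K, msub_Adj] at hab hbc hac
    simp only [Subtype.mk.injEq, Prod.mk.injEq]
    clear ha hb hc
    grind

end Pool.B595.Bih
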