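import Pool.Agent.B595.Bih.Defs
import Pool.Agent.B595.Bih.JMtower
import Pool.Agent.B595.Bih.JMono

set_option autoImplicit false


namespace Pool.B595.Bih

open Relation

/-! The following statements are already proved elsewhere: use them freely, do not prove them. -/



/-! TARGET: prove this (auxiliary lemmas allowed before it) -/

/-- two squares with a common vertex -/
def dat_adj (x y : Fin 7) : Bool :=
  decide (x = y ∨ (x, y) ∈ ([(0,1),(1,2),(2,3),(3,0),(0,4),(4,5),(5,6),(6,0)] : List (Fin 7 × Fin 7))
    ∨ (y, x) ∈ ([(0,1),(1,2),(2,3),(3,0),(0,4),(4,5),(5,6),(6,0)] : List (Fin 7 × Fin 7)))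

theorem dat_refl : ∀ x, dat_adj x x = true := by decide

theorem dat_symm : ∀ x y, dat_adj x y = true → dat_adj y x = true := by decide

theorem dat_conn0 (x : Fin 7) : ReflTransGen (fun a b => dat_adj a b = true) 0 x := by
  fin_cases x
  · exact .refl
  · exact .single (by decide)
  · exact (ReflTransGen.single (b := 1) (by decide)).tail (by decide)
  · exact .single (by decide)
  · exact .single (by decide)
  · exact (ReflTransGen.single (b := 4) (by decide)).tail (by decide)
  · exact .single (by decide)

theorem dat_rev {x y : Fin 7} (h : ReflTransGen (fun a b => dat_adj a b = true) x y) :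
    ReflTransGen (fun a b => dat_adj a b = true) y x := by
  induction h with
  | refl => exact .refl
  | tail _ hbc ih => exact ReflTransGen.head (dat_symm _ _ hbc) ih

theorem dat_conn (x y : Fin 7) : ReflTransGen (fun a b => dat_adj a b = true) x y :=
  (dat_rev (dat_conn0 x)).trans (dat_conn0 y)

theorem dat_tri : ∀ x y z, dat_adj x y = true → dat_adj y z = true → dat_adj x z = true →
    x = y ∨ y = z ∨ x = z := by decide

/-- the graph -/
def dat_G : Gr (Fin 7) where
  adj a b := dat_adj a b = true
  refl := dat_refl
  symm := dat_symm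
  conn := dat_conn

/-- the cocycle -/
def dat_c {Γ : Type} [Group Γ] (a t : Γ) (x y : Fin 7) : Γ :=
  if x = 3 ∧ y = 0 then a else if x = 0 ∧ y = 3 then a⁻¹ else
    if x = 6 ∧ y = 0 then t else if x = 0 ∧ y = 6 then t⁻¹ else 1

theorem dat_c1 {Γ : Type} [Group Γ] (a t : Γ) (x : Fin 7) : dat_c a t x x = 1 := by
  fin_cases x <;> simp [dat_c]

theorem dat_c2 {Γ : Type} [Group Γ] (a t : Γ) (x y : Fin 7) :
    dat_c a t x y * dat_c a t y x = 1 := by
  fin_cases x <;> fin_cases y <;> simp [dat_c]

theorem dat_exists : ∃ D : Dat, ∃ v w : D.T.V 0, ¬ (D.T.G 0).adj v w := by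
  obtain ⟨T, e, he⟩ := tower_exists dat_G dat_tri
  obtain ⟨M⟩ := mono_exists
  have hadj : ∀ x y : Fin 7, (T.G 0).adj (e.symm x) (e.symm y) ↔ dat_adj x y = true := by
    intro x y
    rw [he, e.apply_symm_apply, e.apply_symm_apply]
    exact Iff.rfl
  refine ⟨{ T := T
            M := M
            c := fun x y => dat_c M.a M.t (e x) (e y)
            c1 := fun x => dat_c1 _ _ _
            c2 := fun x y => dat_c2 _ _ _ _
            o := e.symm 0
            la := [e.symm 1, e.symm 2, e.symm 3, e.symm 0]
            lt := [e.symm 4, e.symm 5, e.symm 6, e.symm 0]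
            cla := ?_
            clt := ?_
            ela := rfl
            elt := rfl
            pla := ?_
            plt := ?_ }, e.symm 1, e.symm 4, ?_⟩
  · simp only [List.isChain_cons_cons, List.isChain_singleton, and_true, hadj]
    decide
  · simp only [List.isChain_cons_cons, List.isChain_singleton, and_true, hadj]
    decide
  · simp [dat_c]
  · simp [dat_c]
  · show ¬ (T.G 0).adj (e.symm 1) (e.symm 4)
    rw [hadj]
    decide

end Pool.B595.Bih
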