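import Pool.Agent.B595.Bih.Defs

set_option autoImplicit false


namespace Pool.B595.Bih

open Relation

/-! TARGET: prove this (auxiliary lemmas allowed before it) -/

theorem dim_one {V : ℕ → Type} (fin : ∀ n, Finite (V n)) (adj : ∀ n, V n → V n → Prop)
    (refl : ∀ n x, adj n x x) (symm : ∀ n x y, adj n x y → adj n y x)
    (p : ∀ n, V (n + 1) → V n)
    (con : ∀ n x y z, adj (n + 1) x y → adj (n + 1) y z → adj n (p n x) (p n z))
    (tri : ∀ n x y z, adj n x y → adj n y z → adj n x z → x = y ∨ y = z ∨ x = z)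
    {X : Type} [MetricSpace X] [CompactSpace X] (q : Thr p → X) (hq : IsLim adj p q)
    (n : ℕ) (U : Fin n → Set X) (hU : ∀ i, IsOpen (U i)) (hc : (⋃ i, U i) = Set.univ) :
    ∃ (m : ℕ) (W : Fin m → Set X), (∀ j, IsOpen (W j)) ∧ (⋃ j, W j) = Set.univ ∧
      (∀ j, ∃ i, W j ⊆ U i) ∧
      ∀ (x : X) (a b c : Fin m), x ∈ W a → x ∈ W b → x ∈ W c → a = b ∨ a = c ∨ b = c := by
  obtain ⟨δ, hδ, hL⟩ := lebesgue_number_lemma_of_metric (s := (Set.univ : Set X)) (c := U)
    isCompact_univ hU (by rw [hc])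
  obtain ⟨N, hN⟩ := hq.small (δ / 3) (by linarith)
  obtain ⟨ε, hε, hnear⟩ := hq.near N
  have hfin := fin N
  let S := {v : V N // ∃ x : Thr p, x.1 N = v}
  have hS : Finite S := Subtype.finite
  let e : S ≃ Fin (Nat.card S) := Finite.equivFin S
  let η : ℝ := min (ε / 2) (δ / 3)
  have hη : 0 < η := lt_min (by linarith) (by linarith)
  let W : S → Set X := fun v => {y | ∃ x : Thr p, x.1 N = v.1 ∧ dist y (q x) < η}
  refine ⟨Nat.card S, fun j => W (e.symm j), ?_, ?_, ?_, ?_⟩
  · intro j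
    have : W (e.symm j) = ⋃ x : {x : Thr p // x.1 N = (e.symm j).1}, Metric.ball (q x.1) η := by
      ext y
      simp only [Set.mem_iUnion, Metric.mem_ball, W]
      constructor
      · rintro ⟨x, hx, hd⟩
        exact ⟨⟨x, hx⟩, hd⟩
      · rintro ⟨⟨x, hx⟩, hd⟩
        exact ⟨x, hx, hd⟩
    show IsOpen (W (e.symm j))
    rw [this]
    exact isOpen_iUnion fun _ => Metric.isOpen_ball
  · refine Set.eq_univ_of_forall fun y => ?_
    obtain ⟨x, rfl⟩ := hq.surj y
    refine Set.mem_iUnion.2 ⟨e ⟨x.1 N, x, rfl⟩, ?_⟩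
    refine ⟨x, ?_, ?_⟩
    · simp
    · rw [dist_self]; exact hη
  · intro j
    obtain ⟨x0, hx0⟩ := (e.symm j).2
    obtain ⟨i, hi⟩ := hL (q x0) (Set.mem_univ _)
    refine ⟨i, ?_⟩
    rintro y ⟨x, hx, hd⟩
    apply hi
    rw [Metric.mem_ball]
    have h1 : dist (q x) (q x0) < δ / 3 := by
      apply hN
      rw [hx, hx0]
      exact refl N _
    have h2 : dist y (q x) < δ / 3 := lt_of_lt_of_le hd (min_le_right _ _)
    have h3 := dist_triangle y (q x) (q x0)
    linarith
  · rintro y a b c ⟨xa, ha, hda⟩ ⟨xb, hb, hdb⟩ ⟨xc, hcc, hdc⟩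
    have hda' : dist y (q xa) < ε / 2 := lt_of_lt_of_le hda (min_le_left _ _)
    have hdb' : dist y (q xb) < ε / 2 := lt_of_lt_of_le hdb (min_le_left _ _)
    have hdc' : dist y (q xc) < ε / 2 := lt_of_lt_of_le hdc (min_le_left _ _)
    have hab : adj N (xa.1 N) (xb.1 N) := by
      apply hnear
      have := dist_triangle_left (q xa) (q xb) y
      linarith
    have hbc : adj N (xb.1 N) (xc.1 N) := by
      apply hnear
      have := dist_triangle_left (q xb) (q xc) y
      linarith
    have hac : adj N (xa.1 N) (xc.1 N) := by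
      apply hnear
      have := dist_triangle_left (q xa) (q xc) y
      linarith
    have inj : ∀ i j : Fin (Nat.card S), (e.symm i).1 = (e.symm j).1 → i = j := by
      intro i j hij
      exact e.symm.injective (Subtype.ext hij)
    rcases tri N _ _ _ hab hbc hac with h | h | h
    · left; apply inj; rw [← ha, ← hb]; exact h
    · right; right; apply inj; rw [← hb, ← hcc]; exact h
    · right; left; apply inj; rw [← ha, ← hcc]; exact h

end Pool.B595.Bih
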