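import Pool.Agent.B595.Bih.Defs
import Pool.Agent.B595.Bih.JLimit

set_option autoImplicit false


namespace Pool.B595.Bih

open Relation

/-! The following statements are already proved elsewhere: use them freely, do not prove them. -/


/-! TARGET: prove this (auxiliary lemmas allowed before it) -/

theorem deck_lift {V : ℕ → Type} {adj : ∀ n, V n → V n → Prop} {p : ∀ n, V (n + 1) → V n}
    {X : Type} [MetricSpace X] {q : Thr p → X} (hq : IsLim adj p q) (L : Thr p → Thr p)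
    (hL : ∀ n (x y : Thr p), adj n (x.1 n) (y.1 n) → adj n ((L x).1 n) ((L y).1 n)) :
    ∃ F : X → X, Continuous F ∧ ∀ z, F (q z) = q (L z) := by
  have h0 : ∀ x y : Thr p, q x = q y → q (L x) = q (L y) := by
    intro x y hxy
    apply dist_le_zero.mp
    apply le_of_forall_pos_le_add
    intro ε hε
    obtain ⟨n, hn⟩ := hq.small ε hε
    obtain ⟨δ, hδ, hnear⟩ := hq.near n
    have h1 : dist (q x) (q y) < δ := by
      rw [hxy, dist_self]
      exact hδ
    have h2 := hn _ _ (hL n x y (hnear x y h1))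
    linarith
  choose r hr using hq.surj
  have h1 : ∀ z, q (L (r (q z))) = q (L z) := fun z => h0 _ _ (hr (q z))
  refine ⟨fun x => q (L (r x)), ?_, h1⟩
  rw [Metric.continuous_iff]
  intro x ε hε
  obtain ⟨n, hn⟩ := hq.small ε hε
  obtain ⟨δ, hδ, hnear⟩ := hq.near n
  refine ⟨δ, hδ, fun y hy => ?_⟩
  apply hn
  apply hL
  apply hnear
  rw [hr, hr]
  exact hy

/-- left translation of threads -/
def deck_L (D : Dat) (d : ∀ n, D.M.Q n) (hd : ∀ n, D.M.s n (d (n + 1)) = d n) (z : D.Th) : D.Th :=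
  ⟨fun n => ((z.1 n).1, d n * (z.1 n).2), fun n => by
    have h := congrArg Prod.snd (z.2 n)
    have h1 : D.M.s n (z.1 (n + 1)).2 = (z.1 n).2 := h
    have h' := congrArg Prod.fst (z.2 n)
    refine Prod.ext h' ?_
    show D.M.s n (d (n + 1) * (z.1 (n + 1)).2) = d n * (z.1 n).2
    rw [map_mul, hd, h1]⟩

theorem deck_adj (D : Dat) (d : ∀ n, D.M.Q n) (hd : ∀ n, D.M.s n (d (n + 1)) = d n)
    (n : ℕ) (x y : D.Th) (h : D.adjX n (x.1 n) (y.1 n)) :
    D.adjX n ((deck_L D d hd x).1 n) ((deck_L D d hd y).1 n) := by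
  refine ⟨h.1, ?_⟩
  show d n * (y.1 n).2 = d n * (x.1 n).2 * _
  rw [mul_assoc, h.2]
  rfl

theorem deck_ext {D : Dat} {x y : D.Th} (h1 : ∀ n, (x.1 n).1 = (y.1 n).1)
    (h2 : ∀ n, (x.1 n).2 = (y.1 n).2) : x = y :=
  Subtype.ext (funext fun n => Prod.ext (h1 n) (h2 n))

theorem deck (D : Dat) {X : Type} [MetricSpace X] [CompactSpace X] (q : D.Th → X)
    (hq : IsLim D.adjX D.pX q) (d : ∀ n, D.M.Q n) (hd : ∀ n, D.M.s n (d (n + 1)) = d n)
    (z w : D.Th) (h1 : ∀ n, (w.1 n).1 = (z.1 n).1) (h2 : ∀ n, (w.1 n).2 = d n * (z.1 n).2) :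
    ∃ h : X ≃ₜ X, h (q z) = q w := by
  have hd' : ∀ n, D.M.s n ((d (n + 1))⁻¹) = (d n)⁻¹ := by
    intro n
    rw [map_inv, hd]
  obtain ⟨F, hF, hFq⟩ := deck_lift hq (deck_L D d hd) (deck_adj D d hd)
  obtain ⟨F', hF', hFq'⟩ := deck_lift hq (deck_L D (fun n => (d n)⁻¹) hd')
    (deck_adj D (fun n => (d n)⁻¹) hd')
  have e1 : ∀ x, deck_L D (fun n => (d n)⁻¹) hd' (deck_L D d hd x) = x := fun x =>
    deck_ext (fun n => rfl) (fun n => inv_mul_cancel_left (d n) (x.1 n).2)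
  have e2 : ∀ x, deck_L D d hd (deck_L D (fun n => (d n)⁻¹) hd' x) = x := fun x =>
    deck_ext (fun n => rfl) (fun n => mul_inv_cancel_left (d n) (x.1 n).2)
  refine ⟨⟨⟨F, F', ?_, ?_⟩, hF, hF'⟩, ?_⟩
  · intro x
    obtain ⟨y, rfl⟩ := hq.surj x
    rw [hFq, hFq', e1]
  · intro x
    obtain ⟨y, rfl⟩ := hq.surj x
    rw [hFq', hFq, e2]
  · show F (q z) = q w
    rw [hFq]
    congr 1
    exact deck_ext (fun n => (h1 n).symm) (fun n => (h2 n).symm)

end Pool.B595.Bih
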