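import Pool.Agent.B595.Bih.Defs
import Pool.Agent.B595.Bih.JMn

set_option autoImplicit false


namespace Pool.B595.Bih

open Relation

/-! The following statements are already proved elsewhere: use them freely, do not prove them. -/


/-! TARGET: prove this (auxiliary lemmas allowed before it) -/

/-- type 1 -/
def mmove_T1 {V : Type} (b0 b1 z : V) (i0 : Bool) (x y : V) (i : Bool) : Prop :=
  x = b0 ∧ i = i0 ∧ (y = b1 ∨ y = b0 ∨ y = z)

/-- type 2 -/
def mmove_T2 {V : Type} (b0 b1 z : V) (x y : V) : Prop :=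
  z ≠ b0 ∧ z ≠ b1 ∧ x = z ∧ y = b0

open Classical in
/-- modified projection -/
noncomputable def mmove_val {V : Type} (b0 b1 z : V) (i0 : Bool) (x y : V) (i : Bool) : V :=
  if mmove_T1 b0 b1 z i0 x y i then b1 else if mmove_T2 b0 b1 z x y then b0 else x

section MMove

variable {V : Type} {b0 b1 z : V} {i0 : Bool} {x y : V} {i j : Bool}

theorem mmove_v1 (h : mmove_T1 b0 b1 z i0 x y i) : mmove_val b0 b1 z i0 x y i = b1 := by
  unfold mmove_val
  rw [if_pos h]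

theorem mmove_12 (h : mmove_T2 b0 b1 z x y) : ¬ mmove_T1 b0 b1 z i0 x y i := by
  rintro ⟨h1, -, -⟩
  exact h.1 (h.2.2.1.symm.trans h1)

theorem mmove_v2 (h : mmove_T2 b0 b1 z x y) : mmove_val b0 b1 z i0 x y i = b0 := by
  unfold mmove_val
  rw [if_neg (mmove_12 h), if_pos h]

theorem mmove_v3 (h1 : ¬ mmove_T1 b0 b1 z i0 x y i) (h2 : ¬ mmove_T2 b0 b1 z x y) :
    mmove_val b0 b1 z i0 x y i = x := by
  unfold mmove_val
  rw [if_neg h1, if_neg h2]

/-- value over `b0` -/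
theorem mmove_vb0 : mmove_val b0 b1 z i0 b0 y i = b1 ∨ mmove_val b0 b1 z i0 b0 y i = b0 := by
  by_cases h1 : mmove_T1 b0 b1 z i0 b0 y i
  · exact Or.inl (mmove_v1 h1)
  · by_cases h2 : mmove_T2 b0 b1 z b0 y
    · exact Or.inr (mmove_v2 h2)
    · exact Or.inr (mmove_v3 h1 h2)

/-- value over other points -/
theorem mmove_vx (hx : x ≠ b0) : mmove_val b0 b1 z i0 x y i = x ∨
    (mmove_T2 b0 b1 z x y ∧ mmove_val b0 b1 z i0 x y i = b0) := by
  have h1 : ¬ mmove_T1 b0 b1 z i0 x y i := fun h => hx h.1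
  by_cases h2 : mmove_T2 b0 b1 z x y
  · exact Or.inr ⟨h2, mmove_v2 h2⟩
  · exact Or.inl (mmove_v3 h1 h2)

theorem mmove_centre : mmove_val b0 b1 z i0 x x (!i0) = x := by
  refine mmove_v3 ?_ ?_
  · rintro ⟨-, h, -⟩
    cases i0 <;> simp at h
  · rintro ⟨h1, -, h2, h3⟩
    exact h1 (h2.symm.trans h3)

theorem mmove_A (G : Gr V) (hb : G.adj b0 b1) (hz : G.adj b0 z) (y' : V) :
    G.adj (mmove_val b0 b1 z i0 x y i) (mmove_val b0 b1 z i0 x y' j) ∧
    (mmove_val b0 b1 z i0 x y i = mmove_val b0 b1 z i0 x y' j ∨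
      mmove_val b0 b1 z i0 x y i = x ∨ mmove_val b0 b1 z i0 x y' j = x) := by
  by_cases hx : x = b0
  · subst hx
    rcases mmove_vb0 (b0 := x) (b1 := b1) (z := z) (i0 := i0) (y := y) (i := i) with h1 | h1 <;>
    rcases mmove_vb0 (b0 := x) (b1 := b1) (z := z) (i0 := i0) (y := y') (i := j) with h2 | h2 <;>
    rw [h1, h2]
    · exact ⟨G.refl _, Or.inl rfl⟩
    · exact ⟨G.symm _ _ hb, Or.inr (Or.inr rfl)⟩
    · exact ⟨hb, Or.inr (Or.inl rfl)⟩
    · exact ⟨G.refl _, Or.inl rfl⟩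
  · rcases mmove_vx (b1 := b1) (z := z) (i0 := i0) (y := y) (i := i) hx with h1 | ⟨hT, h1⟩ <;>
    rcases mmove_vx (b1 := b1) (z := z) (i0 := i0) (y := y') (i := j) hx with h2 | ⟨hT', h2⟩ <;>
    rw [h1, h2]
    · exact ⟨G.refl _, Or.inl rfl⟩
    · refine ⟨?_, Or.inr (Or.inl rfl)⟩
      rw [hT'.2.2.1]; exact G.symm _ _ hz
    · refine ⟨?_, Or.inr (Or.inr rfl)⟩
      rw [hT.2.2.1]; exact hz
    · exact ⟨G.refl _, Or.inl rfl⟩

theorem mmove_B (G : Gr V) (hb : G.adj b0 b1) (hne : b1 ≠ b0) (hxy : G.adj x y) :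
    G.adj (mmove_val b0 b1 z i0 x y i) (mmove_val b0 b1 z i0 y x j) ∧
    ∀ (Γ : Type) (_ : Group Γ) (κ : V → V → Γ), (∀ x, κ x x = 1) →
      (∀ x y, κ x y * κ y x = 1) →
      κ x y * κ y (mmove_val b0 b1 z i0 y x j) =
        κ x (mmove_val b0 b1 z i0 x y i) *
          κ (mmove_val b0 b1 z i0 x y i) (mmove_val b0 b1 z i0 y x j) := by
  by_cases hx : x = b0
  · subst hx
    by_cases h1 : mmove_T1 x b1 z i0 x y i
    · have e1 := mmove_v1 h1
      rw [e1]
      by_cases hy0 : y = x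
      · subst hy0
        rcases mmove_vb0 (b0 := y) (b1 := b1) (z := z) (i0 := i0) (y := y) (i := j) with h2 | h2
        · rw [h2]
          refine ⟨G.refl _, fun Γ _ κ k1 k2 => ?_⟩
          rw [k1, k1, one_mul, mul_one]
        · rw [h2]
          refine ⟨G.symm _ _ hb, fun Γ _ κ k1 k2 => ?_⟩
          rw [k1, k2, one_mul]
      · by_cases hy1 : y = b1
        · subst hy1
          have e2 : mmove_val x y z i0 y x j = y := by
            refine mmove_v3 (fun h => hy0 h.1) ?_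
            rintro ⟨-, h3, h4, -⟩
            exact h3 h4.symm
          rw [e2]
          exact ⟨G.refl _, fun Γ _ κ k1 k2 => rfl⟩
        · have hyz : y = z := by
            rcases h1.2.2 with h | h | h
            · exact absurd h hy1
            · exact absurd h hy0
            · exact h
          have hT2 : mmove_T2 x b1 z y x := ⟨fun h => hy0 (hyz.trans h), fun h => hy1 (hyz.trans h),
            hyz, rfl⟩
          rw [mmove_v2 hT2]
          refine ⟨G.symm _ _ hb, fun Γ _ κ k1 k2 => ?_⟩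
          rw [k2, k2]
    · have e1 : mmove_val x b1 z i0 x y i = x := by
        rcases mmove_vb0 (b0 := x) (b1 := b1) (z := z) (i0 := i0) (y := y) (i := i) with h2 | h2
        · exfalso
          have hT2 : ¬ mmove_T2 x b1 z x y := fun h => h.1 h.2.2.1.symm
          have h3 := mmove_v3 h1 hT2
          exact hne (h2.symm.trans h3)
        · exact h2
      rw [e1]
      by_cases hy0 : y = x
      · subst hy0
        rcases mmove_vb0 (b0 := y) (b1 := b1) (z := z) (i0 := i0) (y := y) (i := j) with h2 | h2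
        · rw [h2]
          exact ⟨hb, fun Γ _ κ k1 k2 => rfl⟩
        · rw [h2]
          exact ⟨G.refl _, fun Γ _ κ k1 k2 => rfl⟩
      · rcases mmove_vx (b1 := b1) (z := z) (i0 := i0) (y := x) (i := j) hy0 with h2 | ⟨hT, h2⟩
        · rw [h2]
          refine ⟨hxy, fun Γ _ κ k1 k2 => ?_⟩
          rw [k1, k1, one_mul, mul_one]
        · rw [h2]
          refine ⟨G.refl _, fun Γ _ κ k1 k2 => ?_⟩
          rw [k1, k2, one_mul]
  · rcases mmove_vx (b1 := b1) (z := z) (i0 := i0) (y := y) (i := i) hx with h1 | ⟨hT, h1⟩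
    · rw [h1]
      by_cases hy0 : y = b0
      · subst hy0
        by_cases h2 : mmove_T1 y b1 z i0 y x j
        · rw [mmove_v1 h2]
          by_cases hx1 : x = b1
          · subst hx1
            refine ⟨G.refl _, fun Γ _ κ k1 k2 => ?_⟩
            rw [k1, k2, one_mul]
          · exfalso
            have hxz : x = z := by
              rcases h2.2.2 with h | h | h
              · exact absurd h hx1
              · exact absurd h hx
              · exact h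
            have hT2 : mmove_T2 y b1 z x y := ⟨fun h => hx (hxz.trans h),
              fun h => hx1 (hxz.trans h), hxz, rfl⟩
            exact hx (h1.symm.trans (mmove_v2 hT2))
        · have e2 : mmove_val y b1 z i0 y x j = y :=
            mmove_v3 h2 (fun h => h.1 h.2.2.1.symm)
          rw [e2]
          refine ⟨hxy, fun Γ _ κ k1 k2 => ?_⟩
          rw [k1, k1, one_mul, mul_one]
      · rcases mmove_vx (b1 := b1) (z := z) (i0 := i0) (y := x) (i := j) hy0 with h2 | ⟨hT, h2⟩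
        · rw [h2]
          refine ⟨hxy, fun Γ _ κ k1 k2 => ?_⟩
          rw [k1, k1, one_mul, mul_one]
        · exact absurd hT.2.2.2 hx
    · rw [h1]
      have hy0 : y = b0 := hT.2.2.2
      subst hy0
      rcases mmove_vb0 (b0 := y) (b1 := b1) (z := z) (i0 := i0) (y := x) (i := j) with h2 | h2
      · rw [h2]
        exact ⟨hb, fun Γ _ κ k1 k2 => rfl⟩
      · rw [h2]
        exact ⟨G.refl _, fun Γ _ κ k1 k2 => rfl⟩

end MMove

/-- vertices of the covering graph -/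
abbrev mmove_W {V : Type} (G : Gr V) : Type := {w : V × V × Bool // G.adj w.1 w.2.1}

/-- adjacency of the covering graph -/
def mmove_S {V : Type} (p q : V × V × Bool) : Prop :=
  (p.1 = q.1 ∧ (p.2.1 = p.1 ∨ q.2.1 = q.1 ∨ p.2.1 = q.2.1)) ∨ (q.1 = p.2.1 ∧ q.2.1 = p.1)

theorem mmove_S_symm {V : Type} {p q : V × V × Bool} (h : mmove_S p q) : mmove_S q p := by
  rcases h with ⟨h1, h2⟩ | ⟨h1, h2⟩
  · refine Or.inl ⟨h1.symm, ?_⟩
    rcases h2 with h2 | h2 | h2
    · exact Or.inr (Or.inl h2)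
    · exact Or.inl h2
    · exact Or.inr (Or.inr h2.symm)
  · exact Or.inr ⟨h2.symm, h1.symm⟩

/-- covering graph -/
def mmove_K {V : Type} (G : Gr V) : Gr (mmove_W G) where
  adj p q := mmove_S p.1 q.1
  refl p := Or.inl ⟨rfl, Or.inr (Or.inr rfl)⟩
  symm p q h := mmove_S_symm h
  conn := by
    have key : ∀ x y, ReflTransGen G.adj x y → ∀ i,
        ReflTransGen (fun p q : mmove_W G => mmove_S p.1 q.1) ⟨(x, x, i), G.refl x⟩
          ⟨(y, y, i), G.refl y⟩ := by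
      intro x y h i
      induction h with
      | refl => exact ReflTransGen.refl
      | @tail b c hab hbc ih =>
        refine ih.trans ?_
        refine ReflTransGen.head (b := (⟨(b, c, i), hbc⟩ : mmove_W G)) ?_ ?_
        · exact Or.inl ⟨rfl, Or.inl rfl⟩
        refine ReflTransGen.head (b := (⟨(c, b, i), G.symm _ _ hbc⟩ : mmove_W G)) ?_ ?_
        · exact Or.inr ⟨rfl, rfl⟩
        refine ReflTransGen.single ?_
        exact Or.inl ⟨rfl, Or.inr (Or.inl rfl)⟩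
    rintro ⟨⟨x, y, i⟩, hx⟩ ⟨⟨x', y', j⟩, hx'⟩
    refine ReflTransGen.head (b := (⟨(x, x, i), G.refl x⟩ : mmove_W G)) ?_ ?_
    · exact Or.inl ⟨rfl, Or.inr (Or.inl rfl)⟩
    refine (key x x' (G.conn x x') i).trans ?_
    refine ReflTransGen.single ?_
    exact Or.inl ⟨rfl, Or.inl rfl⟩

theorem mmove_CIn_symm {V : Type} (G : Gr V) (S : Set V) {x y : V} (h : CIn G S x y) :
    CIn G S y x := by
  unfold CIn at *
  induction h with
  | refl => exact ReflTransGen.refl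
  | @tail b c hab hbc ih =>
    exact ReflTransGen.head ⟨hbc.2.1, hbc.1, G.symm _ _ hbc.2.2⟩ ih

theorem mmove_u_mn {V : Type} (G : Gr V) : Mn (mmove_K G) G (fun w => w.1.1) := by
  refine ⟨?_, ?_, ?_⟩
  · rintro ⟨⟨x, y, i⟩, hx⟩ ⟨⟨x', y', j⟩, hx'⟩ h
    rcases h with ⟨h1, h2⟩ | ⟨h1, h2⟩
    · show G.adj x x'
      have h3 : x = x' := h1
      rw [h3]
      exact G.refl _
    · show G.adj x x'
      have h3 : x' = y := h1
      rw [h3]
      exact hx
  · intro x y hxy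
    exact ⟨⟨(x, y, false), hxy⟩, ⟨(y, x, false), G.symm _ _ hxy⟩, Or.inr ⟨rfl, rfl⟩, rfl, rfl⟩
  · rintro ⟨⟨x, y, i⟩, hx⟩ ⟨⟨x', y', j⟩, hx'⟩ h
    have h0 : x = x' := h
    subst h0
    refine ReflTransGen.head (b := (⟨(x, x, i), G.refl x⟩ : mmove_W G)) ⟨rfl, rfl, ?_⟩ ?_
    · exact Or.inl ⟨rfl, Or.inr (Or.inl rfl)⟩
    refine ReflTransGen.single ⟨rfl, rfl, ?_⟩
    exact Or.inl ⟨rfl, Or.inl rfl⟩

/-- modified projection on the covering graph -/
noncomputable def mmove_f {V : Type} (G : Gr V) (b0 b1 z : V) (i0 : Bool) (w : mmove_W G) : V :=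
  mmove_val b0 b1 z i0 w.1.1 w.1.2.1 w.1.2.2

theorem mmove_pair {V : Type} (G : Gr V) (b0 b1 z : V) (i0 : Bool) (hb : G.adj b0 b1)
    (hz : G.adj b0 z) (hne : b1 ≠ b0) (s t : mmove_W G) (hst : (mmove_K G).adj s t) :
    G.adj (mmove_f G b0 b1 z i0 s) (mmove_f G b0 b1 z i0 t) ∧
    ∀ (Γ : Type) (_ : Group Γ) (κ : V → V → Γ), (∀ x, κ x x = 1) →
      (∀ x y, κ x y * κ y x = 1) →
      κ s.1.1 t.1.1 * κ t.1.1 (mmove_f G b0 b1 z i0 t) =
        κ s.1.1 (mmove_f G b0 b1 z i0 s) *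
          κ (mmove_f G b0 b1 z i0 s) (mmove_f G b0 b1 z i0 t) := by
  obtain ⟨⟨x, y, i⟩, hx⟩ := s
  obtain ⟨⟨x', y', j⟩, hx'⟩ := t
  rcases hst with ⟨h1, h2⟩ | ⟨h1, h2⟩
  · have h3 : x = x' := h1
    subst h3
    obtain ⟨k1, k2⟩ := mmove_A (b0 := b0) (b1 := b1) (z := z) (i0 := i0) (x := x) (y := y)
      (i := i) (j := j) G hb hz y'
    refine ⟨k1, fun Γ _ κ c1 c2 => ?_⟩
    show κ x x * κ x (mmove_val b0 b1 z i0 x y' j) = κ x (mmove_val b0 b1 z i0 x y i) *
      κ (mmove_val b0 b1 z i0 x y i) (mmove_val b0 b1 z i0 x y' j)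
    rcases k2 with k2 | k2 | k2
    · rw [k2, c1, c1, one_mul, mul_one]
    · rw [k2, c1]
    · rw [k2, c1, c2, one_mul]
  · have h3 : x' = y := h1
    have h4 : y' = x := h2
    subst h3
    subst h4
    exact mmove_B G hb hne hx

theorem mmove_to_centre {V : Type} (G : Gr V) (b0 b1 z : V) (i0 : Bool) (hb : G.adj b0 b1)
    (hne : b1 ≠ b0) (w : mmove_W G) :
    CIn (mmove_K G) (mmove_f G b0 b1 z i0 ⁻¹' {mmove_f G b0 b1 z i0 w}) w
      ⟨(mmove_f G b0 b1 z i0 w, mmove_f G b0 b1 z i0 w, !i0), G.refl _⟩ := by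
  have hcen : ∀ v : V, mmove_f G b0 b1 z i0 ⟨(v, v, !i0), G.refl _⟩ = v := fun v => mmove_centre
  obtain ⟨⟨x, y, i⟩, hx⟩ := w
  by_cases h1 : mmove_T1 b0 b1 z i0 x y i
  · have e : mmove_f G b0 b1 z i0 ⟨(x, y, i), hx⟩ = b1 := mmove_v1 h1
    rw [e]
    have hx0 : x = b0 := h1.1
    subst hx0
    have hi : i = i0 := h1.2.1
    subst hi
    have m1 : mmove_f G x b1 z i ⟨(x, x, i), G.refl _⟩ = b1 :=
      mmove_v1 ⟨rfl, rfl, Or.inr (Or.inl rfl)⟩
    have m2 : mmove_f G x b1 z i ⟨(x, b1, i), hb⟩ = b1 :=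
      mmove_v1 ⟨rfl, rfl, Or.inl rfl⟩
    have m3 : mmove_f G x b1 z i ⟨(b1, x, !i), G.symm _ _ hb⟩ = b1 :=
      mmove_v3 (fun h => hne h.1) (fun h => h.2.1 h.2.2.1.symm)
    refine ReflTransGen.head (b := (⟨(x, x, i), G.refl x⟩ : mmove_W G)) ⟨e, m1, ?_⟩ ?_
    · exact Or.inl ⟨rfl, Or.inr (Or.inl rfl)⟩
    refine ReflTransGen.head (b := (⟨(x, b1, i), hb⟩ : mmove_W G)) ⟨m1, m2, ?_⟩ ?_
    · exact Or.inl ⟨rfl, Or.inl rfl⟩
    refine ReflTransGen.head (b := (⟨(b1, x, !i), G.symm _ _ hb⟩ : mmove_W G)) ⟨m2, m3, ?_⟩ ?_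
    · exact Or.inr ⟨rfl, rfl⟩
    refine ReflTransGen.single ⟨m3, hcen b1, ?_⟩
    exact Or.inl ⟨rfl, Or.inr (Or.inl rfl)⟩
  · by_cases h2 : mmove_T2 b0 b1 z x y
    · have e : mmove_f G b0 b1 z i0 ⟨(x, y, i), hx⟩ = b0 := mmove_v2 h2
      rw [e]
      obtain ⟨g1, g2, g3, g4⟩ := h2
      subst g4
      have m1 : mmove_f G y b1 z i0 ⟨(y, x, !i0), G.symm _ _ hx⟩ = y := by
        refine mmove_v3 ?_ ?_
        · rintro ⟨-, h, -⟩
          have h' : (!i0) = i0 := h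
          cases i0 <;> simp at h'
        · rintro ⟨h, -, h', -⟩
          exact h h'.symm
      refine ReflTransGen.head (b := (⟨(y, x, !i0), G.symm _ _ hx⟩ : mmove_W G)) ⟨e, m1, ?_⟩ ?_
      · exact Or.inr ⟨rfl, rfl⟩
      refine ReflTransGen.single ⟨m1, hcen y, ?_⟩
      exact Or.inl ⟨rfl, Or.inr (Or.inl rfl)⟩
    · have e : mmove_f G b0 b1 z i0 ⟨(x, y, i), hx⟩ = x := mmove_v3 h1 h2
      rw [e]
      refine ReflTransGen.single ⟨e, hcen x, ?_⟩
      exact Or.inl ⟨rfl, Or.inr (Or.inl rfl)⟩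

theorem mmove_f_mn {V : Type} (G : Gr V) (b0 b1 z : V) (i0 : Bool) (hb : G.adj b0 b1)
    (hz : G.adj b0 z) (hne : b1 ≠ b0) : Mn (mmove_K G) G (mmove_f G b0 b1 z i0) := by
  have hcen : ∀ v : V, mmove_f G b0 b1 z i0 ⟨(v, v, !i0), G.refl _⟩ = v := fun v => mmove_centre
  have hT1 : ∀ x y, ¬ mmove_T1 b0 b1 z i0 x y (!i0) := by
    rintro x y ⟨-, h, -⟩
    cases i0 <;> simp at h
  refine ⟨fun s t hst => (mmove_pair G b0 b1 z i0 hb hz hne s t hst).1, ?_, ?_⟩
  · intro x y hxy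
    by_cases h1 : mmove_T2 b0 b1 z x y
    · refine ⟨⟨(x, x, !i0), G.refl _⟩, ⟨(x, y, !i0), hxy⟩, ?_, hcen x, ?_⟩
      · exact Or.inl ⟨rfl, Or.inl rfl⟩
      · exact (mmove_v2 h1).trans h1.2.2.2.symm
    · by_cases h2 : mmove_T2 b0 b1 z y x
      · refine ⟨⟨(y, x, !i0), G.symm _ _ hxy⟩, ⟨(y, y, !i0), G.refl _⟩, ?_, ?_, hcen y⟩
        · exact Or.inl ⟨rfl, Or.inr (Or.inl rfl)⟩
        · exact (mmove_v2 h2).trans h2.2.2.2.symm
      · exact ⟨⟨(x, y, !i0), hxy⟩, ⟨(y, x, !i0), G.symm _ _ hxy⟩, Or.inr ⟨rfl, rfl⟩,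
          mmove_v3 (hT1 _ _) h1, mmove_v3 (hT1 _ _) h2⟩
  · intro s t hst
    have h1 := mmove_to_centre G b0 b1 z i0 hb hne s
    have h2 := mmove_CIn_symm _ _ (mmove_to_centre G b0 b1 z i0 hb hne t)
    simp only [← hst] at h2
    exact ReflTransGen.trans h1 h2

theorem move {V : Type} [Finite V] (G : Gr V) (b0 b1 : V) (hb : G.adj b0 b1) :
    ∃ (W : Type) (_ : Finite W) (K : Gr W) (u : W → V), Mn K G u ∧
      ∀ c, u c = b0 → ∃ u' : W → V, Mn K G u' ∧ u' c = b1 ∧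
        (∀ t, G.adj (u t) (u' t)) ∧
        (∀ t, u' t = u t ∨ ((u' t = b0 ∨ u' t = b1) ∧ G.adj (u t) b0)) ∧
        ∀ (Γ : Type) (_ : Group Γ) (κ : V → V → Γ), (∀ x, κ x x = 1) →
          (∀ x y, κ x y * κ y x = 1) →
          ∀ s t, K.adj s t →
            κ (u s) (u t) * κ (u t) (u' t) = κ (u s) (u' s) * κ (u' s) (u' t) := by
  classical
  by_cases hne : b1 = b0
  · refine ⟨V, inferInstance, G, fun v => v, Mn.id G, fun c hc => ⟨fun v => v, Mn.id G,
      hc.trans hne.symm, fun t => G.refl t, fun t => Or.inl rfl, ?_⟩⟩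
    intro Γ _ κ k1 k2 s t hst
    show κ s t * κ t t = κ s s * κ s t
    rw [k1, k1, one_mul, mul_one]
  · refine ⟨mmove_W G, inferInstance, mmove_K G, fun w => w.1.1, mmove_u_mn G, ?_⟩
    rintro ⟨⟨x, z, i0⟩, hx⟩ hc
    have hc' : x = b0 := hc
    subst hc'
    have hz : G.adj x z := hx
    refine ⟨mmove_f G x b1 z i0, mmove_f_mn G x b1 z i0 hb hz hne, ?_, ?_, ?_, ?_⟩
    · exact mmove_v1 ⟨rfl, rfl, Or.inr (Or.inr rfl)⟩
    · rintro ⟨⟨a, b, i⟩, ha⟩
      show G.adj a (mmove_val x b1 z i0 a b i)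
      by_cases h : a = x
      · subst h
        rcases mmove_vb0 (b0 := a) (b1 := b1) (z := z) (i0 := i0) (y := b) (i := i) with h2 | h2
        · rw [h2]; exact hb
        · rw [h2]; exact G.refl _
      · rcases mmove_vx (b1 := b1) (z := z) (i0 := i0) (y := b) (i := i) h with h2 | ⟨hT, h2⟩
        · rw [h2]; exact G.refl _
        · rw [h2, hT.2.2.1]; exact G.symm _ _ hz
    · rintro ⟨⟨a, b, i⟩, ha⟩
      show mmove_val x b1 z i0 a b i = a ∨
        ((mmove_val x b1 z i0 a b i = x ∨ mmove_val x b1 z i0 a b i = b1) ∧ G.adj a x)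
      by_cases h : a = x
      · subst h
        rcases mmove_vb0 (b0 := a) (b1 := b1) (z := z) (i0 := i0) (y := b) (i := i) with h2 | h2
        · exact Or.inr ⟨Or.inr h2, G.refl _⟩
        · exact Or.inl h2
      · rcases mmove_vx (b1 := b1) (z := z) (i0 := i0) (y := b) (i := i) h with h2 | ⟨hT, h2⟩
        · exact Or.inl h2
        · refine Or.inr ⟨Or.inl h2, ?_⟩
          rw [hT.2.2.1]; exact G.symm _ _ hz
    · intro Γ _ κ k1 k2 s t hst
      exact (mmove_pair G x b1 z i0 hb hz hne s t hst).2 Γ _ κ k1 k2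

end Pool.B595.Bih
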