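import Pool.Agent.B595.Bih.Defs
import Pool.Agent.B595.Bih.JMn
import Pool.Agent.B595.Bih.JMpull
import Pool.Agent.B595.Bih.JMmove
import Pool.Agent.B595.Bih.JMthr

set_option autoImplicit false


namespace Pool.B595.Bih

open Relation

/-! The following statements are already proved elsewhere: use them freely, do not prove them. -/








/-! TARGET: prove this (auxiliary lemmas allowed before it) -/

/-- strong approximation property -/
def mgood_SA (T : Tw) (n n1 m : ℕ) (f : T.V n1 → T.V n) (y : Thr T.p) (g : T.V m → T.V n1) :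
    Prop :=
  ∀ x : Thr T.p, f (g (x.1 m)) = x.1 n ∨
    (f (g (x.1 m)) = y.1 n ∧ (T.G n).adj (x.1 n) (y.1 n))

/-- good points -/
def mgood_Good (T : Tw) {Γ : Type} [Group Γ] (κ : T.V 0 → T.V 0 → Γ) (n n1 : ℕ)
    (f : T.V n1 → T.V n) (ρ : T.V n1 → Γ) (y : Thr T.p) (b : T.V n1) : Prop :=
  f b = y.1 n ∧ ∃ m, n1 < m ∧ ∃ (g : T.V m → T.V n1) (ρ' : T.V m → Γ), Mn (T.G m) (T.G n1) g ∧
    (∀ v w, (T.G m).adj v w →
      κ (T.P m v) (T.P m w) * ρ' w = ρ' v * κ (T.P n1 (g v)) (T.P n1 (g w))) ∧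
    g (y.1 m) = b ∧ mgood_SA T n n1 m f y g ∧
    ∀ x : Thr T.p, ρ' (x.1 m) * ρ (g (x.1 m)) = κ (x.1 0) (T.P n (f (g (x.1 m))))

theorem mgood_surj (T : Tw) (n : ℕ) : Function.Surjective (T.p n) := by
  intro v
  obtain ⟨x', y', -, h, -⟩ := (T.mor n).edge v v ((T.G n).refl v)
  exact ⟨x', h⟩

theorem mgood_step (T : Tw) {Γ : Type} [Group Γ] (κ : T.V 0 → T.V 0 → Γ) (k1 : ∀ x, κ x x = 1)
    (k2 : ∀ x y, κ x y * κ y x = 1) (n n1 : ℕ) (f : T.V n1 → T.V n)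
    (hf : Mn (T.G n1) (T.G n) f) (ρ : T.V n1 → Γ)
    (hρ : ∀ v w, (T.G n1).adj v w →
      κ (T.P n1 v) (T.P n1 w) * ρ w = ρ v * κ (T.P n (f v)) (T.P n (f w)))
    (y : Thr T.p) (b b' : T.V n1) (hb : mgood_Good T κ n n1 f ρ y b)
    (hadj : (T.G n1).adj b b') (hb' : f b' = y.1 n) : mgood_Good T κ n n1 f ρ y b' := by
  have hfin := T.fin
  obtain ⟨hfb, m, hm, g, ρ', hg, hcomp, hgy, hSA, hid⟩ := hb
  obtain ⟨W, hW, K, u, hu, hmove⟩ := move (T.G n1) b b' hadj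
  obtain ⟨D, hD1, hD2⟩ := pullback hg hu
  obtain ⟨m', hm1, hm2, s, hs, hsx⟩ := T.ext m n1 {d : T.V m × W // g d.1 = u d.2} inferInstance D
    (fun d => d.1.1) hD1
  have hs2 : Mn (T.G m') K ((fun d : {d : T.V m × W // g d.1 = u d.2} => d.1.2) ∘ s) :=
    Mn.comp hD2 hs
  have hQ : Mn (T.G m') (T.G m) ((fun d : {d : T.V m × W // g d.1 = u d.2} => d.1.1) ∘ s) :=
    Mn.comp hD1 hs
  have hQP : ∀ v : T.V m', T.P m' v = T.P m (s v).1.1 := by
    intro v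
    obtain ⟨x, hx⟩ := exists_thread T.p (mgood_surj T) m' v
    rw [← hx, P_thread, hsx x, P_thread]
  have husv : ∀ v : T.V m', g (s v).1.1 = u (s v).1.2 := fun v => (s v).2
  have hus : ∀ x : Thr T.p, u ((s (x.1 m')).1.2) = g (x.1 m) := by
    intro x
    rw [← (s (x.1 m')).2, hsx x]
  obtain ⟨u', hu', hu'c, hu'a, hu't, hκ⟩ := hmove ((s (y.1 m')).1.2) (by rw [hus, hgy])
  have hκ' := hκ Γ inferInstance (fun p q => κ (T.P n1 p) (T.P n1 q)) (fun x => k1 _)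
    (fun x y => k2 _ _)
  refine ⟨hb', m', hm1, fun v => u' (s v).1.2,
    fun v => ρ' (s v).1.1 * κ (T.P n1 (u (s v).1.2)) (T.P n1 (u' (s v).1.2)),
    Mn.comp hu' hs2, ?_, hu'c, ?_, ?_⟩
  · intro v w hvw
    have h1 := hcomp _ _ (hQ.hom v w hvw)
    have h2 := hκ' _ _ (hs2.hom v w hvw)
    simp only [Function.comp] at h1 h2
    rw [husv v, husv w] at h1
    rw [hQP v, hQP w, ← mul_assoc, h1, mul_assoc, h2, ← mul_assoc]
  · intro x
    have hx := hSA x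
    rcases hu't ((s (x.1 m')).1.2) with h1 | ⟨h2, h3⟩
    · have e : u' ((s (x.1 m')).1.2) = g (x.1 m) := by rw [h1, hus]
      show f (u' ((s (x.1 m')).1.2)) = _ ∨ (f (u' ((s (x.1 m')).1.2)) = _ ∧ _)
      rw [e]
      exact hx
    · have e : f (u' ((s (x.1 m')).1.2)) = y.1 n := by
        rcases h2 with h2 | h2
        · rw [h2, hfb]
        · rw [h2, hb']
      refine Or.inr ⟨e, ?_⟩
      have h4 := hf.hom _ _ h3
      rw [hus, hfb] at h4
      rcases hx with hx | ⟨-, hx⟩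
      · rwa [hx] at h4
      · exact hx
  · intro x
    have h1 := hρ _ _ (hu'a (s (x.1 m')).1.2)
    have h2 := hid x
    rw [← hus x] at h2
    show ρ' (s (x.1 m')).1.1 * κ (T.P n1 (u (s (x.1 m')).1.2)) (T.P n1 (u' (s (x.1 m')).1.2)) *
      ρ (u' (s (x.1 m')).1.2) = κ (x.1 0) (T.P n (f (u' (s (x.1 m')).1.2)))
    rw [mul_assoc, h1, hsx x, ← mul_assoc, h2]
    rcases hu't ((s (x.1 m')).1.2) with h3 | ⟨h3, h4⟩
    · rw [h3, k1, mul_one]
    · have e : f (u' ((s (x.1 m')).1.2)) = y.1 n := by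
        rcases h3 with h3 | h3
        · rw [h3, hfb]
        · rw [h3, hb']
      rw [e]
      have h5 := hSA x
      rw [← hus x] at h5
      rcases h5 with h5 | ⟨h5, -⟩
      · rw [h5, P_thread, k1, one_mul]
      · rw [h5, k1, mul_one]

theorem good (T : Tw) {Γ : Type} [Group Γ] (κ : T.V 0 → T.V 0 → Γ) (k1 : ∀ x, κ x x = 1)
    (k2 : ∀ x y, κ x y * κ y x = 1) (n n1 : ℕ) (f : T.V n1 → T.V n)
    (hf : Mn (T.G n1) (T.G n) f) (ρ : T.V n1 → Γ)
    (hρ : ∀ v w, (T.G n1).adj v w →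
      κ (T.P n1 v) (T.P n1 w) * ρ w = ρ v * κ (T.P n (f v)) (T.P n (f w)))
    (y : Thr T.p) (b : T.V n1) (hb : f b = y.1 n) :
    ∃ m, n1 < m ∧ ∃ (g : T.V m → T.V n1) (ρ' : T.V m → Γ), Mn (T.G m) (T.G n1) g ∧
      (∀ a b c, (T.G m).adj a b → (T.G m).adj b c → (T.G n1).adj (g a) (g c)) ∧
      (∀ v w, (T.G m).adj v w →
        κ (T.P m v) (T.P m w) * ρ' w = ρ' v * κ (T.P n1 (g v)) (T.P n1 (g w))) ∧
      g (y.1 m) = b ∧
      (∀ x : Thr T.p, (T.G n).adj (f (g (x.1 m))) (x.1 n)) ∧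
      (∀ x : Thr T.p, ρ' (x.1 m) * ρ (g (x.1 m)) = κ (x.1 0) (T.P n (f (g (x.1 m))))) := by
  have hfin := T.fin
  obtain ⟨m0, hm0, hm0', g0, hg0, hg0x⟩ := T.ext n n1 (T.V n1) (T.fin n1) (T.G n1) f hf
  have hfg : ∀ v : T.V m0, T.P n (f (g0 v)) = T.P m0 v := by
    intro v
    obtain ⟨x, hx⟩ := exists_thread T.p (mgood_surj T) m0 v
    rw [← hx, P_thread, hg0x x, P_thread]
  have hb0 : mgood_Good T κ n n1 f ρ y (g0 (y.1 m0)) := by
    refine ⟨hg0x y, m0, hm0, g0, fun v => (ρ (g0 v))⁻¹, hg0, ?_, rfl, fun x => Or.inl (hg0x x), ?_⟩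
    · intro v w hvw
      have h1 := hρ _ _ (hg0.hom v w hvw)
      rw [hfg, hfg] at h1
      have h2 : κ (T.P m0 v) (T.P m0 w) =
          (ρ (g0 v))⁻¹ * (κ (T.P n1 (g0 v)) (T.P n1 (g0 w)) * ρ (g0 w)) := by
        rw [h1, inv_mul_cancel_left]
      rw [h2, mul_assoc, mul_assoc, mul_inv_cancel, mul_one]
    · intro x
      show (ρ (g0 (x.1 m0)))⁻¹ * ρ (g0 (x.1 m0)) = _
      rw [inv_mul_cancel, hg0x x, P_thread, k1]
  have hcin := hf.con (g0 (y.1 m0)) b (by rw [hg0x, hb])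
  have hbg : mgood_Good T κ n n1 f ρ y b := by
    unfold CIn at hcin
    clear hb
    induction hcin with
    | refl => exact hb0
    | tail _ hbc ih =>
      refine mgood_step T κ k1 k2 n n1 f hf ρ hρ y _ _ ih hbc.2.2 ?_
      have := hbc.2.1
      simp only [Set.mem_preimage, Set.mem_singleton_iff] at this
      rw [this, hg0x]
  obtain ⟨-, m, hm, g, ρ', hg, hcomp, hgy, hSA, hid⟩ := hbg
  refine ⟨m + 1, by omega, g ∘ T.p m, ρ' ∘ T.p m, Mn.comp hg (T.mor m), ?_, ?_, ?_, ?_, ?_⟩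
  · intro a b c hab hbc
    exact hg.hom _ _ (T.con m a b c hab hbc)
  · intro v w hvw
    exact hcomp _ _ ((T.mor m).hom v w hvw)
  · show g (T.p m (y.1 (m + 1))) = b
    rw [y.2 m, hgy]
  · intro x
    show (T.G n).adj (f (g (T.p m (x.1 (m + 1))))) _
    rw [x.2 m]
    rcases hSA x with h | ⟨h1, h2⟩
    · rw [h]
      exact (T.G n).refl _
    · rw [h1]
      exact (T.G n).symm _ _ h2
  · intro x
    show ρ' (T.p m (x.1 (m + 1))) * ρ (g (T.p m (x.1 (m + 1)))) =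
      κ (x.1 0) (T.P n (f (g (T.p m (x.1 (m + 1))))))
    rw [x.2 m]
    exact hid x

end Pool.B595.Bih
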