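import Pool.Agent.B595.Bih.Defs
import Pool.Agent.B595.Bih.JMgood

set_option autoImplicit false


namespace Pool.B595.Bih

open Relation

/-! The following statements are already proved elsewhere: use them freely, do not prove them. -/


/-! TARGET: prove this (auxiliary lemmas allowed before it) -/

structure mladder_LState (T : Tw) {Γ : Type} [Group Γ] (κ : T.V 0 → T.V 0 → Γ)
    (z : ℕ → Thr T.p) (i : ℕ) where
  a : ℕ
  b : ℕ
  hab : a < b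
  g : T.V b → T.V a
  ρ : T.V b → Γ
  mor : Mn (T.G b) (T.G a) g
  con : ∀ x y w, (T.G b).adj x y → (T.G b).adj y w → (T.G a).adj (g x) (g w)
  com : ∀ v w, (T.G b).adj v w →
      κ (T.P b v) (T.P b w) * ρ w = ρ v * κ (T.P a (g v)) (T.P a (g w))
  pt : g ((z i).1 b) = (z (i + 1)).1 a

theorem mladder_step_ex (T : Tw) {Γ : Type} [Group Γ] (κ : T.V 0 → T.V 0 → Γ)
    (k1 : ∀ x, κ x x = 1) (k2 : ∀ x y, κ x y * κ y x = 1)
    (z : ℕ → Thr T.p) (hz : ∀ i, z (i + 2) = z i) (i : ℕ)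
    (s : mladder_LState T κ z i) :
    ∃ m, ∃ (g : T.V m → T.V s.b) (ρ' : T.V m → Γ), s.b < m ∧ Mn (T.G m) (T.G s.b) g ∧
      (∀ x y w, (T.G m).adj x y → (T.G m).adj y w → (T.G s.b).adj (g x) (g w)) ∧
      (∀ v w, (T.G m).adj v w →
        κ (T.P m v) (T.P m w) * ρ' w = ρ' v * κ (T.P s.b (g v)) (T.P s.b (g w))) ∧
      g ((z (i + 1)).1 m) = (z (i + 1 + 1)).1 s.b ∧
      (∀ x : Thr T.p, (T.G s.a).adj (s.g (g (x.1 m))) (x.1 s.a)) ∧
      (∀ x : Thr T.p, ρ' (x.1 m) * s.ρ (g (x.1 m)) = κ (x.1 0) (T.P s.a (s.g (g (x.1 m))))) := by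
  obtain ⟨m, hm, g, ρ', h1, h2, h3, h4, h5, h6⟩ :=
    good T κ k1 k2 s.a s.b s.g s.mor s.ρ s.com (z (i + 1)) ((z i).1 s.b) s.pt
  refine ⟨m, g, ρ', hm, h1, h2, h3, ?_, h5, h6⟩
  rw [h4, ← hz i]

open Classical in
noncomputable def mladder_step (T : Tw) {Γ : Type} [Group Γ] (κ : T.V 0 → T.V 0 → Γ)
    (k1 : ∀ x, κ x x = 1) (k2 : ∀ x y, κ x y * κ y x = 1)
    (z : ℕ → Thr T.p) (hz : ∀ i, z (i + 2) = z i) (i : ℕ)
    (s : mladder_LState T κ z i) : mladder_LState T κ z (i + 1) where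
  a := s.b
  b := (mladder_step_ex T κ k1 k2 z hz i s).choose
  hab := (mladder_step_ex T κ k1 k2 z hz i s).choose_spec.choose_spec.choose_spec.1
  g := (mladder_step_ex T κ k1 k2 z hz i s).choose_spec.choose
  ρ := (mladder_step_ex T κ k1 k2 z hz i s).choose_spec.choose_spec.choose
  mor := (mladder_step_ex T κ k1 k2 z hz i s).choose_spec.choose_spec.choose_spec.2.1
  con := (mladder_step_ex T κ k1 k2 z hz i s).choose_spec.choose_spec.choose_spec.2.2.1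
  com := (mladder_step_ex T κ k1 k2 z hz i s).choose_spec.choose_spec.choose_spec.2.2.2.1
  pt := (mladder_step_ex T κ k1 k2 z hz i s).choose_spec.choose_spec.choose_spec.2.2.2.2.1

theorem mladder_step_adj (T : Tw) {Γ : Type} [Group Γ] (κ : T.V 0 → T.V 0 → Γ)
    (k1 : ∀ x, κ x x = 1) (k2 : ∀ x y, κ x y * κ y x = 1)
    (z : ℕ → Thr T.p) (hz : ∀ i, z (i + 2) = z i) (i : ℕ)
    (s : mladder_LState T κ z i) (x : Thr T.p) :
    (T.G s.a).adj (s.g ((mladder_step T κ k1 k2 z hz i s).g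
      (x.1 (mladder_step T κ k1 k2 z hz i s).b))) (x.1 s.a) :=
  (mladder_step_ex T κ k1 k2 z hz i s).choose_spec.choose_spec.choose_spec.2.2.2.2.2.1 x

theorem mladder_step_rho (T : Tw) {Γ : Type} [Group Γ] (κ : T.V 0 → T.V 0 → Γ)
    (k1 : ∀ x, κ x x = 1) (k2 : ∀ x y, κ x y * κ y x = 1)
    (z : ℕ → Thr T.p) (hz : ∀ i, z (i + 2) = z i) (i : ℕ)
    (s : mladder_LState T κ z i) (x : Thr T.p) :
    (mladder_step T κ k1 k2 z hz i s).ρ (x.1 (mladder_step T κ k1 k2 z hz i s).b) *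
      s.ρ ((mladder_step T κ k1 k2 z hz i s).g (x.1 (mladder_step T κ k1 k2 z hz i s).b)) =
      κ (x.1 0) (T.P s.a (s.g ((mladder_step T κ k1 k2 z hz i s).g
        (x.1 (mladder_step T κ k1 k2 z hz i s).b)))) :=
  (mladder_step_ex T κ k1 k2 z hz i s).choose_spec.choose_spec.choose_spec.2.2.2.2.2.2 x

def mladder_start (T : Tw) {Γ : Type} [Group Γ] (κ : T.V 0 → T.V 0 → Γ)
    (z : ℕ → Thr T.p) (h0 : (z 0).1 0 = (z 1).1 0) : mladder_LState T κ z 0 where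
  a := 0
  b := 1
  hab := by norm_num
  g := T.p 0
  ρ := fun _ => 1
  mor := T.mor 0
  con := T.con 0
  com := fun v w _ => by
    rw [mul_one, one_mul]
    rfl
  pt := ((z 0).2 0).trans h0

noncomputable def mladder_seq (T : Tw) {Γ : Type} [Group Γ] (κ : T.V 0 → T.V 0 → Γ)
    (k1 : ∀ x, κ x x = 1) (k2 : ∀ x y, κ x y * κ y x = 1)
    (z : ℕ → Thr T.p) (hz : ∀ i, z (i + 2) = z i) (h0 : (z 0).1 0 = (z 1).1 0) :
    ∀ i, mladder_LState T κ z i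
  | 0 => mladder_start T κ z h0
  | i + 1 => mladder_step T κ k1 k2 z hz i (mladder_seq T κ k1 k2 z hz h0 i)

theorem ladder (T : Tw) {Γ : Type} [Group Γ] (κ : T.V 0 → T.V 0 → Γ) (k1 : ∀ x, κ x x = 1)
    (k2 : ∀ x y, κ x y * κ y x = 1) (z : ℕ → Thr T.p) (hz : ∀ i, z (i + 2) = z i)
    (h0 : (z 0).1 0 = (z 1).1 0) :
    ∃ (n : ℕ → ℕ) (g : ∀ i, T.V (n (i + 1)) → T.V (n i)) (ρ : ∀ i, T.V (n (i + 1)) → Γ),
      (∀ i, n i < n (i + 1)) ∧ (∀ i, Mn (T.G (n (i + 1))) (T.G (n i)) (g i)) ∧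
      (∀ i a b c, (T.G (n (i + 1))).adj a b → (T.G (n (i + 1))).adj b c →
        (T.G (n i)).adj (g i a) (g i c)) ∧
      (∀ i v w, (T.G (n (i + 1))).adj v w →
        κ (T.P _ v) (T.P _ w) * ρ i w = ρ i v * κ (T.P _ (g i v)) (T.P _ (g i w))) ∧
      (∀ i, g i ((z i).1 (n (i + 1))) = (z (i + 1)).1 (n i)) ∧
      (∀ i (x : Thr T.p), (T.G (n i)).adj (g i (g (i + 1) (x.1 (n (i + 2))))) (x.1 (n i))) ∧
      (∀ i (x : Thr T.p), ρ (i + 1) (x.1 (n (i + 2))) * ρ i (g (i + 1) (x.1 (n (i + 2)))) =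
        κ (x.1 0) (T.P (n i) (g i (g (i + 1) (x.1 (n (i + 2))))))) := by
  refine ⟨fun i => (mladder_seq T κ k1 k2 z hz h0 i).a,
    fun i => (mladder_seq T κ k1 k2 z hz h0 i).g,
    fun i => (mladder_seq T κ k1 k2 z hz h0 i).ρ,
    fun i => (mladder_seq T κ k1 k2 z hz h0 i).hab,
    fun i => (mladder_seq T κ k1 k2 z hz h0 i).mor,
    fun i => (mladder_seq T κ k1 k2 z hz h0 i).con,
    fun i => (mladder_seq T κ k1 k2 z hz h0 i).com,
    fun i => (mladder_seq T κ k1 k2 z hz h0 i).pt, ?_, ?_⟩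
  · intro i x
    exact mladder_step_adj T κ k1 k2 z hz i (mladder_seq T κ k1 k2 z hz h0 i) x
  · intro i x
    exact mladder_step_rho T κ k1 k2 z hz i (mladder_seq T κ k1 k2 z hz h0 i) x

end Pool.B595.Bih
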