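import Pool.Agent.B595.Bih.Defs
import Pool.Agent.B595.Bih.JMladder
import Pool.Agent.B595.Bih.JHomeo
import Pool.Agent.B595.Bih.JMthr
import Pool.Agent.B595.Bih.JBund

set_option autoImplicit false


namespace Pool.B595.Bih

open Relation

/-! The following statements are already proved elsewhere: use them freely, do not prove them. -/











/-! TARGET: prove this (auxiliary lemmas allowed before it) -/

theorem lhomeo_core {Z X : Type} [MetricSpace X] [CompactSpace X] (q : Z → X)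
    (hq : Function.Surjective q) (E : ℕ → Z → Z → Prop)
    (nest : ∀ i a b, E (i + 1) b a → E i a b)
    (F1 : ∀ i a, ∃ b, E i a b) (F2 : ∀ i b, ∃ a, E i a b)
    (U : ∀ ε > 0, ∃ N, ∀ i ≥ N, ∃ δ > 0, ∀ a b a' b', E i a b → E i a' b' →
      dist (q a) (q a') < δ → dist (q b) (q b') < ε)
    (x y : Z) (h1 : ∀ i, Even i → E i x y) (h2 : ∀ i, ¬ Even i → E i y x) :
    ∃ h : X ≃ₜ X, h (q x) = q y := by
  classical
  obtain ⟨c, hc⟩ : ∃ c : ℕ → Z → Z → Z, ∀ i a b,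
      c i a b = if Even i then a else b := ⟨_, fun _ _ _ => rfl⟩
  obtain ⟨S, hS⟩ : ∃ S : ℕ → Z → Z → Prop, ∀ i a b, S i a b ↔
      E i (c i a b) (c (i + 1) a b) := ⟨_, fun _ _ _ => Iff.rfl⟩
  have hSe : ∀ i, Even i → ∀ a b, S i a b ↔ E i a b := by
    intro i hi a b
    have hi' : ¬ Even (i + 1) := by
      rw [Nat.even_add_one]; exact not_not.2 hi
    rw [hS, hc, hc, if_pos hi, if_neg hi']
  have hSo : ∀ i, ¬ Even i → ∀ a b, S i a b ↔ E i b a := by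
    intro i hi a b
    have hi' : Even (i + 1) := by
      rw [Nat.even_add_one]; exact hi
    rw [hS, hc, hc, if_neg hi, if_pos hi']
  have Santi : ∀ i a b, S (i + 1) a b → S i a b := by
    intro i a b h
    by_cases hi : Even i
    · have hi' : ¬ Even (i + 1) := by
        rw [Nat.even_add_one]; exact not_not.2 hi
      rw [hSe i hi]
      rw [hSo (i + 1) hi'] at h
      exact nest i a b h
    · have hi' : Even (i + 1) := by
        rw [Nat.even_add_one]; exact hi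
      rw [hSo i hi]
      rw [hSe (i + 1) hi'] at h
      exact nest i b a h
  have Sful1 : ∀ i a, ∃ b, S i a b := by
    intro i a
    by_cases hi : Even i
    · obtain ⟨b, hb⟩ := F1 i a
      exact ⟨b, (hSe i hi a b).2 hb⟩
    · obtain ⟨b, hb⟩ := F2 i a
      exact ⟨b, (hSo i hi a b).2 hb⟩
  have Sful2 : ∀ i b, ∃ a, S i a b := by
    intro i b
    by_cases hi : Even i
    · obtain ⟨a, ha⟩ := F2 i b
      exact ⟨a, (hSe i hi a b).2 ha⟩
    · obtain ⟨a, ha⟩ := F1 i b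
      exact ⟨a, (hSo i hi a b).2 ha⟩
  obtain ⟨h, hh⟩ := homeo_of_rel (X := X) (fun i u v => ∃ a b, q a = u ∧ q b = v ∧ S i a b)
    (by
      rintro i u v ⟨a, b, ha, hb, h⟩
      exact ⟨a, b, ha, hb, Santi i a b h⟩)
    (by
      intro i u
      obtain ⟨a, rfl⟩ := hq u
      obtain ⟨b, hb⟩ := Sful1 i a
      exact ⟨q b, a, b, rfl, rfl, hb⟩)
    (by
      intro i v
      obtain ⟨b, rfl⟩ := hq v
      obtain ⟨a, ha⟩ := Sful2 i b
      exact ⟨q a, a, b, rfl, rfl, ha⟩)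
    (by
      intro ε hε
      obtain ⟨N, hN⟩ := U ε hε
      obtain ⟨δ, hδ, h⟩ := hN (2 * N) (by omega)
      refine ⟨2 * N, δ, hδ, ?_⟩
      rintro _ _ _ _ ⟨a, b, rfl, rfl, h1⟩ ⟨a', b', rfl, rfl, h2⟩ hd
      rw [hSe _ (even_two_mul N)] at h1 h2
      exact h a b a' b' h1 h2 hd)
    (by
      intro ε hε
      obtain ⟨N, hN⟩ := U ε hε
      obtain ⟨δ, hδ, h⟩ := hN (2 * N + 1) (by omega)
      refine ⟨2 * N + 1, δ, hδ, ?_⟩
      rintro _ _ _ _ ⟨a, b, rfl, rfl, h1⟩ ⟨a', b', rfl, rfl, h2⟩ hd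
      have ho : ¬ Even (2 * N + 1) := by
        rw [Nat.even_add_one]; exact not_not.2 (even_two_mul N)
      rw [hSo _ ho] at h1 h2
      exact h b a b' a' h1 h2 hd)
  refine ⟨h, hh _ _ ?_⟩
  intro i
  refine ⟨x, y, rfl, rfl, ?_⟩
  by_cases hi : Even i
  · exact (hSe i hi x y).2 (h1 i hi)
  · exact (hSo i hi x y).2 (h2 i hi)

lemma lhomeo_down (D : Dat) (b b' : D.Th) (N M : ℕ) (hNM : N ≤ M)
    (h : D.adjX M (b.1 M) (b'.1 M)) : D.adjX N (b.1 N) (b'.1 N) := by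
  induction M, hNM using Nat.le_induction with
  | base => exact h
  | succ M _ ih =>
    apply ih
    have := adjX_con D M _ _ _ h (adjX_refl D (M + 1) _)
    rw [b.2 M, b'.2 M] at this
    exact this

lemma lhomeo_five (D : Dat) (b b' : D.Th) (M : ℕ) (v1 v2 v3 v4 : D.VX (M + 3))
    (h0 : D.adjX (M + 3) (b.1 (M + 3)) v1) (h1 : D.adjX (M + 3) v1 v2)
    (h2 : D.adjX (M + 3) v2 v3) (h3 : D.adjX (M + 3) v3 v4)
    (h4 : D.adjX (M + 3) v4 (b'.1 (M + 3))) : D.adjX M (b.1 M) (b'.1 M) := by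
  have a1 := adjX_con D (M + 2) _ _ _ h0 h1
  have a2 := adjX_con D (M + 2) _ _ _ h2 h3
  have a3 := adjX_con D (M + 2) _ _ _ h4 (adjX_refl D (M + 3) _)
  rw [b.2 (M + 2)] at a1
  rw [b'.2 (M + 2)] at a3
  have c1 := adjX_con D (M + 1) _ _ _ a1 a2
  have c2 := adjX_con D (M + 1) _ _ _ a3 (adjX_refl D (M + 2) _)
  rw [b.2 (M + 1)] at c1
  rw [b'.2 (M + 1)] at c2
  have d1 := adjX_con D M _ _ _ c1 c2
  rw [b.2 M, b'.2 M] at d1
  exact d1

lemma lhomeo_tri (D : Dat) (x y z : D.T.V 0) (h1 : (D.T.G 0).adj x y) (h2 : (D.T.G 0).adj y z)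
    (h3 : (D.T.G 0).adj x z) : D.c x y * D.c y z = D.c x z := by
  rcases D.T.tri 0 x y z h1 h2 h3 with h | h | h
  · subst h; rw [D.c1, one_mul]
  · subst h; rw [D.c1, mul_one]
  · subst h; rw [D.c2, D.c1]

lemma lhomeo_alg {Γ : Type} [Group Γ] (R c1 c2 ra rz rv d1 d2 d3 : Γ)
    (m1 : c1 * rz = rv * d1) (m2 : c2 * ra = rz * d2) (m3 : d1 * d2 = d3) :
    R * c1 * c2 * ra = R * rv * d3 := by
  calc R * c1 * c2 * ra = R * (c1 * (c2 * ra)) := by simp only [mul_assoc]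
    _ = R * ((c1 * rz) * d2) := by rw [m2]; simp only [mul_assoc]
    _ = R * ((rv * d1) * d2) := by rw [m1]
    _ = R * (rv * (d1 * d2)) := by simp only [mul_assoc]
    _ = R * rv * d3 := by rw [m3]; simp only [mul_assoc]

lemma lhomeo_alg2 {Γ Q : Type} [Group Γ] [Group Q] (r : Γ →* Q) (x y : Q) (γ ra u d : Γ)
    (h1 : x = y * r γ) (h2 : γ * ra = u * d) : x * r ra = y * r u * r d := by
  rw [h1, mul_assoc, ← map_mul, h2, map_mul, mul_assoc]

theorem ladder_homeo (D : Dat) {X : Type} [MetricSpace X] [CompactSpace X] (q : D.Th → X)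
    (hq : IsLim D.adjX D.pX q) (z w : D.Th) (h0 : (z.1 0).1 = (w.1 0).1) :
    ∃ (h : X ≃ₜ X) (ω : D.M.Γ), h (q z) = q (D.tw (D.base w) z ω) := by
  classical
  obtain ⟨zz, hzz⟩ : ∃ zz : ℕ → Thr D.T.p, ∀ i, zz i = if Even i then D.base z else D.base w :=
    ⟨_, fun _ => rfl⟩
  have hz2 : ∀ i, zz (i + 2) = zz i := by
    intro i
    rw [hzz, hzz]
    have : Even (i + 2) ↔ Even i := by
      rw [Nat.even_add]; simp
    simp only [this]
  have hz0 : zz 0 = D.base z := by rw [hzz]; simp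
  have hz1 : zz 1 = D.base w := by rw [hzz]; simp
  obtain ⟨n, g, ρ, hn, hmor, hcon, hcomp, hzi, hlad, hrho⟩ :=
    ladder D.T D.c D.c1 D.c2 zz hz2 (by rw [hz0, hz1]; exact h0)
  have hnle : ∀ i, i ≤ n i := by
    intro i
    induction i with
    | zero => exact Nat.zero_le _
    | succ i ih => exact lt_of_le_of_lt ih (hn i)
  obtain ⟨G, hG⟩ : ∃ G : ∀ i, D.Th → D.VX (n i), ∀ i a, G i a =
      (g i (a.1 (n (i + 1))).1, (a.1 (n i)).2 * D.M.r (n i) (ρ i (a.1 (n (i + 1))).1)) :=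
    ⟨_, fun _ _ => rfl⟩
  obtain ⟨E, hE⟩ : ∃ E : ℕ → D.Th → D.Th → Prop, ∀ i a b, E i a b ↔
      ∃ ζ, D.adjX (n i) (G i a) ζ ∧ D.adjX (n i) ζ (b.1 (n i)) :=
    ⟨_, fun _ _ _ => Iff.rfl⟩
  have homG : ∀ i (a a' : D.Th), D.adjX (n (i + 1)) (a.1 (n (i + 1))) (a'.1 (n (i + 1))) →
      D.adjX (n i) (G i a) (G i a') := by
    intro i a a' h
    rw [hG, hG]
    refine ⟨(hmor i).hom _ _ h.1, ?_⟩
    have h1 := thr_level D (n i) (n (i + 1)) (hn i).le a a' _ h.2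
    have h2 := hcomp i _ _ h.1
    show (a'.1 (n i)).2 * D.M.r (n i) (ρ i (a'.1 (n (i + 1))).1) =
      (a.1 (n i)).2 * D.M.r (n i) (ρ i (a.1 (n (i + 1))).1) *
        D.M.r (n i) (D.c (D.T.P (n i) (g i (a.1 (n (i + 1))).1))
          (D.T.P (n i) (g i (a'.1 (n (i + 1))).1)))
    rw [h1, mul_assoc, mul_assoc, ← map_mul, ← map_mul, h2]
  have nest : ∀ i a b, E (i + 1) b a → E i a b := by
    intro i a b h
    rw [hE] at h ⊢
    obtain ⟨ζ, h1, h2⟩ := h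
    rw [hG] at h1
    have e1 : (D.T.G (n (i + 1))).adj (g (i + 1) (b.1 (n (i + 2))).1) ζ.1 := h1.1
    have e2 : (D.T.G (n (i + 1))).adj ζ.1 (a.1 (n (i + 1))).1 := h2.1
    have k1 : ζ.2 = (b.1 (n (i + 1))).2 * D.M.r (n (i + 1)) (ρ (i + 1) (b.1 (n (i + 2))).1) *
      D.M.r (n (i + 1)) (D.c (D.T.P _ (g (i + 1) (b.1 (n (i + 2))).1)) (D.T.P _ ζ.1)) := h1.2
    have k2 : (a.1 (n (i + 1))).2 = ζ.2 *
      D.M.r (n (i + 1)) (D.c (D.T.P _ ζ.1) (D.T.P _ (a.1 (n (i + 1))).1)) := h2.2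
    have k3 : (a.1 (n (i + 1))).2 = (b.1 (n (i + 1))).2 * D.M.r (n (i + 1))
        (ρ (i + 1) (b.1 (n (i + 2))).1 *
          D.c (D.T.P _ (g (i + 1) (b.1 (n (i + 2))).1)) (D.T.P _ ζ.1) *
          D.c (D.T.P _ ζ.1) (D.T.P _ (a.1 (n (i + 1))).1)) := by
      rw [k2, k1, map_mul, map_mul]
      simp only [mul_assoc]
    have k4 := thr_level D (n i) (n (i + 1)) (hn i).le b a _ k3
    have m1 := hcomp i _ _ e1
    have m2 := hcomp i _ _ e2
    have m3 := lhomeo_tri D (D.T.P (n i) (g i (g (i + 1) (b.1 (n (i + 2))).1)))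
      (D.T.P (n i) (g i ζ.1)) (D.T.P (n i) (g i (a.1 (n (i + 1))).1))
      (P_adj _ _ _ _ ((hmor i).hom _ _ e1)) (P_adj _ _ _ _ ((hmor i).hom _ _ e2))
      (P_adj _ _ _ _ (hcon i _ _ _ e1 e2))
    have m4 := hrho i (D.base b)
    have m5 := P_thread D.T (D.base b) (n i)
    refine ⟨(g i (g (i + 1) (b.1 (n (i + 2))).1), (b.1 (n i)).2 * D.M.r (n i)
      (ρ (i + 1) (b.1 (n (i + 2))).1 * ρ i (g (i + 1) (b.1 (n (i + 2))).1))), ?_, ?_⟩
    · apply adjX_symm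
      rw [hG]
      refine ⟨hcon i _ _ _ e1 e2, ?_⟩
      show (a.1 (n i)).2 * D.M.r (n i) (ρ i (a.1 (n (i + 1))).1) =
        (b.1 (n i)).2 * D.M.r (n i)
          (ρ (i + 1) (b.1 (n (i + 2))).1 * ρ i (g (i + 1) (b.1 (n (i + 2))).1)) *
          D.M.r (n i) (D.c (D.T.P (n i) (g i (g (i + 1) (b.1 (n (i + 2))).1)))
            (D.T.P (n i) (g i (a.1 (n (i + 1))).1)))
      have key := lhomeo_alg (ρ (i + 1) (b.1 (n (i + 2))).1) _ _ _ _ _ _ _ _ m1 m2 m3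
      exact lhomeo_alg2 (D.M.r (n i)) _ _ _ _ _ _ k4 key
    · apply adjX_symm
      refine ⟨(D.T.G (n i)).symm _ _ (hlad i (D.base b)), ?_⟩
      show (b.1 (n i)).2 * D.M.r (n i)
          (ρ (i + 1) (b.1 (n (i + 2))).1 * ρ i (g (i + 1) (b.1 (n (i + 2))).1)) =
          (b.1 (n i)).2 * D.M.r (n i) (D.c (D.T.P (n i) ((D.base b).1 (n i)))
            (D.T.P (n i) (g i (g (i + 1) (b.1 (n (i + 2))).1))))
      rw [m5]
      exact congrArg (fun t => (b.1 (n i)).2 * D.M.r (n i) t) m4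
  have ne1 : ∀ m, Function.Surjective (D.T.p m) := by
    intro m v
    obtain ⟨x', _, _, h, _⟩ := (D.T.mor m).edge v v ((D.T.G m).refl v)
    exact ⟨x', h⟩
  have F1 : ∀ i a, ∃ b, E i a b := by
    intro i a
    obtain ⟨u, hu⟩ := exists_thread D.T.p ne1 (n i) (g i (a.1 (n (i + 1))).1)
    refine ⟨D.tw u a (ρ i (a.1 (n (i + 1))).1), (hE _ _ _).2 ⟨_, adjX_refl D _ _, ?_⟩⟩
    have : (D.tw u a (ρ i (a.1 (n (i + 1))).1)).1 (n i) = G i a := by
      rw [hG]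
      exact Prod.ext hu rfl
    rw [this]
    exact adjX_refl D _ _
  have F2 : ∀ i b, ∃ a, E i a b := by
    intro i b
    obtain ⟨v, _, _, hv, _⟩ := (hmor i).edge (b.1 (n i)).1 (b.1 (n i)).1 ((D.T.G _).refl _)
    obtain ⟨u, hu⟩ := exists_thread D.T.p ne1 (n (i + 1)) v
    refine ⟨D.tw u b (ρ i v)⁻¹, (hE _ _ _).2 ⟨_, adjX_refl D _ _, ?_⟩⟩
    have : G i (D.tw u b (ρ i v)⁻¹) = b.1 (n i) := by
      rw [hG]
      refine Prod.ext ?_ ?_
      · show g i (u.1 (n (i + 1))) = _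
        rw [hu, hv]
      · show (b.1 (n i)).2 * D.M.r (n i) (ρ i v)⁻¹ * D.M.r (n i) (ρ i (u.1 (n (i + 1)))) = _
        rw [hu, mul_assoc, ← map_mul, inv_mul_cancel, map_one, mul_one]
    rw [this]
    exact adjX_refl D _ _
  have U : ∀ ε > 0, ∃ N, ∀ i ≥ N, ∃ δ > 0, ∀ a b a' b', E i a b → E i a' b' →
      dist (q a) (q a') < δ → dist (q b) (q b') < ε := by
    intro ε hε
    obtain ⟨N, hN⟩ := hq.small ε hε
    refine ⟨N + 3, ?_⟩
    intro i hi
    obtain ⟨δ, hδ, hδ2⟩ := hq.near (n (i + 1))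
    refine ⟨δ, hδ, ?_⟩
    intro a b a' b' h h' hd
    rw [hE] at h h'
    obtain ⟨w1, h1, h2⟩ := h
    obtain ⟨w2, h3, h4⟩ := h'
    have h5 := homG i a a' (hδ2 a a' hd)
    obtain ⟨M, hM⟩ : ∃ M, n i = M + 3 := ⟨n i - 3, by have := hnle i; omega⟩
    have hNM : N ≤ M := by have := hnle i; omega
    apply hN
    refine lhomeo_down D b b' N M hNM ?_
    have k1 := adjX_symm D _ _ _ h2
    have k2 := adjX_symm D _ _ _ h1
    have gen : ∀ L, L = M + 3 → ∀ v1 v2 v3 v4 : D.VX L, D.adjX L (b.1 L) v1 →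
        D.adjX L v1 v2 → D.adjX L v2 v3 → D.adjX L v3 v4 →
        D.adjX L v4 (b'.1 L) → D.adjX M (b.1 M) (b'.1 M) := by
      rintro L rfl v1 v2 v3 v4 e0 e1 e2 e3 e4
      exact lhomeo_five D b b' M v1 v2 v3 v4 e0 e1 e2 e3 e4
    exact gen (n i) hM _ _ _ _ k1 k2 h5 h3 h4
  -- the base pair
  have hsig : ∀ i, ρ (i + 1) ((zz (i + 1)).1 (n (i + 2))) * ρ i ((zz i).1 (n (i + 1))) = 1 := by
    intro i
    have e1 := hrho i (zz (i + 1))
    have e2 : g (i + 1) ((zz (i + 1)).1 (n (i + 2))) = (zz i).1 (n (i + 1)) := by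
      rw [← hz2 i]; exact hzi (i + 1)
    rw [e2, hzi i, P_thread, D.c1] at e1
    exact e1
  have hom : ∀ i, ρ i ((zz i).1 (n (i + 1))) =
      if Even i then ρ 0 ((zz 0).1 (n 1)) else (ρ 0 ((zz 0).1 (n 1)))⁻¹ := by
    intro i
    induction i with
    | zero => simp
    | succ i ih =>
      have h1 := hsig i
      have h2 := eq_inv_of_mul_eq_one_left h1
      rw [h2, ih]
      by_cases hi : Even i
      · have hi' : ¬ Even (i + 1) := by
          rw [Nat.even_add_one]; exact not_not.2 hi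
        rw [if_pos hi, if_neg hi']
      · have hi' : Even (i + 1) := by
          rw [Nat.even_add_one]; exact hi
        rw [if_neg hi, if_pos hi', inv_inv]
  have hfin := lhomeo_core q hq.surj E nest F1 F2 U z
    (D.tw (D.base w) z (ρ 0 ((zz 0).1 (n 1)))) ?_ ?_
  · obtain ⟨h, hh⟩ := hfin
    exact ⟨h, _, hh⟩
  · intro i hi
    rw [hE]
    refine ⟨_, adjX_refl D _ _, ?_⟩
    have e1 := hom i
    have e2 := hzi i
    have hi' : ¬ Even (i + 1) := by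
      rw [Nat.even_add_one]; exact not_not.2 hi
    have z1 : zz i = D.base z := by rw [hzz, if_pos hi]
    have z2 : zz (i + 1) = D.base w := by rw [hzz, if_neg hi']
    rw [if_pos hi] at e1
    rw [z1] at e1 e2
    rw [z2] at e2
    have : G i z = (D.tw (D.base w) z (ρ 0 ((zz 0).1 (n 1)))).1 (n i) := by
      rw [hG]
      refine Prod.ext e2 ?_
      show (z.1 (n i)).2 * D.M.r (n i) (ρ i ((D.base z).1 (n (i + 1)))) =
        (z.1 (n i)).2 * D.M.r (n i) (ρ 0 ((zz 0).1 (n 1)))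
      rw [e1]
    rw [this]
    exact adjX_refl D _ _
  · intro i hi
    rw [hE]
    refine ⟨_, adjX_refl D _ _, ?_⟩
    have e1 := hom i
    have e2 := hzi i
    have hi' : Even (i + 1) := by
      rw [Nat.even_add_one]; exact hi
    have z1 : zz i = D.base w := by rw [hzz, if_neg hi]
    have z2 : zz (i + 1) = D.base z := by rw [hzz, if_pos hi']
    rw [if_neg hi] at e1
    rw [z1] at e1 e2
    rw [z2] at e2
    have : G i (D.tw (D.base w) z (ρ 0 ((zz 0).1 (n 1)))) = z.1 (n i) := by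
      rw [hG]
      refine Prod.ext e2 ?_
      show (z.1 (n i)).2 * D.M.r (n i) (ρ 0 ((zz 0).1 (n 1))) *
        D.M.r (n i) (ρ i ((D.base w).1 (n (i + 1)))) = (z.1 (n i)).2
      rw [e1, mul_assoc, ← map_mul, mul_inv_cancel, map_one, mul_one]
    rw [this]
    exact adjX_refl D _ _

end Pool.B595.Bih
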