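import Pool.Agent.B595.Bih.Defs
import Pool.Agent.B595.Bih.JLhomeo
import Pool.Agent.B595.Bih.JDeck
import Pool.Agent.B595.Bih.JMadj
import Pool.Agent.B595.Bih.JMthr

set_option autoImplicit false


namespace Pool.B595.Bih

open Relation

/-! The following statements are already proved elsewhere: use them freely, do not prove them. -/





/-! TARGET: prove this (auxiliary lemmas allowed before it) -/

theorem homog_A (D : Dat) {X : Type} [MetricSpace X] [CompactSpace X] (q : D.Th → X)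
    (hq : IsLim D.adjX D.pX q) (z w : D.Th) (h0 : (z.1 0).1 = (w.1 0).1) :
    ∃ h : X ≃ₜ X, h (q z) = q w := by
  obtain ⟨h1, ω, hh1⟩ := ladder_homeo D q hq z w h0
  have hz : ∀ n, D.M.s n (z.1 (n + 1)).2 = (z.1 n).2 := fun n => congrArg Prod.snd (z.2 n)
  have hw : ∀ n, D.M.s n (w.1 (n + 1)).2 = (w.1 n).2 := fun n => congrArg Prod.snd (w.2 n)
  obtain ⟨h2, hh2⟩ := deck D q hq (fun n => (w.1 n).2 * ((z.1 n).2 * D.M.r n ω)⁻¹)
    (by
      intro n
      show D.M.s n ((w.1 (n + 1)).2 * ((z.1 (n + 1)).2 * D.M.r (n + 1) ω)⁻¹) = _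
      rw [map_mul, map_inv, map_mul, hz, hw, D.M.comp])
    (D.tw (D.base w) z ω) w (fun n => rfl)
    (by
      intro n
      show (w.1 n).2 = (w.1 n).2 * ((z.1 n).2 * D.M.r n ω)⁻¹ * ((z.1 n).2 * D.M.r n ω)
      rw [inv_mul_cancel_right])
  exact ⟨h1.trans h2, by rw [Homeomorph.trans_apply, hh1, hh2]⟩

theorem homog_B (D : Dat) {X : Type} [MetricSpace X] [CompactSpace X] (q : D.Th → X)
    (hq : IsLim D.adjX D.pX q) (z : D.Th) (v' : D.T.V 0) (hv : (D.T.G 0).adj (z.1 0).1 v') :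
    ∃ (h : X ≃ₜ X) (z' : D.Th), h (q z) = q z' ∧ (z'.1 0).1 = v' := by
  obtain ⟨x, y, hx, hy, hadj⟩ := exists_adj_threads D.T 0 _ _ hv
  let X1 : D.Th := D.tw x z 1
  let Y1 : D.Th := D.tw y X1 (D.c (x.1 0) (y.1 0))
  have hP : ∀ (u : Thr D.T.p) n, D.T.P n (u.1 n) = u.1 0 := by
    intro u n
    induction n with
    | zero => rfl
    | succ n ih =>
      show D.T.P n (D.T.p n (u.1 (n + 1))) = _
      rw [u.2 n, ih]
  have hXY : ∀ n, D.adjX n (X1.1 n) (Y1.1 n) := by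
    intro n
    refine ⟨hadj n, ?_⟩
    show (X1.1 n).2 * D.M.r n (D.c (x.1 0) (y.1 0)) =
      (X1.1 n).2 * D.M.r n (D.c (D.T.P n (x.1 n)) (D.T.P n (y.1 n)))
    rw [hP, hP]
  have hq1 : q X1 = q Y1 := by
    refine eq_of_forall_dist_le fun ε hε => ?_
    obtain ⟨n, hn⟩ := hq.small ε hε
    exact (hn _ _ (hXY n)).le
  obtain ⟨h, hh⟩ := homog_A D q hq z X1 hx.symm
  exact ⟨h, Y1, by rw [hh, hq1], hy⟩

theorem homog (D : Dat) {X : Type} [MetricSpace X] [CompactSpace X] (q : D.Th → X)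
    (hq : IsLim D.adjX D.pX q) (z w : D.Th) : ∃ h : X ≃ₜ X, h (q z) = q w := by
  have key : ∀ v, ReflTransGen (D.T.G 0).adj (z.1 0).1 v →
      ∃ (h : X ≃ₜ X) (z' : D.Th), h (q z) = q z' ∧ (z'.1 0).1 = v := by
    intro v hv
    induction hv with
    | refl => exact ⟨Homeomorph.refl X, z, rfl, rfl⟩
    | tail hab hbc ih =>
      obtain ⟨h, z', h1, h2⟩ := ih
      obtain ⟨g, z'', h3, h4⟩ := homog_B D q hq z' _ (by rw [h2]; exact hbc)
      exact ⟨h.trans g, z'', by rw [Homeomorph.trans_apply, h1, h3], h4⟩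
  obtain ⟨h, z', h1, h2⟩ := key _ ((D.T.G 0).conn _ (w.1 0).1)
  obtain ⟨g, h3⟩ := homog_A D q hq z' w h2
  exact ⟨h.trans g, by rw [Homeomorph.trans_apply, h1, h3]⟩

end Pool.B595.Bih
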