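import Pool.Agent.B595.Bih.Defs

set_option autoImplicit false


namespace Pool.B595.Bih

open Relation

/-! TARGET: prove this (auxiliary lemmas allowed before it) -/

theorem lim_connected {V : ℕ → Type} (adj : ∀ n, V n → V n → Prop) (p : ∀ n, V (n + 1) → V n)
    {X : Type} [MetricSpace X] [CompactSpace X] (q : Thr p → X) (hq : IsLim adj p q)
    (ne : Nonempty (Thr p))
    (h : ∀ n (z w : Thr p), ReflTransGen (fun a b : Thr p => adj n (a.1 n) (b.1 n)) z w) :
    ConnectedSpace X := by
  obtain ⟨t0⟩ := ne
  have : PreconnectedSpace X := by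
    rw [preconnectedSpace_iff_clopen]
    intro U hU
    by_contra hcon
    push Not at hcon
    obtain ⟨hne, huniv⟩ := hcon
    obtain ⟨x, hx⟩ := hne
    obtain ⟨y, hy⟩ : ∃ y, y ∉ U := by
      by_contra hc
      push Not at hc
      exact huniv (Set.eq_univ_of_forall hc)
    obtain ⟨z, rfl⟩ := hq.surj x
    obtain ⟨w, rfl⟩ := hq.surj y
    have hd : Disjoint U Uᶜ := disjoint_compl_right
    obtain ⟨δ, hδ, hdis⟩ := hd.exists_thickenings hU.isClosed.isCompact hU.compl.isClosed
    obtain ⟨n, hn⟩ := hq.small δ hδ
    have key : ∀ b, ReflTransGen (fun a b : Thr p => adj n (a.1 n) (b.1 n)) z b → q b ∈ U := by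
      intro b hb
      induction hb with
      | refl => exact hx
      | tail hab hbc ih =>
        rename_i b c
        by_contra hc
        have h1 := hn _ _ hbc
        refine Set.disjoint_left.1 hdis (?_ : q c ∈ _) ?_
        · rw [Metric.mem_thickening_iff]
          exact ⟨q b, ih, by rw [dist_comm]; exact h1⟩
        · exact Metric.self_subset_thickening hδ _ hc
    exact hy (key w (h n z w))
  exact { toNonempty := ⟨q t0⟩ }

end Pool.B595.Bih
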