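import Pool.Agent.B595.Bih.Defs

set_option autoImplicit false


namespace Pool.B595.Bih

open Relation

/-! TARGET: prove this (auxiliary lemmas allowed before it) -/

theorem modulus {V : ℕ → Type} (adj : ∀ n, V n → V n → Prop) (p : ∀ n, V (n + 1) → V n)
    {X : Type} [MetricSpace X] [CompactSpace X] (q : Thr p → X) (hq : IsLim adj p q)
    (h : X → X) (hc : Continuous h) (hh : Thr p → Thr p) (hh' : ∀ z, q (hh z) = h (q z)) :
    ∀ n, ∃ m, ∀ z w : Thr p, adj m (z.1 m) (w.1 m) → adj n ((hh z).1 n) ((hh w).1 n) := by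
  intro n
  obtain ⟨ε, hε, h1⟩ := hq.near n
  have huc : UniformContinuous h := CompactSpace.uniformContinuous_of_continuous hc
  obtain ⟨δ, hδ, h2⟩ := Metric.uniformContinuous_iff.mp huc ε hε
  obtain ⟨m, h3⟩ := hq.small δ hδ
  refine ⟨m, fun z w hzw => h1 _ _ ?_⟩
  rw [hh', hh']
  exact h2 (h3 z w hzw)

end Pool.B595.Bih
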