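import Pool.Agent.B595.Bih.Defs
import Pool.Agent.B595.Bih.JMn
import Pool.Agent.B595.Bih.JMthr
import Pool.Agent.B595.Bih.JMadj
import Pool.Agent.B595.Bih.JBund
import Pool.Agent.B595.Bih.JJn

set_option autoImplicit false


namespace Pool.B595.Bih

open Relation

/-! The following statements are already proved elsewhere: use them freely, do not prove them. -/











/-! TARGET: prove this (auxiliary lemmas allowed before it) -/

theorem ref_surj (T : Tw) (n : ℕ) : Function.Surjective (T.p n) := by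
  intro v
  obtain ⟨x', y', _, h, _⟩ := (T.mor n).edge v v ((T.G n).refl v)
  exact ⟨x', h⟩

theorem ref_level0 (T : Tw) (n : ℕ) (x x' : Thr T.p) (h : x.1 n = x'.1 n) : x.1 0 = x'.1 0 := by
  rw [← P_thread T x n, ← P_thread T x' n, h]

theorem ref_cc_one (D : Dat) (a b : D.Th) (h : (a.1 0).1 = (b.1 0).1) : D.cc a b = 1 := by
  unfold Dat.cc
  rw [h]
  exact D.c1 _

theorem ref_base0 (D : Dat) (n : ℕ) (a b : D.Th) (h : (a.1 n).1 = (b.1 n).1) :
    (a.1 0).1 = (b.1 0).1 :=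
  ref_level0 D.T n (D.base a) (D.base b) h

theorem ref_A_of_eq (D : Dat) (n : ℕ) (a b : D.Th) (h : a.1 n = b.1 n) : D.A n a b := by
  rw [A_iff]
  have h1 : (a.1 n).1 = (b.1 n).1 := by rw [h]
  refine ⟨?_, ?_⟩
  · rw [h1]
    exact (D.T.G n).refl _
  · rw [ref_cc_one D a b (ref_base0 D n a b h1), map_one, mul_one, h]

/-- triangle relation -/
theorem ref_tri (D : Dat) (hh : D.Th → D.Th) (m0 : ℕ)
    (hm0 : ∀ z w, D.A m0 z w → D.A 1 (hh z) (hh w)) (a b z : D.Th) (hab : D.A m0 a b)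
    (ha : a.1 m0 = z.1 m0) (hb : b.1 m0 = z.1 m0) :
    D.cc (hh a) (hh b) * D.cc (hh b) (hh z) = D.cc (hh a) (hh z) := by
  have h := square D (hh a) (hh b) (hh z) (hh z) (hm0 _ _ hab)
    (hm0 _ _ (ref_A_of_eq D m0 z z rfl)) (hm0 _ _ (ref_A_of_eq D m0 a z ha))
    (hm0 _ _ (ref_A_of_eq D m0 b z hb))
  rw [h, ref_cc_one D (hh z) (hh z) rfl, mul_one]

theorem ref_tw_fst (D : Dat) (u : Thr D.T.p) (z : D.Th) (γ : D.M.Γ) (n : ℕ) :
    ((D.tw u z γ).1 n).1 = u.1 n := rfl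

theorem ref_tw_snd (D : Dat) (u : Thr D.T.p) (z : D.Th) (γ : D.M.Γ) (n : ℕ) :
    ((D.tw u z γ).1 n).2 = (z.1 n).2 * D.M.r n γ := rfl

theorem ref_tw_eq (D : Dat) (m0 : ℕ) (x : Thr D.T.p) (y z : D.Th) (hy : y.1 m0 = z.1 m0)
    (hx : x.1 m0 = (z.1 m0).1) : (D.tw x y 1).1 m0 = z.1 m0 := by
  apply Prod.ext
  · exact hx
  · rw [ref_tw_snd, map_one, mul_one, hy]

/-- path in a fibre -/
theorem ref_fibre (D : Dat) (hh : D.Th → D.Th) (m0 J : ℕ) (hJ : m0 ≤ J)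
    (hm0 : ∀ z w, D.A m0 z w → D.A 1 (hh z) (hh w)) (y z : D.Th) (hy : y.1 m0 = z.1 m0)
    (x : Thr D.T.p) (hx : x.1 m0 = (z.1 m0).1) :
    ∃ δ, Jn (D.A J) D.cc (fun a b => D.cc (hh a) (hh b)) y (D.tw x y 1) 1 δ ∧
      δ * D.cc (hh (D.tw x y 1)) (hh z) = D.cc (hh y) (hh z) := by
  obtain ⟨P, hP, hPx⟩ := proj D.T m0 J hJ
  have hyP : P (y.1 J).1 = (z.1 m0).1 := by
    have h := hPx (D.base y)
    have h2 : P (y.1 J).1 = (y.1 m0).1 := h
    rw [h2, hy]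
  have hxP : P (x.1 J) = (z.1 m0).1 := by rw [hPx x, hx]
  have hcin := hP.con (y.1 J).1 (x.1 J) (by rw [hyP, hxP])
  have key : ∀ v, CIn (D.T.G J) (P ⁻¹' {P (y.1 J).1}) (y.1 J).1 v →
      ∀ x' : Thr D.T.p, x'.1 J = v → P v = (z.1 m0).1 →
      ∃ δ, Jn (D.A J) D.cc (fun a b => D.cc (hh a) (hh b)) y (D.tw x' y 1) 1 δ ∧
      δ * D.cc (hh (D.tw x' y 1)) (hh z) = D.cc (hh y) (hh z) := by
    intro v hv
    induction hv with
    | refl =>
      intro x' hx' _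
      have hx'm : x'.1 m0 = (z.1 m0).1 := by rw [← hPx x', hx', hyP]
      have h0 : (y.1 0).1 = ((D.tw x' y 1).1 0).1 := by
        apply ref_base0 D J
        rw [ref_tw_fst, hx']
      have hcc : D.cc y (D.tw x' y 1) = 1 := ref_cc_one D _ _ h0
      have hA : D.A J y (D.tw x' y 1) := by
        rw [A_iff]
        refine ⟨?_, ?_⟩
        · rw [ref_tw_fst, hx']
          exact (D.T.G J).refl _
        · rw [ref_tw_snd, hcc]
      have hj := Jn.cons (c' := fun a b => D.cc (hh a) (hh b)) y (D.tw x' y 1) (D.tw x' y 1) 1 1 hA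
        (Jn.nil (R := D.A J) (c := D.cc) (c' := fun a b => D.cc (hh a) (hh b)) (D.tw x' y 1))
      rw [hcc, mul_one, mul_one] at hj
      refine ⟨_, hj, ?_⟩
      exact ref_tri D hh m0 hm0 y (D.tw x' y 1) z (A_mono D m0 J hJ _ _ hA) hy
        (ref_tw_eq D m0 x' y z hy hx'm)
    | tail hab hbc ih =>
      rename_i b c
      intro x' hx' hPc
      obtain ⟨hb, hc, hadj⟩ := hbc
      have hPb : P b = (z.1 m0).1 := by
        have h1 : P b = P (y.1 J).1 := hb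
        rw [h1, hyP]
      obtain ⟨xb, hxb⟩ := exists_thread D.T.p (ref_surj D.T) J b
      obtain ⟨δ, hδ1, hδ2⟩ := ih xb hxb hPb
      have hxbm : xb.1 m0 = (z.1 m0).1 := by rw [← hPx xb, hxb, hPb]
      have hx'm : x'.1 m0 = (z.1 m0).1 := by rw [← hPx x', hx', hPc]
      have h0 : ((D.tw xb y 1).1 0).1 = ((D.tw x' y 1).1 0).1 := by
        apply ref_base0 D m0
        rw [ref_tw_fst, ref_tw_fst, hxbm, hx'm]
      have hcc : D.cc (D.tw xb y 1) (D.tw x' y 1) = 1 := ref_cc_one D _ _ h0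
      have hA : D.A J (D.tw xb y 1) (D.tw x' y 1) := by
        rw [A_iff]
        refine ⟨?_, ?_⟩
        · rw [ref_tw_fst, ref_tw_fst, hxb, hx']
          exact hadj
        · rw [ref_tw_snd, ref_tw_snd, hcc, map_one, mul_one, mul_one]
      have hj := Jn.cons (c' := fun a b => D.cc (hh a) (hh b)) (D.tw xb y 1) (D.tw x' y 1)
        (D.tw x' y 1) 1 1 hA
        (Jn.nil (R := D.A J) (c := D.cc) (c' := fun a b => D.cc (hh a) (hh b)) (D.tw x' y 1))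
      have hj2 := Jn.trans hδ1 hj
      rw [hcc, mul_one, mul_one, mul_one] at hj2
      refine ⟨_, hj2, ?_⟩
      rw [mul_assoc, ref_tri D hh m0 hm0 (D.tw xb y 1) (D.tw x' y 1) z
        (A_mono D m0 J hJ _ _ hA) (ref_tw_eq D m0 xb y z hy hxbm)
        (ref_tw_eq D m0 x' y z hy hx'm), hδ2]
  exact key (x.1 J) hcin x rfl hxP

theorem ref (D : Dat) (hh : D.Th → D.Th) (m0 J : ℕ) (hJ : m0 ≤ J)
    (hm0 : ∀ z w, D.A m0 z w → D.A 1 (hh z) (hh w)) (z z'' : D.Th) (γ γ' : D.M.Γ)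
    (h : Jn (D.A m0) D.cc (fun a b => D.cc (hh a) (hh b)) z z'' γ γ')
    (y : D.Th) (hy : y.1 m0 = z.1 m0) (u : Thr D.T.p) (hu : u.1 m0 = (z''.1 m0).1) :
    ∃ γJ, Jn (D.A J) D.cc (fun a b => D.cc (hh a) (hh b)) y (D.tw u y γ) γ γJ ∧
      γJ * D.cc (hh (D.tw u y γ)) (hh z'') = D.cc (hh y) (hh z) * γ' := by
  induction h generalizing y with
  | nil z =>
    obtain ⟨δ, h1, h2⟩ := ref_fibre D hh m0 J hJ hm0 y z hy u hu
    exact ⟨δ, h1, by rw [h2, mul_one]⟩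
  | cons z w v γ γ' hzw hrest ih =>
    obtain ⟨P, hP, hPx⟩ := proj D.T m0 J hJ
    have hzw' := (A_iff D m0 z w).1 hzw
    obtain ⟨e, e', hee, hPe, hPe'⟩ := hP.edge _ _ hzw'.1
    obtain ⟨x1, x2, hx1, hx2, _⟩ := exists_adj_threads D.T J e e' hee
    have hx1m : x1.1 m0 = (z.1 m0).1 := by rw [← hPx x1, hx1, hPe]
    have hx2m : x2.1 m0 = (w.1 m0).1 := by rw [← hPx x2, hx2, hPe']
    obtain ⟨δ1, hδ1, hδ2⟩ := ref_fibre D hh m0 J hJ hm0 y z hy x1 hx1m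
    have hcc : D.cc (D.tw x1 y 1) (D.tw x2 y (D.cc z w)) = D.cc z w := by
      have h1 : x1.1 0 = (z.1 0).1 := ref_level0 D.T m0 x1 (D.base z) hx1m
      have h2 : x2.1 0 = (w.1 0).1 := ref_level0 D.T m0 x2 (D.base w) hx2m
      show D.c (x1.1 0) (x2.1 0) = D.c (z.1 0).1 (w.1 0).1
      rw [h1, h2]
    have hA : D.A J (D.tw x1 y 1) (D.tw x2 y (D.cc z w)) := by
      rw [A_iff]
      refine ⟨?_, ?_⟩
      · rw [ref_tw_fst, ref_tw_fst, hx1, hx2]
        exact hee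
      · rw [ref_tw_snd, ref_tw_snd, hcc, map_one, mul_one]
    have hy2 : (D.tw x2 y (D.cc z w)).1 m0 = w.1 m0 := by
      apply Prod.ext
      · exact hx2m
      · rw [ref_tw_snd, hy]
        exact hzw'.2.symm
    obtain ⟨γr, hr1, hr2⟩ := ih (D.tw x2 y (D.cc z w)) hy2 hu
    have htw : D.tw u (D.tw x2 y (D.cc z w)) γ = D.tw u y (D.cc z w * γ) := by
      apply Subtype.ext
      funext n
      apply Prod.ext
      · rfl
      · rw [ref_tw_snd, ref_tw_snd, ref_tw_snd, map_mul, mul_assoc]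
    rw [htw] at hr1 hr2
    have hj := Jn.trans hδ1 (Jn.cons (c' := fun a b => D.cc (hh a) (hh b)) (D.tw x1 y 1)
      (D.tw x2 y (D.cc z w)) (D.tw u y (D.cc z w * γ)) γ γr hA hr1)
    rw [hcc, one_mul] at hj
    refine ⟨_, hj, ?_⟩
    have hy1 : (D.tw x1 y 1).1 m0 = z.1 m0 := ref_tw_eq D m0 x1 y z hy hx1m
    have hsq := square D (hh (D.tw x1 y 1)) (hh (D.tw x2 y (D.cc z w))) (hh z) (hh w)
      (hm0 _ _ (A_mono D m0 J hJ _ _ hA)) (hm0 _ _ hzw)
      (hm0 _ _ (ref_A_of_eq D m0 _ _ hy1)) (hm0 _ _ (ref_A_of_eq D m0 _ _ hy2))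
    calc δ1 * (D.cc (hh (D.tw x1 y 1)) (hh (D.tw x2 y (D.cc z w))) * γr) *
          D.cc (hh (D.tw u y (D.cc z w * γ))) (hh v)
        = δ1 * (D.cc (hh (D.tw x1 y 1)) (hh (D.tw x2 y (D.cc z w))) *
          (γr * D.cc (hh (D.tw u y (D.cc z w * γ))) (hh v))) := by
          simp only [mul_assoc]
      _ = δ1 * ((D.cc (hh (D.tw x1 y 1)) (hh (D.tw x2 y (D.cc z w))) *
          D.cc (hh (D.tw x2 y (D.cc z w))) (hh w)) * γ') := by
          rw [hr2]
          simp only [mul_assoc]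
      _ = (δ1 * D.cc (hh (D.tw x1 y 1)) (hh z)) * (D.cc (hh z) (hh w) * γ') := by
          rw [hsq]
          simp only [mul_assoc]
      _ = D.cc (hh y) (hh z) * (D.cc (hh z) (hh w) * γ') := by rw [hδ2]

end Pool.B595.Bih
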