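import Pool.Agent.B595.Bih.Defs
import Pool.Agent.B595.Bih.JRef
import Pool.Agent.B595.Bih.JJn
import Pool.Agent.B595.Bih.JBund

set_option autoImplicit false


namespace Pool.B595.Bih

open Relation

/-! The following statements are already proved elsewhere: use them freely, do not prove them. -/





/-! TARGET: prove this (auxiliary lemmas allowed before it) -/

theorem P1 (D : Dat) (hh : D.Th → D.Th)
    (hmod : ∀ n, ∃ m, ∀ z w, D.A m z w → D.A n (hh z) (hh w)) (m0 : ℕ)
    (hm0 : ∀ z w, D.A m0 z w → D.A 1 (hh z) (hh w)) (z : D.Th) (γ' : D.M.Γ)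
    (h : Jn (D.A m0) D.cc (fun a b => D.cc (hh a) (hh b)) z z 1 γ') : γ' = 1 := by
  apply D.M.sep
  intro j
  obtain ⟨m, hm⟩ := hmod j
  obtain ⟨γJ, h1, h2⟩ := ref D hh m0 (max m m0) (le_max_right _ _) hm0 z z 1 γ' h z rfl
    (D.base z) rfl
  have htw : D.tw (D.base z) z 1 = z := by
    apply Subtype.ext
    funext n
    refine Prod.ext rfl ?_
    show (z.1 n).2 * D.M.r n 1 = (z.1 n).2
    rw [map_one, mul_one]
  have hcc : D.cc (hh z) (hh z) = 1 := D.c1 _
  rw [htw] at h1 h2
  rw [hcc, mul_one, one_mul] at h2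
  rw [h2] at h1
  have h3 := mon_level D j hh (D.A (max m m0))
    (fun a b hab => hm a b (A_mono D m (max m m0) (le_max_left _ _) a b hab)) D.cc z z 1 γ' h1
  have h4 : ((hh z).1 j).2 * D.M.r j γ' = ((hh z).1 j).2 * 1 := by
    rw [← h3, mul_one]
  exact mul_left_cancel h4

end Pool.B595.Bih
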