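import Pool.Agent.B595.Bih.Defs
import Pool.Agent.B595.Bih.JP1
import Pool.Agent.B595.Bih.JM3
import Pool.Agent.B595.Bih.JJn
import Pool.Agent.B595.Bih.JBund

set_option autoImplicit false


namespace Pool.B595.Bih

open Relation

/-! The following statements are already proved elsewhere: use them freely, do not prove them. -/









/-! TARGET: prove this (auxiliary lemmas allowed before it) -/

theorem star_e_one (M : Mono) : M.e 1 = 0 := by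
  have := M.e_mul 1 1
  rw [mul_one] at this
  linarith

theorem star_e_inv (M : Mono) (x : M.Γ) : M.e x⁻¹ = - M.e x := by
  have := M.e_mul x x⁻¹
  rw [mul_inv_cancel, star_e_one] at this
  linarith

theorem star_e_pow (M : Mono) (x : M.Γ) (k : ℕ) : M.e (x ^ k) = k * M.e x := by
  induction k with
  | zero => rw [pow_zero, star_e_one]; simp
  | succ k ih => rw [pow_succ, M.e_mul, ih]; push_cast; ring

theorem star_cc_mul (D : Dat) (z w : D.Th) : D.cc z w * D.cc w z = 1 := D.c2 _ _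

theorem star_A_symm (D : Dat) (n : ℕ) (z w : D.Th) (h : D.A n z w) : D.A n w z := by
  rw [A_iff] at h ⊢
  refine ⟨(D.T.G n).symm _ _ h.1, ?_⟩
  rw [h.2, mul_assoc, ← map_mul, star_cc_mul, map_one, mul_one]

theorem star_symm (D : Dat) (hh : D.Th → D.Th) (m : ℕ) {x y : D.Th} {γ γ' : D.M.Γ}
    (h : Jn (D.A m) D.cc (fun a b => D.cc (hh a) (hh b)) x y γ γ') :
    Jn (D.A m) D.cc (fun a b => D.cc (hh a) (hh b)) y x γ⁻¹ γ'⁻¹ :=
  Jn.symm (star_A_symm D m) (star_cc_mul D) (fun a b => star_cc_mul D (hh a) (hh b)) h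

theorem star_close (D : Dat) (hh : D.Th → D.Th) (m : ℕ) (x : D.Th) (hx : (x.1 0).1 = D.o)
    (γ : D.M.Γ) (hγ : γ ∈ Subgroup.closure {D.M.a, D.M.t}) (hr : D.M.r m γ = 1) :
    ∃ γ', Jn (D.A m) D.cc (fun a b => D.cc (hh a) (hh b)) x x γ γ' := by
  obtain ⟨γ1, h1⟩ := M3 D m (fun a b => D.cc (hh a) (hh b)) x hx γ hγ
  have hcc : D.cc (D.tw (D.base x) x γ) x = 1 := D.c1 _
  have hA : D.A m (D.tw (D.base x) x γ) x := by
    rw [A_iff]
    refine ⟨(D.T.G m).refl _, ?_⟩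
    rw [hcc, map_one, mul_one]
    change (x.1 m).2 = (x.1 m).2 * D.M.r m γ
    rw [hr, mul_one]
  have h2 := Jn.trans h1 (Jn.cons _ _ _ _ _ hA (Jn.nil x))
  rw [hcc, mul_one, mul_one] at h2
  exact ⟨_, h2⟩

theorem star_pow (D : Dat) (hh : D.Th → D.Th) (m : ℕ) {x : D.Th} {γ γ' : D.M.Γ}
    (h : Jn (D.A m) D.cc (fun a b => D.cc (hh a) (hh b)) x x γ γ') (k : ℕ) :
    Jn (D.A m) D.cc (fun a b => D.cc (hh a) (hh b)) x x (γ ^ k) (γ' ^ k) := by
  induction k with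
  | zero => rw [pow_zero, pow_zero]; exact Jn.nil x
  | succ k ih => rw [pow_succ, pow_succ]; exact Jn.trans ih h

theorem star_uniq (D : Dat) (hh : D.Th → D.Th)
    (hmod : ∀ n, ∃ m, ∀ z w, D.A m z w → D.A n (hh z) (hh w)) (m0 : ℕ)
    (hm0 : ∀ z w, D.A m0 z w → D.A 1 (hh z) (hh w)) {x : D.Th} {γ γ1 γ2 : D.M.Γ}
    (h1 : Jn (D.A m0) D.cc (fun a b => D.cc (hh a) (hh b)) x x γ γ1)
    (h2 : Jn (D.A m0) D.cc (fun a b => D.cc (hh a) (hh b)) x x γ γ2) : γ1 = γ2 := by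
  have h3 := Jn.trans h1 (star_symm D hh m0 h2)
  rw [mul_inv_cancel] at h3
  exact mul_inv_eq_one.1 (P1 D hh hmod m0 hm0 x _ h3)

theorem star_map (D : Dat) (hh kk : D.Th → D.Th) (hk : ∀ z n, D.A n (kk (hh z)) z) (m1 m2 : ℕ)
    (hm2 : 1 ≤ m2) (hk1 : ∀ z w, D.A m1 z w → D.A 1 (kk z) (kk w))
    (hh1 : ∀ z w, D.A m2 z w → D.A m1 (hh z) (hh w)) {x y : D.Th} {γ γ' : D.M.Γ}
    (h : Jn (D.A m2) D.cc (fun a b => D.cc (hh a) (hh b)) x y γ γ') :
    ∃ γ'', Jn (D.A m1) D.cc (fun a b => D.cc (kk a) (kk b)) (hh x) (hh y) γ' γ'' ∧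
      γ'' * D.cc (kk (hh y)) y = D.cc (kk (hh x)) x * γ := by
  induction h with
  | nil z => exact ⟨1, Jn.nil _, by rw [one_mul, mul_one]⟩
  | cons z w v γ γ' hA _ ih =>
    obtain ⟨γ'', h1, h2⟩ := ih
    refine ⟨D.cc (kk (hh z)) (kk (hh w)) * γ'', Jn.cons (hh z) (hh w) (hh v) _ _ (hh1 _ _ hA) h1, ?_⟩
    rw [mul_assoc, h2, ← mul_assoc,
      square D (kk (hh z)) (kk (hh w)) z w (hk1 _ _ (hh1 _ _ hA)) (A_mono D 1 m2 hm2 _ _ hA)
        (hk z 1) (hk w 1), mul_assoc]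

theorem star_conj (D : Dat) (hh : D.Th → D.Th)
    (hmod : ∀ n, ∃ m, ∀ z w, D.A m z w → D.A n (hh z) (hh w)) (m0 : ℕ)
    (hm0 : ∀ z w, D.A m0 z w → D.A 1 (hh z) (hh w)) {x : D.Th} {N : ℕ} {b γ γ' : D.M.Γ}
    (hb : Jn (D.A m0) D.cc (fun a b => D.cc (hh a) (hh b)) x x (D.M.a ^ N) b)
    (h : Jn (D.A m0) D.cc (fun a b => D.cc (hh a) (hh b)) x x γ γ') (he : 0 ≤ D.M.e γ) :
    γ' * b * γ'⁻¹ = b ^ (2 ^ (D.M.e γ).toNat) := by
  have h1 := Jn.trans (Jn.trans h hb) (star_symm D hh m0 h)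
  rw [D.M.conj γ he N, pow_mul] at h1
  exact star_uniq D hh hmod m0 hm0 h1 (star_pow D hh m0 hb _)

theorem star (D : Dat) (hh kk : D.Th → D.Th)
    (hmod : ∀ n, ∃ m, ∀ z w, D.A m z w → D.A n (hh z) (hh w))
    (kmod : ∀ n, ∃ m, ∀ z w, D.A m z w → D.A n (kk z) (kk w))
    (hk : ∀ z n, D.A n (kk (hh z)) z) (m0 : ℕ)
    (hm0 : ∀ z w, D.A m0 z w → D.A 1 (hh z) (hh w)) (x : D.Th) (hx : (x.1 0).1 = D.o)
    (γ γ' : D.M.Γ) (h : Jn (D.A m0) D.cc (fun a b => D.cc (hh a) (hh b)) x x γ γ') :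
    D.M.e γ' = D.M.e γ := by
  have hacl : ∀ k : ℕ, D.M.a ^ k ∈ Subgroup.closure {D.M.a, D.M.t} := fun k =>
    Subgroup.pow_mem _ (Subgroup.subset_closure (by simp)) k
  have htcl : ∀ k : ℕ, D.M.t ^ k ∈ Subgroup.closure {D.M.a, D.M.t} := fun k =>
    Subgroup.pow_mem _ (Subgroup.subset_closure (by simp)) k
  obtain ⟨b, hb⟩ := star_close D hh m0 x hx _ (hacl (3 ^ m0)) (D.M.a_ker m0)
  -- b is not trivial
  have hb1 : b ≠ 1 := by
    intro hb1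
    obtain ⟨ma, hma⟩ := kmod 1
    obtain ⟨m1, hm1⟩ : ∃ m1, m1 = max ma 1 := ⟨_, rfl⟩
    have hk1 : ∀ z w, D.A m1 z w → D.A 1 (kk z) (kk w) := fun z w hA =>
      hma z w (A_mono D ma m1 (by rw [hm1]; exact le_max_left _ _) z w hA)
    obtain ⟨mb, hmb⟩ := hmod m1
    obtain ⟨m2, hm2⟩ : ∃ m2, m2 = max (max mb m0) 1 := ⟨_, rfl⟩
    have hm2b : mb ≤ m2 := by rw [hm2]; exact le_max_of_le_left (le_max_left _ _)
    have hm20 : m0 ≤ m2 := by rw [hm2]; exact le_max_of_le_left (le_max_right _ _)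
    have hm21 : 1 ≤ m2 := by rw [hm2]; exact le_max_right _ _
    have hh1 : ∀ z w, D.A m2 z w → D.A m1 (hh z) (hh w) := fun z w hA =>
      hmb z w (A_mono D mb m2 hm2b z w hA)
    obtain ⟨β, hβ⟩ := star_close D hh m2 x hx _ (hacl (3 ^ m2)) (D.M.a_ker m2)
    have hβ0 : Jn (D.A m0) D.cc (fun a b => D.cc (hh a) (hh b)) x x (D.M.a ^ (3 ^ m2)) β :=
      Jn.mono (fun z w hA => A_mono D m0 m2 hm20 z w hA) hβ
    have hpow := star_pow D hh m0 hb (3 ^ (m2 - m0))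
    have h3 : 3 ^ m0 * 3 ^ (m2 - m0) = 3 ^ m2 := by
      rw [← pow_add]
      congr 1
      omega
    rw [← pow_mul, h3] at hpow
    have hβb := star_uniq D hh hmod m0 hm0 hβ0 hpow
    rw [hb1, one_pow] at hβb
    obtain ⟨γ'', h4, h5⟩ := star_map D hh kk hk m1 m2 hm21 hk1 hh1 hβ
    rw [hβb] at h4
    have h6 := P1 D kk kmod m1 hk1 (hh x) γ'' h4
    rw [h6, one_mul] at h5
    have h7 : D.M.a ^ (3 ^ m2) = 1 := by
      have h8 : D.cc (kk (hh x)) x * 1 = D.cc (kk (hh x)) x * D.M.a ^ 3 ^ m2 := by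
        rw [mul_one]; exact h5
      exact (mul_left_cancel h8).symm
    exact D.M.a_inf _ (by positivity) h7
  -- e b = 0
  have heb : D.M.e b = 0 := by
    obtain ⟨j, hj, hjr⟩ := D.M.t_ker m0
    obtain ⟨τ, hτ⟩ := star_close D hh m0 x hx _ (htcl j) hjr
    have hej : D.M.e (D.M.t ^ j) = j := by rw [star_e_pow, D.M.e_t, mul_one]
    have h1 := star_conj D hh hmod m0 hm0 hb hτ (by rw [hej]; positivity)
    rw [hej, Int.toNat_natCast] at h1
    have h2 := congrArg D.M.e h1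
    rw [D.M.e_mul, D.M.e_mul, star_e_inv, star_e_pow] at h2
    have h3 : (2 : ℤ) ≤ ((2 ^ j : ℕ) : ℤ) := by
      push_cast
      calc (2 : ℤ) = 2 ^ 1 := by norm_num
        _ ≤ 2 ^ j := pow_le_pow_right₀ (by norm_num) hj
    have h4 : (((2 ^ j : ℕ) : ℤ) - 1) * D.M.e b = 0 := by linarith
    rcases mul_eq_zero.1 h4 with h5 | h5
    · omega
    · exact h5
  have main : ∀ γ γ' : D.M.Γ, Jn (D.A m0) D.cc (fun a b => D.cc (hh a) (hh b)) x x γ γ' →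
      0 ≤ D.M.e γ → D.M.e γ' = D.M.e γ := by
    intro γ γ' h he
    have h1 := star_conj D hh hmod m0 hm0 hb h he
    have h2 := D.M.rig b γ' _ hb1 heb h1
    rw [h2, Int.toNat_of_nonneg he]
  rcases le_or_gt 0 (D.M.e γ) with he | he
  · exact main γ γ' h he
  · have h1 := main _ _ (star_symm D hh m0 h) (by rw [star_e_inv]; linarith)
    rw [star_e_inv, star_e_inv] at h1
    linarith

end Pool.B595.Bih
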