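import Pool.Agent.B595.Bih.Defs
import Pool.Agent.B595.Bih.JStar
import Pool.Agent.B595.Bih.JM3
import Pool.Agent.B595.Bih.JJn
import Pool.Agent.B595.Bih.JBund

set_option autoImplicit false


namespace Pool.B595.Bih

open Relation

/-! The following statements are already proved elsewhere: use them freely, do not prove them. -/









/-! TARGET: prove this (auxiliary lemmas allowed before it) -/

theorem noswap_desc (M : Mono) (n m : ℕ) (h : n ≤ m) (γ : M.Γ) (hg : M.r m γ = M.g m) :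
    M.r n γ = M.g n := by
  induction m, h using Nat.le_induction with
  | base => exact hg
  | succ m hm ih =>
    apply ih
    rw [← M.comp, hg, M.g_comp]

theorem noswap_e_one (M : Mono) : M.e 1 = 0 := by
  have h := M.e_mul 1 1
  rw [mul_one] at h
  linarith

theorem noswap_e_inv (M : Mono) (x : M.Γ) : M.e x⁻¹ = - M.e x := by
  have h := M.e_mul x x⁻¹
  rw [mul_inv_cancel, noswap_e_one] at h
  linarith

theorem noswap_e_pow (M : Mono) (k : ℕ) : M.e (M.t ^ k) = k := by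
  induction k with
  | zero => rw [pow_zero, noswap_e_one]; rfl
  | succ k ih => rw [pow_succ, M.e_mul, ih, M.e_t]; push_cast; ring

theorem noswap_symmA (D : Dat) (m : ℕ) (z w : D.Th) (h : D.A m z w) : D.A m w z := by
  rw [A_iff] at h ⊢
  refine ⟨(D.T.G m).symm _ _ h.1, ?_⟩
  rw [h.2, mul_assoc, ← map_mul]
  have : D.cc z w * D.cc w z = 1 := D.c2 _ _
  rw [this, map_one, mul_one]

theorem noswap_step (D : Dat) (hh : D.Th → D.Th)
    (hmod : ∀ n, ∃ m, ∀ z w, D.A m z w → D.A n (hh z) (hh w)) (x y : D.Th)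
    (hx : (x.1 0).1 = D.o)
    (hx1 : ∀ n, (x.1 n).2 = 1) (hy1 : ∀ n, (y.1 n).1 = (x.1 n).1)
    (hy2 : ∀ n, (y.1 n).2 = D.M.g n) (m0 n : ℕ) :
    ∃ (m : ℕ) (k : ℕ) (γ' : D.M.Γ), m0 ≤ m ∧ D.M.r n (D.M.t ^ k) = D.M.g n ∧
      (∀ z w, D.A m z w → D.A n (hh z) (hh w)) ∧
      Jn (D.A m) D.cc (fun a b => D.cc (hh a) (hh b)) x y (D.M.t ^ k) γ' := by
  obtain ⟨m1, hm1⟩ := hmod n
  obtain ⟨k, hk⟩ := D.M.g_t (max m0 (max n m1))
  have hmem : D.M.t ^ k ∈ Subgroup.closure {D.M.a, D.M.t} :=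
    Subgroup.pow_mem _ (Subgroup.subset_closure (by simp)) k
  obtain ⟨γ', hJ⟩ := M3 D (max m0 (max n m1)) (fun a b => D.cc (hh a) (hh b)) x hx
    (D.M.t ^ k) hmem
  have hcc : D.cc (D.tw (D.base x) x (D.M.t ^ k)) y = 1 := by
    have h : D.cc (D.tw (D.base x) x (D.M.t ^ k)) y = D.c (x.1 0).1 (y.1 0).1 := rfl
    rw [h, hy1 0, D.c1]
  have hA : D.A (max m0 (max n m1)) (D.tw (D.base x) x (D.M.t ^ k)) y := by
    rw [A_iff, hcc, map_one, mul_one, hy1, hy2]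
    refine ⟨(D.T.G _).refl _, ?_⟩
    show D.M.g _ = (x.1 _).2 * D.M.r _ (D.M.t ^ k)
    rw [hx1, one_mul, hk]
  have hJ2 := Jn.trans hJ (Jn.cons _ _ _ _ _ hA (Jn.nil y))
  rw [hcc, mul_one, mul_one] at hJ2
  refine ⟨max m0 (max n m1), k, _, le_max_left _ _, ?_, ?_, hJ2⟩
  · exact noswap_desc D.M n _ (le_trans (le_max_left _ _) (le_max_right _ _)) _ hk
  · intro z w hzw
    exact hm1 z w (A_mono D _ _ (le_trans (le_max_right _ _) (le_max_right _ _)) z w hzw)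


theorem no_swap (D : Dat) (hh kk : D.Th → D.Th)
    (hmod : ∀ n, ∃ m, ∀ z w, D.A m z w → D.A n (hh z) (hh w))
    (kmod : ∀ n, ∃ m, ∀ z w, D.A m z w → D.A n (kk z) (kk w))
    (hk : ∀ z n, D.A n (kk (hh z)) z) (x y : D.Th) (hx : (x.1 0).1 = D.o)
    (hx1 : ∀ n, (x.1 n).2 = 1) (hy1 : ∀ n, (y.1 n).1 = (x.1 n).1)
    (hy2 : ∀ n, (y.1 n).2 = D.M.g n) (h1 : ∀ n, D.A n y (hh x)) (h2 : ∀ n, D.A n (hh y) x) :
    False := by
  obtain ⟨m0, hm0⟩ := hmod 1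
  have hstep := noswap_step D hh hmod x y hx hx1 hy1 hy2 m0
  obtain ⟨m1, k1, γ1, hm1, -, -, hJ1⟩ := hstep 1
  obtain ⟨n, hn⟩ := D.M.fin (D.M.e (D.cc y (hh x)) + D.M.e (D.cc (hh y) x) + (D.M.e γ1 - k1))
  obtain ⟨m, k, γ', hm, hk', hmm, hJ⟩ := hstep n
  have hsym : Jn (D.A m0) D.cc (fun a b => D.cc (hh a) (hh b)) y x (D.M.t ^ k1)⁻¹ γ1⁻¹ := by
    refine Jn.symm (noswap_symmA D m0) (fun a b => D.c2 _ _) (fun a b => D.c2 _ _) ?_
    exact Jn.mono (fun a b h => A_mono D m0 m1 hm1 a b h) hJ1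
  have hclosed := Jn.trans (Jn.mono (fun a b h => A_mono D m0 m hm a b h) hJ) hsym
  have he := star D hh kk hmod kmod hk m0 hm0 x hx _ _ hclosed
  rw [D.M.e_mul, D.M.e_mul, noswap_e_inv, noswap_e_inv, noswap_e_pow, noswap_e_pow] at he
  have hmon := mon_level D n hh (D.A m) hmm D.cc x y _ _ hJ
  have h1' := ((A_iff D n _ _).1 (h1 n)).2
  have h2' := ((A_iff D n _ _).1 (h2 n)).2
  refine hn (D.cc y (hh x) * γ' * D.cc (hh y) x) k ?_ ?_ ?_
  · rw [zpow_natCast]; exact hk'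
  · rw [hx1, hmon, h1', hy2] at h2'
    rw [map_mul, map_mul, ← mul_assoc, ← mul_assoc]
    exact h2'.symm
  · rw [D.M.e_mul, D.M.e_mul]
    linarith

end Pool.B595.Bih
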