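import Pool.Agent.B595.Bih.JLimit
import Pool.Agent.B595.Bih.JMthr
import Pool.Agent.B595.Bih.JBund
import Pool.Agent.B595.Bih.JHomog
import Pool.Agent.B595.Bih.JChconn
import Pool.Agent.B595.Bih.JLimconn
import Pool.Agent.B595.Bih.JDim
import Pool.Agent.B595.Bih.JModul
import Pool.Agent.B595.Bih.JNoswap
import Pool.Agent.B595.Bih.JDat

set_option autoImplicit false

namespace Pool.B595.Bih

theorem exists_space : ∃ (X : Type) (_ : TopologicalSpace X),
      CompactSpace X ∧ ConnectedSpace X ∧ TopologicalSpace.MetrizableSpace X ∧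
      Nontrivial X ∧
      (∀ (n : ℕ) (U : Fin n → Set X), (∀ i, IsOpen (U i)) → (⋃ i, U i) = Set.univ →
        ∃ (m : ℕ) (V : Fin m → Set X), (∀ j, IsOpen (V j)) ∧ (⋃ j, V j) = Set.univ ∧
          (∀ j, ∃ i, V j ⊆ U i) ∧
          ∀ (x : X) (a b c : Fin m), x ∈ V a → x ∈ V b → x ∈ V c →
            a = b ∨ a = c ∨ b = c) ∧
      (∀ x y : X, ∃ h : X ≃ₜ X, h x = y) ∧
      ¬ (∀ x y : X, ∃ h : X ≃ₜ X, h x = y ∧ h y = x) := by
  obtain ⟨D, v, w, hvw⟩ := dat_exists
  obtain ⟨X, mX, cX, q, hq⟩ := limit (finX D) D.adjX (adjX_refl D) (adjX_symm D) D.pX (adjX_con D)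
  have surj : ∀ n, Function.Surjective (D.T.p n) := by
    intro n v
    obtain ⟨x, _, _, hx, _⟩ := (D.T.mor n).edge v v ((D.T.G n).refl v)
    exact ⟨x, hx⟩
  -- a thread over every base thread
  have one : ∀ u : Thr D.T.p, ∃ z : D.Th, (∀ n, (z.1 n).1 = u.1 n) ∧ ∀ n, (z.1 n).2 = 1 := by
    intro u
    refine ⟨⟨fun n => (u.1 n, 1), fun n => Prod.ext (u.2 n) (map_one _)⟩, fun n => rfl, fun n => rfl⟩
  have key : ∀ (z z' : D.Th), q z = q z' → ∀ n, D.A n z z' := by
    intro z z' h n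
    obtain ⟨ε, hε, hn⟩ := hq.near n
    apply hn
    rw [h, dist_self]
    exact hε
  obtain ⟨u0, hu0⟩ := exists_thread D.T.p surj 0 D.o
  obtain ⟨x0, hx0, hx1⟩ := one u0
  refine ⟨X, inferInstance, cX, ?_, inferInstance, ?_, ?_, ?_, ?_⟩
  · exact lim_connected D.adjX D.pX q hq ⟨x0⟩ (chain_conn D)
  · obtain ⟨u, hu⟩ := exists_thread D.T.p surj 0 v
    obtain ⟨u', hu'⟩ := exists_thread D.T.p surj 0 w
    obtain ⟨z, hz, _⟩ := one u
    obtain ⟨z', hz', _⟩ := one u'
    refine ⟨⟨q z, q z', ?_⟩⟩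
    intro h
    have h1 := (key z z' h 0).1
    rw [hz, hz', hu, hu'] at h1
    exact hvw h1
  · intro n U hU hc
    exact dim_one (finX D) D.adjX (adjX_refl D) (adjX_symm D) D.pX (adjX_con D) (adjX_tri D) q hq
      n U hU hc
  · intro x y
    obtain ⟨x, rfl⟩ := hq.surj x
    obtain ⟨y, rfl⟩ := hq.surj y
    exact homog D q hq x y
  · intro H
    let y0 : D.Th := ⟨fun n => (u0.1 n, D.M.g n), fun n => Prod.ext (u0.2 n) (D.M.g_comp n)⟩
    obtain ⟨h, h1, h2⟩ := H (q x0) (q y0)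
    choose hh hhh using fun z : D.Th => hq.surj (h (q z))
    choose kk kkk using fun z : D.Th => hq.surj (h.symm (q z))
    refine no_swap D hh kk (modulus D.adjX D.pX q hq h h.continuous hh hhh)
      (modulus D.adjX D.pX q hq h.symm h.symm.continuous kk kkk) ?_ x0 y0 ?_ hx1 ?_ (fun n => rfl)
      ?_ ?_
    · intro z n
      apply key
      rw [kkk, hhh, h.symm_apply_apply]
    · rw [hx0, hu0]
    · intro n
      exact (hx0 n).symm
    · apply key
      rw [hhh, h1]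
    · apply key
      rw [hhh, h2]


end Pool.B595.Bih
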